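import Pool.Agent.SQ.T3.Foe
import Pool.Agent.SQ.OreCond

/-!
# SQ, third stage: the Ore condition for poly-(infinite cyclic) groups
-/

set_option autoImplicit false

noncomputable section

namespace SQ.T3

open MonoidAlgebra OreCond

variable {G : Type} [Group G]

open Classical in
theorem core2 (T T' S : Finset G) (hT : ∀ x ∈ T, ∀ y ∈ S, x * y ∈ T') (hn : T'.card < 2 * T.card)
    (a s : MonoidAlgebra (ZMod 2) G) (ha : a.coeff.support ⊆ S) (hs : s.coeff.support ⊆ S) :
    ∃ f h : T → ZMod 2, (f, h) ≠ 0 ∧ toMA T f * a = toMA T h * s := by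
  let L : ((T → ZMod 2) × (T → ZMod 2)) →ₗ[ZMod 2] (T' → ZMod 2) :=
    { toFun := fun p g => (toMA T p.1 * a - toMA T p.2 * s).coeff (g : G)
      map_add' := by
        intro p q
        funext g
        simp only [Prod.fst_add, Prod.snd_add, map_add, add_mul, coeff_sub, coeff_add,
          Finsupp.sub_apply, Finsupp.add_apply, Pi.add_apply]
        ring
      map_smul' := by
        intro c p
        funext g
        simp only [Prod.smul_fst, Prod.smul_snd, map_smul, smul_mul_assoc, coeff_sub, coeff_smul,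
          Finsupp.sub_apply, Finsupp.smul_apply, Pi.smul_apply, smul_eq_mul, RingHom.id_apply]
        ring }
  have hker : LinearMap.ker L ≠ ⊥ := by
    apply LinearMap.ker_ne_bot_of_finrank_lt
    rw [Module.finrank_prod, Module.finrank_fintype_fun_eq_card,
      Module.finrank_fintype_fun_eq_card, Fintype.card_coe, Fintype.card_coe]
    omega
  obtain ⟨p, hp, hp0⟩ := (Submodule.ne_bot_iff _).1 hker
  refine ⟨p.1, p.2, hp0, ?_⟩
  rw [← sub_eq_zero]
  ext g
  rw [coeff_zero, Finsupp.zero_apply]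
  by_cases hg : g ∈ T'
  · have := congrFun (LinearMap.mem_ker.1 hp) ⟨g, hg⟩
    exact this
  · by_contra hne
    have hmem : g ∈ (toMA T p.1 * a - toMA T p.2 * s).coeff.support := Finsupp.mem_support_iff.2 hne
    rw [coeff_sub] at hmem
    have := Finsupp.support_sub hmem
    apply hg
    rcases Finset.mem_union.1 this with h | h
    · obtain ⟨c, hc, d, hd, rfl⟩ := Finset.mem_mul.1 (support_coeff_mul_subset _ _ h)
      exact hT _ (toMA_supp T p.1 (Finsupp.mem_support_iff.1 hc)) _ (ha hd)
    · obtain ⟨c, hc, d, hd, rfl⟩ := Finset.mem_mul.1 (support_coeff_mul_subset _ _ h)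
      exact hT _ (toMA_supp T p.2 (Finsupp.mem_support_iff.1 hc)) _ (hs hd)

/-- Foelner sets give the Ore condition -/
theorem oreG_of_foe (hG : ∀ H : Subgroup G, Foe H) (hdom : NoZeroDivisors (MonoidAlgebra (ZMod 2) G)) : OreG G := by
  classical
  intro H a s ha hs hs0
  let S : Finset G := a.coeff.support ∪ s.coeff.support
  have hSH : ∀ g ∈ S, g ∈ H := by
    intro g hg
    rcases Finset.mem_union.1 hg with h | h
    · exact ha g (Finsupp.mem_support_iff.1 h)
    · exact hs g (Finsupp.mem_support_iff.1 h)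
  obtain ⟨Φ, I, h1, h2, h3, h4⟩ := hG H (S.subtype (· ∈ H)) 1
  let e : H ↪ G := ⟨Subtype.val, Subtype.val_injective⟩
  obtain ⟨T, hT⟩ : ∃ T : Finset G, T = I.map e := ⟨_, rfl⟩
  have hTc : T.card = I.card := by rw [hT, Finset.card_map]
  have hTH : ∀ g ∈ T, g ∈ H := by
    intro g hg
    rw [hT] at hg
    obtain ⟨x, _, hx⟩ := Finset.mem_map.1 hg
    rw [← hx]
    exact x.2
  obtain ⟨f, h, hne, he⟩ := core2 T (Φ.map e) S (by
      intro x hx y hy
      rw [hT] at hx
      obtain ⟨x', hx', rfl⟩ := Finset.mem_map.1 hx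
      refine Finset.mem_map.2 ⟨x' * ⟨y, hSH y hy⟩, h3 x' hx' _ ?_, rfl⟩
      exact Finset.mem_subtype.2 hy) (by
      rw [hTc, Finset.card_map]
      have := h1.card_pos
      omega) a s Finset.subset_union_left Finset.subset_union_right
  have hsupp : ∀ f : T → ZMod 2, SuppIn H (toMA T f) := fun f g hg => hTH g (toMA_supp _ f hg)
  refine ⟨toMA T f, toMA T h, hsupp f, hsupp h, ?_, he⟩
  intro h0
  rw [h0, zero_mul] at he
  have h5 : toMA T h = 0 := by
    rcases mul_eq_zero.1 he.symm with h | h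
    · exact h
    · exact absurd h hs0
  apply hne
  rw [toMA_eq_zero _ f h0, toMA_eq_zero _ h h5]
  rfl

theorem PolyZ.oreG (h : PolyZ G) : OreG G :=
  oreG_of_foe (fun H => (h.subgroup H).foe) h.noZeroDivisors

end SQ.T3
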