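import Pool.Agent.SQ.T3.TorC

/-!
# SQ, third stage: `H_q(K; D ⊗ D) = 0` for `q > 0` (row X3)
-/

set_option autoImplicit false
set_option linter.unusedSectionVars false

open scoped TensorProduct

namespace SQ.T3.Tor

open Singer SQ.Acr

section start
variable {K : Type} [Group K] {E : Type} [DivisionRing E] [Algebra (ZMod 2) E] (ρ : K →* Eˣ)

open Classical in
lemma exists_fun (h : LinearIndependent (ZMod 2) fun g : K => ((ρ g : Eˣ) : E)) :
    ∃ l : E →ₗ[ZMod 2] ZMod 2, ∀ g : K, l ((ρ g : Eˣ) : E) = if g = 1 then 1 else 0 := by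
  obtain ⟨f, hf⟩ := LinearMap.exists_leftInverse_of_injective
    (Finsupp.linearCombination (ZMod 2) fun g : K => ((ρ g : Eˣ) : E)) (LinearMap.ker_eq_bot.2 h)
  refine ⟨Finsupp.lapply 1 ∘ₗ f, fun g => ?_⟩
  have h1 := LinearMap.congr_fun hf (Finsupp.single g 1)
  rw [LinearMap.comp_apply, Finsupp.linearCombination_single, one_smul, LinearMap.id_apply] at h1
  rw [LinearMap.comp_apply, h1, Finsupp.lapply_apply, Finsupp.single_apply]

/-- contraction of the first factor -/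
noncomputable def La (l : E →ₗ[ZMod 2] ZMod 2) (g : K) : E ⊗[ZMod 2] E →ₗ[ZMod 2] E :=
  ((TensorProduct.lid (ZMod 2) E).toLinearMap ∘ₗ TensorProduct.map l LinearMap.id) ∘ₗ ten ρ g

lemma La_tmul (l : E →ₗ[ZMod 2] ZMod 2) (g : K) (x y : E) :
    La ρ l g (x ⊗ₜ[ZMod 2] y) = l (x * ((ρ g⁻¹ : Eˣ) : E)) • (((ρ g : Eˣ) : E) * y) := by
  rw [La, LinearMap.comp_apply, ten_tmul, LinearMap.comp_apply, TensorProduct.map_tmul, LinearEquiv.coe_coe,
    TensorProduct.lid_tmul, LinearMap.id_apply]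

lemma La_ten (l : E →ₗ[ZMod 2] ZMod 2) (g h : K) (z : E ⊗[ZMod 2] E) : La ρ l g (ten ρ h z) = La ρ l (g * h) z := by
  rw [La, La, map_mul]
  rfl

open Classical in
/-- a coordinate of the map which detects the differences -/
noncomputable def mu (l : E →ₗ[ZMod 2] ZMod 2) (N : Subgroup K) (α : Type) (k : K) (b : α) : Tc K E α →ₗ[ZMod 2] E :=
  TensorProduct.lift (LinearMap.mk₂ (ZMod 2)
    (fun p z => (p b).coeff.sum fun h c => if k * h⁻¹ ∈ N then c • La ρ l (k * h⁻¹) z else 0)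
    (fun p p' z => by
      rw [Pi.add_apply, MonoidAlgebra.coeff_add, Finsupp.sum_add_index']
      · intro h; split_ifs <;> simp
      · intro h c c'; split_ifs <;> simp [add_smul])
    (fun c p z => by
      rw [Pi.smul_apply, MonoidAlgebra.coeff_smul, Finsupp.sum_smul_index' (by intro h; split_ifs <;> simp),
        Finsupp.smul_sum]
      refine Finsupp.sum_congr fun h _ => ?_
      split_ifs
      · rw [smul_assoc]
      · rw [smul_zero])
    (fun p z z' => by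
      rw [← Finsupp.sum_add]
      refine Finsupp.sum_congr fun h _ => ?_
      split_ifs
      · rw [map_add, smul_add]
      · rw [add_zero])
    (fun c p z => by
      rw [Finsupp.smul_sum]
      refine Finsupp.sum_congr fun h _ => ?_
      split_ifs
      · rw [map_smul, smul_comm]
      · rw [smul_zero]))

open Classical in
lemma mu_bas (l : E →ₗ[ZMod 2] ZMod 2) (N : Subgroup K) {α : Type} (k : K) (b a : α) (h : K) (z : E ⊗[ZMod 2] E) :
    mu ρ l N α k b (bas a h ⊗ₜ[ZMod 2] z) = if b = a ∧ k * h⁻¹ ∈ N then La ρ l (k * h⁻¹) z else 0 := by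
  rw [mu, TensorProduct.lift.tmul, LinearMap.mk₂_apply, bas]
  by_cases hb : b = a
  · subst hb
    rw [Pi.single_eq_same, MonoidAlgebra.coeff_single, Finsupp.sum_single_index (by split_ifs <;> simp), one_smul]
    simp only [true_and]
  · rw [Pi.single_eq_of_ne hb, MonoidAlgebra.coeff_zero, Finsupp.sum_zero_index, if_neg fun h => hb h.1]

lemma mu_sg (l : E →ₗ[ZMod 2] ZMod 2) (N : Subgroup K) {α : Type} [Fintype α] (k : K) (b : α) {g : K} (hg : g ∈ N)
    (z : Tc K E α) : mu ρ l N α k b (sg (ten ρ) α g z) = mu ρ l N α k b z := by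
  classical
  refine ind_ten (p := fun z => mu ρ l N α k b (sg (ten ρ) α g z) = mu ρ l N α k b z) (by simp)
    (fun x y hx hy => by simp only [map_add, hx, hy]) (fun a h y => ?_) z
  rw [sg_bas, mu_bas, mu_bas, La_ten, mul_inv_rev, ← mul_assoc, inv_mul_cancel_right]
  have h1 : k * h⁻¹ * g⁻¹ ∈ N ↔ k * h⁻¹ ∈ N := N.mul_mem_cancel_right (N.inv_mem hg)
  simp only [h1]

lemma mu_Iv (l : E →ₗ[ZMod 2] ZMod 2) (N : Subgroup K) {α : Type} [Fintype α] (k : K) (b : α) {z : Tc K E α}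
    (hz : z ∈ Iv ρ α N) : mu ρ l N α k b z = 0 := by
  have h1 : mu ρ l N α k b z ∈ (⊥ : Submodule (ZMod 2) E) := by
    refine Iv.map ρ _ _ (fun g hg x hx => ?_) hz
    rw [mu_sg ρ l N k b hg, sub_self]
    exact zero_mem _
  exact h1

/-- the insertion of `1` -/
noncomputable def in1 (K E : Type) [Group K] [DivisionRing E] [Algebra (ZMod 2) E] (α : Type) :
    (α → MonoidAlgebra (ZMod 2) K) ⊗[ZMod 2] E →ₗ[ZMod 2] Tc K E α :=
  (TensorProduct.mk (ZMod 2) E E 1).lTensor _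

lemma in1_tmul {α : Type} (p : α → MonoidAlgebra (ZMod 2) K) (y : E) :
    in1 K E α (p ⊗ₜ[ZMod 2] y) = p ⊗ₜ[ZMod 2] ((1 : E) ⊗ₜ[ZMod 2] y) := rfl

open Classical in
lemma mu_in1 {l : E →ₗ[ZMod 2] ZMod 2} (hl : ∀ g : K, l ((ρ g : Eˣ) : E) = if g = 1 then 1 else 0) (N : Subgroup K)
    {α : Type} [Fintype α] (k : K) (b : α) (m : (α → MonoidAlgebra (ZMod 2) K) ⊗[ZMod 2] E) :
    mu ρ l N α k b (in1 K E α m) = tw (Representation.trivial (ZMod 2) K E) α m k b := by
  refine ind_ten (p := fun m => mu ρ l N α k b (in1 K E α m) = tw (Representation.trivial (ZMod 2) K E) α m k b) (by simp)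
    (fun x y hx hy => by rw [map_add, map_add, hx, hy, map_add]; rfl) (fun a h y => ?_) m
  rw [in1_tmul, mu_bas, tw_bas, La_tmul, one_mul, hl]
  show _ = (Finsupp.single h (Pi.single a y : α → E)) k b
  by_cases hk : k = h
  · subst hk
    rw [mul_inv_cancel, inv_one, if_pos rfl, map_one, Units.val_one, one_mul, one_smul, Finsupp.single_eq_same]
    by_cases hb : b = a
    · subst hb
      rw [if_pos ⟨rfl, N.one_mem⟩, Pi.single_eq_same]
    · rw [if_neg fun h => hb h.1, Pi.single_eq_of_ne hb]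
  · have h1 : (k * h⁻¹)⁻¹ ≠ 1 := by
      intro h2
      exact hk (mul_inv_eq_one.1 (inv_eq_one.1 h2))
    rw [if_neg h1, zero_smul, Finsupp.single_eq_of_ne hk]
    simp

lemma in1_d {α β : Type} [Fintype α] (P : Matrix α β (MonoidAlgebra ℤ K))
    (m : (α → MonoidAlgebra (ZMod 2) K) ⊗[ZMod 2] E) :
    (dd P).rTensor (E ⊗[ZMod 2] E) (in1 K E α m) = in1 K E β ((dd P).rTensor E m) := by
  induction m using TensorProduct.induction_on with
  | zero => simp only [map_zero]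
  | add x y hx hy => rw [map_add, map_add, hx, hy, map_add, map_add]
  | tmul p y => rfl

lemma in1_mem {α : Type} {B : Set E} (f : E →ₗ[ZMod 2] E) (hf : ∀ y, f y ∈ B) {A : Set E} (hA : (1 : E) ∈ A)
    (m : (α → MonoidAlgebra (ZMod 2) K) ⊗[ZMod 2] E) : in1 K E α (f.lTensor _ m) ∈ Ch K α A B := by
  induction m using TensorProduct.induction_on with
  | zero => simp only [map_zero, zero_mem]
  | add x y hx hy => rw [map_add, map_add]; exact add_mem hx hy
  | tmul p y =>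
    rw [LinearMap.lTensor_tmul, in1_tmul]
    exact Ch.mk p hA (hf y)

lemma lT_rT {α β : Type} [Fintype α] (P : Matrix α β (MonoidAlgebra ℤ K)) (f : E →ₗ[ZMod 2] E)
    (m : (α → MonoidAlgebra (ZMod 2) K) ⊗[ZMod 2] E) : (dd P).rTensor E (f.lTensor _ m) = f.lTensor _ ((dd P).rTensor E m) := by
  induction m using TensorProduct.induction_on with
  | zero => simp only [map_zero]
  | add x y hx hy => simp only [map_add, hx, hy]
  | tmul p y => rfl

/-- the start of the induction -/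
theorem Va_zero (R : FinRes K) (h : LinearIndependent (ZMod 2) fun g : K => ((ρ g : Eˣ) : E)) (N : Subgroup K) :
    Va ρ R N (AddSubgroup.closure ((fun g : K => ((ρ g : Eˣ) : E)) '' (N : Set K)) : Set E) := by
  classical
  intro q c hc hd
  obtain ⟨l, hl⟩ := exists_fun ρ h
  -- the retraction
  let L : Submodule (ZMod 2) E :=
    { carrier := cl ρ N
      add_mem' := fun ha hb => (cl ρ N).add_mem ha hb
      zero_mem' := (cl ρ N).zero_mem
      smul_mem' := by
        intro c x hx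
        fin_cases c
        · show (0 : ZMod 2) • x ∈ cl ρ N
          rw [zero_smul]; exact (cl ρ N).zero_mem
        · show (1 : ZMod 2) • x ∈ cl ρ N
          rw [one_smul]; exact hx }
  obtain ⟨π, hπ⟩ := LinearMap.exists_leftInverse_of_injective L.subtype (LinearMap.ker_eq_bot.2 L.subtype_injective)
  -- the chains of the form `p ⊗ y`
  let T : ∀ α : Type, Submodule (ZMod 2) ((α → MonoidAlgebra (ZMod 2) K) ⊗[ZMod 2] E) := fun α =>
    Submodule.span (ZMod 2) {z | ∃ p : α → MonoidAlgebra (ZMod 2) K, ∃ y ∈ cl ρ N, z = p ⊗ₜ[ZMod 2] y}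
  have hT1 : c ∈ Submodule.map (in1 K E (R.ι (q + 1))) (T (R.ι (q + 1))) ⊔ Iv ρ (R.ι (q + 1)) N := by
    refine Ch.map LinearMap.id _ (fun p x hx y hy => ?_) hc
    rw [LinearMap.id_apply]
    refine AddSubgroup.closure_induction (p := fun x _ => p ⊗ₜ[ZMod 2] (x ⊗ₜ[ZMod 2] y) ∈
      Submodule.map (in1 K E (R.ι (q + 1))) (T (R.ι (q + 1))) ⊔ Iv ρ (R.ι (q + 1)) N) ?_ ?_ ?_ ?_ hx
    · rintro _ ⟨g, hg, rfl⟩
      have h1 : sg (ten ρ) (R.ι (q + 1)) g (p ⊗ₜ[ZMod 2] (((ρ g : Eˣ) : E) ⊗ₜ[ZMod 2] y)) =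
          in1 K E (R.ι (q + 1)) (lam (R.ι (q + 1)) g p ⊗ₜ[ZMod 2] (((ρ g : Eˣ) : E) * y)) := by
        rw [sg_tmul, in1_tmul, ← Units.val_mul, ← map_mul, mul_inv_cancel, map_one, Units.val_one]
      have h2 := Iv.mk ρ hg (Ch.mk (α := R.ι (q + 1)) p (mem_cl ρ hg) hy)
      have h3 : p ⊗ₜ[ZMod 2] (((ρ g : Eˣ) : E) ⊗ₜ[ZMod 2] y) =
          in1 K E (R.ι (q + 1)) (lam (R.ι (q + 1)) g p ⊗ₜ[ZMod 2] (((ρ g : Eˣ) : E) * y)) -
          (sg (ten ρ) (R.ι (q + 1)) g (p ⊗ₜ[ZMod 2] (((ρ g : Eˣ) : E) ⊗ₜ[ZMod 2] y)) -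
            p ⊗ₜ[ZMod 2] (((ρ g : Eˣ) : E) ⊗ₜ[ZMod 2] y)) := by
        rw [h1, sub_sub_cancel]
      show p ⊗ₜ[ZMod 2] (((ρ g : Eˣ) : E) ⊗ₜ[ZMod 2] y) ∈ _
      rw [h3]
      refine sub_mem (Submodule.mem_sup_left ⟨_, Submodule.subset_span ⟨_, _, ?_, rfl⟩, rfl⟩) (Submodule.mem_sup_right h2)
      exact (cl ρ N).mul_mem (mem_cl ρ hg) hy
    · rw [TensorProduct.zero_tmul, TensorProduct.tmul_zero]; exact zero_mem _
    · intro a b _ _ ha hb
      rw [TensorProduct.add_tmul, TensorProduct.tmul_add]; exact add_mem ha hb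
    · intro a _ ha
      rw [TensorProduct.neg_tmul, TensorProduct.tmul_neg]; exact neg_mem ha
  obtain ⟨_, ⟨m, hm, rfl⟩, i, hi, rfl⟩ := Submodule.mem_sup.1 hT1
  -- the chain is a cycle
  have hcyc : (dd (R.d q)).rTensor E m = 0 := by
    have h1 : bd R q (in1 K E (R.ι (q + 1)) m) = in1 K E (R.ι q) ((dd (R.d q)).rTensor E m) := in1_d (R.d q) m
    have h2 : in1 K E (R.ι q) ((dd (R.d q)).rTensor E m) ∈ Iv ρ (R.ι q) N := by
      rw [← h1]
      have h3 := sub_mem hd (Iv.d ρ (R.d q) hi)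
      rwa [map_add, add_sub_cancel_right] at h3
    have h3 : tw (Representation.trivial (ZMod 2) K E) (R.ι q) ((dd (R.d q)).rTensor E m) = 0 := by
      apply Finsupp.ext
      intro k
      funext b
      rw [← mu_in1 ρ hl N k b, mu_Iv ρ l N k b h2]
      rfl
    rw [← ut_tw (Representation.trivial (ZMod 2) K E) ((dd (R.d q)).rTensor E m), h3, map_zero]
  obtain ⟨n, hn⟩ := (Module.Flat.rTensor_exact E (ex_succ R q) m).1 hcyc
  -- the retraction of `n`
  let pr : E →ₗ[ZMod 2] E := L.subtype ∘ₗ π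
  have hpr : ∀ x ∈ cl ρ N, pr x = x := by
    intro x hx
    have h1 := LinearMap.congr_fun hπ ⟨x, hx⟩
    exact congrArg Subtype.val h1
  have hprm : pr.lTensor _ m = m := by
    refine Submodule.span_induction (p := fun m _ => pr.lTensor _ m = m) ?_ (map_zero _) (fun x y _ _ hx hy => by
      rw [map_add, hx, hy]) (fun c x _ hx => by rw [map_smul, hx]) hm
    rintro _ ⟨p, y, hy, rfl⟩
    rw [LinearMap.lTensor_tmul, hpr y hy]
  have hfin : bd R (q + 1) (in1 K E (R.ι (q + 2)) (pr.lTensor _ n)) = in1 K E (R.ι (q + 1)) m := by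
    rw [← hprm, ← hn]
    refine (in1_d (R.d (q + 1)) _).trans ?_
    rw [lT_rT]
  rw [← hfin]
  exact add_mem (Bv.of_d ρ R (in1_mem pr (fun y => (π y).2) (one_mem (cl ρ N)) n)) (Iv.le_Bv ρ R N _ hi)

end start

section fin
variable {K : Type} [Group K] {E : Type} [DivisionRing E] [Algebra (ZMod 2) E] (ρ : K →* Eˣ)

/-- the induction -/
theorem Va_all (R : FinRes K) (C : Chain K) (h : LinearIndependent (ZMod 2) fun g : K => ((ρ g : Eˣ) : E))
    (S : Steps C ρ) : ∀ J j, Va ρ R (C.N j) (Good S J j) := by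
  intro J
  induction J with
  | zero => intro j; exact Va_zero ρ R h (C.N j)
  | succ J ih =>
    intro j
    have hle : C.N (j + 1) ≤ C.N j := fun g hg => ((C.succ j g).1 hg).1
    by_cases ht : S.t j = 1
    · have h1 : C.N j = C.N (j + 1) := by
        refine le_antisymm (fun g hg => ?_) hle
        obtain ⟨n, hn⟩ := S.gen j g hg
        rwa [ht, one_zpow, mul_one] at hn
      rw [Good, dif_pos ht, h1]
      exact ih (j + 1)
    · rw [Good, dif_neg ht]
      refine zstep ρ R (C.N (j + 1)) (C.N j) (S.t j) (S.st j ht) hle (S.t_mem j)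
        (fun u g hg => (C.normal (j + 1)).conj_mem g hg _) (S.gen j) (fun x hx => hx.1) (fun x hx u => hx.2 u) (ih (j + 1))

/-- vanishing for the action `ten` -/
theorem exH_ten (R : FinRes K) (C : Chain K) (hcl : cl ρ (C.N 0) = ⊤)
    (h : LinearIndependent (ZMod 2) fun g : K => ((ρ g : Eˣ) : E)) (S : Steps C ρ)
    (hfin : ∀ X : Finset E, (∀ x ∈ X, x ∈ cl ρ (C.N 0)) → ∃ J, ∀ x ∈ X, x ∈ Good S J 0) (j : ℕ) :
    ExH (ten ρ) R (j + 1) := by
  classical
  intro f hf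
  have hI : ∀ α : Type, Iv ρ α (C.N 0) = coin (sg (ten ρ) α) ⊤ := by
    intro α
    rw [C.zero] at hcl ⊢
    rw [Iv, coin, hcl]
    congr 1
    ext z
    constructor
    · rintro ⟨g, hg, x, _, rfl⟩
      exact ⟨g, hg, x, rfl⟩
    · rintro ⟨g, hg, x, rfl⟩
      exact ⟨g, hg, x, by simpa using Ch.univ α x, rfl⟩
  have h1 : bd R j (se (R.ι (j + 1)) f) ∈ Iv ρ (R.ι j) (C.N 0) := by
    rw [hI]
    have h1 := sub_se (ten ρ) ((dd (R.d j)).rTensor (E ⊗[ZMod 2] E) (se (R.ι (j + 1)) f))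
    rw [co_d, co_se, hf] at h1
    have h2 : se (R.ι j) (0 : R.ι j → E ⊗[ZMod 2] E) = (0 : Tc K E (R.ι j)) := by simp [se]
    rwa [h2, sub_zero] at h1
  obtain ⟨X, Y, -, -, hXY⟩ := Ch.fin (Ch.univ (R.ι (j + 1)) (se (R.ι (j + 1)) f : Tc K E (R.ι (j + 1))))
  obtain ⟨J, hJ⟩ := hfin X (fun x _ => by rw [hcl]; trivial)
  have h2 : (se (R.ι (j + 1)) f : Tc K E (R.ι (j + 1))) ∈ Ch K (R.ι (j + 1)) (Good S J 0) (cl ρ (C.N 0) : Set E) :=
    Ch.mono (fun x hx => hJ x hx) (fun y _ => by rw [hcl]; trivial) hXY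
  obtain ⟨_, ⟨b, -, rfl⟩, i, hi, hsum⟩ := Submodule.mem_sup.1 (Va_all ρ R C h S J 0 j _ h2 h1)
  rw [hI] at hi
  refine ⟨co (ten ρ) (R.ι (j + 2)) b, ?_⟩
  have h3 := congrArg (co (ten ρ) (R.ι (j + 1))) hsum
  rw [map_add, co_coin (ten ρ) hi, add_zero, co_se] at h3
  rw [← h3]
  exact (co_d (ten ρ) (R.d (j + 1)) b).symm

/-- the involution of the first factor -/
noncomputable def stz (E : Type) [DivisionRing E] [Algebra (ZMod 2) E] [StarRing E] : E →ₗ[ZMod 2] E where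
  toFun := star
  map_add' := star_add
  map_smul' c x := by
    fin_cases c
    · show star ((0 : ZMod 2) • x) = (0 : ZMod 2) • star x
      rw [zero_smul, zero_smul, star_zero]
    · show star ((1 : ZMod 2) • x) = (1 : ZMod 2) • star x
      rw [one_smul, one_smul]

/-- the involution of the first factor -/
noncomputable def st1 (E : Type) [DivisionRing E] [Algebra (ZMod 2) E] [StarRing E] : E ⊗[ZMod 2] E →ₗ[ZMod 2] E ⊗[ZMod 2] E :=
  TensorProduct.map (stz E) LinearMap.id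

lemma st1_st1 [StarRing E] (z : E ⊗[ZMod 2] E) : st1 E (st1 E z) = z := by
  induction z using TensorProduct.induction_on with
  | zero => simp only [map_zero]
  | add x y hx hy => simp only [map_add, hx, hy]
  | tmul x y =>
    show (star (star x)) ⊗ₜ[ZMod 2] y = _
    rw [star_star]

lemma st1_ten [StarRing E] (hs : ∀ g, star ((ρ g : Eˣ) : E) = ((ρ g⁻¹ : Eˣ) : E)) (g : K) (z : E ⊗[ZMod 2] E) :
    st1 E (ten ρ g z) = diag ρ g (st1 E z) := by
  induction z using TensorProduct.induction_on with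
  | zero => simp only [map_zero]
  | add x y hx hy => simp only [map_add, hx, hy]
  | tmul x y =>
    show (star (x * ((ρ g⁻¹ : Eˣ) : E))) ⊗ₜ[ZMod 2] (((ρ g : Eˣ) : E) * y) =
      (((ρ g : Eˣ) : E) * star x) ⊗ₜ[ZMod 2] (((ρ g : Eˣ) : E) * y)
    rw [star_mul, hs, inv_inv]

lemma st1_diag [StarRing E] (hs : ∀ g, star ((ρ g : Eˣ) : E) = ((ρ g⁻¹ : Eˣ) : E)) (g : K) (z : E ⊗[ZMod 2] E) :
    st1 E (diag ρ g z) = ten ρ g (st1 E z) := by
  rw [← st1_st1 (ten ρ g (st1 E z)), st1_ten ρ hs, st1_st1]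

lemma bdry_map {Y Z : Type} [AddCommGroup Y] [Module (ZMod 2) Y] [AddCommGroup Z] [Module (ZMod 2) Z]
    (τ : Representation (ZMod 2) K Y) (τ' : Representation (ZMod 2) K Z) (f : Y →ₗ[ZMod 2] Z)
    (hf : ∀ g y, f (τ g y) = τ' g (f y)) {α β : Type} [Fintype α] (P : Matrix α β (MonoidAlgebra ℤ K)) (x : α → Y) :
    bdry τ' P (fun a => f (x a)) = fun b => f (bdry τ P x b) := by
  funext b
  simp only [bdry, map_sum, map_smul, hf]

end fin

end SQ.T3.Tor

namespace SQ.T3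

open Tor in
/-- **row X3** -/
theorem tor : StmtTor := by
  intro K _ C E _ _ _ ρ hs hcl h S hfin R j f hf
  have h1 : bdry (ten ρ) (R.d j) (fun a => st1 E (f a)) = 0 := by
    rw [bdry_map (diag ρ) (ten ρ) (st1 E) (st1_diag ρ hs), hf]
    funext b
    exact map_zero _
  obtain ⟨e, he⟩ := exH_ten ρ R C hcl h S hfin j _ h1
  refine ⟨fun a => st1 E (e a), ?_⟩
  rw [bdry_map (ten ρ) (diag ρ) (st1 E) (st1_ten ρ hs), he]
  funext b
  exact st1_st1 _

end SQ.T3
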