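import Pool.Agent.SQ.T3.Base
import Pool.Agent.SQ.T2.Fin2
import Pool.Agent.SQ.RowMain

/-!
# SQ, third stage: the final theorem, from the rows
-/

set_option autoImplicit false

noncomputable section

namespace SQ.T3

open Filter SQ.Ultra Singer Pool.Agent.Helper18.SQ Pool.Agent.Helper16.Cmp

/-- a group with a chain has no involutions -/
theorem noInv_of_chain {K : Type} [Group K] (C : Chain K) (g : K) (hg : g * g = 1) : g = 1 := by
  refine C.inf g fun j => ?_
  induction j with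
  | zero =>
    rw [C.zero]
    exact Subgroup.mem_top g
  | succ j ih =>
    refine (C.succ j g).2 ⟨ih, ?_⟩
    have h1 : C.chi j ⟨g, ih⟩ * C.chi j ⟨g, ih⟩ = 1 := by
      rw [← map_mul]
      have h2 : (⟨g, ih⟩ : C.N j) * ⟨g, ih⟩ = 1 := Subtype.ext hg
      rw [h2, map_one]
    have h2 : Multiplicative.toAdd (C.chi j ⟨g, ih⟩) + Multiplicative.toAdd (C.chi j ⟨g, ih⟩) = 0 := by
      rw [← toAdd_mul, h1, toAdd_one]
    exact toAdd_eq_zero.1 (by omega)

/-- the vanishing with coefficients in a skew field `D` such that `D ⊗ D` is acyclic -/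
theorem vanish_of_tor (hLEM : StmtLEM) {K : Type} [Group K] (hinv : ∀ h : K, h * h = 1 → h = 1) {D : Type} [DivisionRing D]
    [Algebra (ZMod 2) D] [StarRing D] (ρ : K →* Dˣ) (hs : ∀ g, star ((ρ g : Dˣ) : D) = ((ρ g⁻¹ : Dˣ) : D)) {n : ℕ}
    (hn : IsPD n K) (R : FinRes K) (h1 : ∀ j, ExH (diag ρ) R (j + 1)) (i : ℕ) (hi : 2 * i ≠ n) : Ex (lmul ρ) R i := by
  have h2 : ∀ j, j < n → Ex (diag ρ) R j := by
    intro j hj
    refine (pd (τ := diag ρ) n hn R).1 j hj.le ?_
    obtain ⟨k, hk⟩ : ∃ k, n - j = k + 1 := ⟨n - j - 1, by omega⟩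
    rw [hk]
    exact h1 k
  have h3 : ∀ m, 2 * m < n → Ex (lmul ρ) R m := fun m hm =>
    hLEM K hinv R _ (lmul ρ) m fun j hj => h2 j (by omega)
  rcases lt_or_gt_of_ne hi with h | h
  · exact h3 i h
  · by_cases hin : i ≤ n
    · exact (pd (τ := lmul ρ) n hn R).1 i hin
        ((dua K R D ρ hs (n - i)).1 (h3 (n - i) (by omega)))
    · exact (pd (τ := lmul ρ) n hn R).2 i (by omega)

/-- from the cohomology with coefficients in the ultraproduct to the `ℓ²`-homology -/
theorem vanE_of_ex {K : Type} [Group K] (A : T2.Apx K) (R : FinRes K) (i : ℕ)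
    (h5 : Ex (lmul (hom A.seq.u : K →* (T2.UDS A.seq)ˣ)) R i) : R.VanE i := by
  classical
  have h6 : CoV R (fun x => lm (((hom A.seq.u : K →* (T2.UDS A.seq)ˣ) x : (T2.UDS A.seq)ˣ) : T2.UDS A.seq)) i :=
    FinSt.coV_of_ex _ R i h5
  refine van_of_bound (D := (T2.UDS A.seq)ᵐᵒᵖ) (M := T2.UDS A.seq) R _ ?_ i h6
  intro κ ι J _ _ _ _ c s W hW
  rw [finrank_op, Nat.cast_one, mul_one]
  refine T2.vdim_le_of_datum c s W hW _ fun S => ?_
  have h7 := T2.finrank_solF_le A.seq c s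
  have h8 : ∀ᶠ n in (T2.U0 : Filter ℕ), ∀ g ∈ S, g ≠ 1 → A.p n g ≠ 1 := by
    rw [Filter.eventually_all_finset]
    intro g _
    by_cases hg : g = 1
    · exact Eventually.of_forall fun _ h9 => absurd hg h9
    · have h10 := A.sep g hg
      rw [← Nat.cofinite_eq_atTop] at h10
      filter_upwards [Filter.hyperfilter_le_cofinite h10] with n hn _
      exact hn
  obtain ⟨m, hm1, hm2⟩ := (h7.and h8).exists
  exact ⟨{ Q := A.G m
           π := A.p m
           sep := hm2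
           growth := A.growth m
           D := (A.O m).D
           u := (A.O m).u
           li := T2.li_of A m }, hm1⟩

/-- **the vanishing theorem for the residually unitriangular groups** (from the rows) -/
theorem vanE_resUT_of (hSteps : StmtSteps) (hInd : StmtInd) (hGood : StmtGood) (hTor : StmtTor) (hLEM : StmtLEM)
    {K : Type} [Group K] (hK : T2.ResUT K ⊥) {n : ℕ} (hn : IsPD n K) (R : FinRes K) (i : ℕ) (hi : 2 * i ≠ n) :
    R.VanE i := by
  have hc : Countable K := T2.countable_of_finRes R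
  obtain ⟨A, C, hlev⟩ := exists_apx K hK
  refine vanE_of_ex A R i (ex_base _ R i ?_)
  set ρ : K →* (T2.UDS A.seq)ˣ := hom A.seq.u
  let _ : StarRing (SF ρ) := starSF ρ (T2.star_hom A.seq)
  have hlev' : ∀ j, Nonempty (Level K (SF ρ) (sρ ρ) (C.N j)) := fun j => level_sub ρ _ (hlev j)
  obtain ⟨S⟩ := hSteps K C (SF ρ) (sρ ρ) hlev'
  have hst : ∀ g, star ((sρ ρ g : (SF ρ)ˣ) : SF ρ) = ((sρ ρ g⁻¹ : (SF ρ)ˣ) : SF ρ) := star_sρ ρ (T2.star_hom A.seq)
  have htop : cl (sρ ρ) (C.N 0) = ⊤ := by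
    rw [C.zero]
    exact cl_top ρ
  exact vanish_of_tor hLEM (noInv_of_chain C) (sρ ρ) hst hn R
    (hTor K C (SF ρ) (sρ ρ) hst htop (hInd K C (SF ρ) (sρ ρ) hlev') S (hGood K C (SF ρ) (sρ ρ) S) R) i hi

/-- the same for the groups with a residually unitriangular subgroup of finite index -/
theorem vanE_virtual_resUT_of (hSteps : StmtSteps) (hInd : StmtInd) (hGood : StmtGood) (hTor : StmtTor)
    {Γ : Type} [Group Γ] (H : Subgroup Γ) [hH : H.FiniteIndex] (hT : T2.ResUT H ⊥) {n : ℕ}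
    (hPD : IsPD n Γ ∨ IsPD n H) (R : FinRes Γ) (i : ℕ) (hi : 2 * i ≠ n) : R.VanE i :=
  FinRes.vanE_of_index H (fun R' => vanE_resUT_of hSteps hInd hGood hTor lem hT
    (hPD.elim (fun h => h.of_finiteIndex H) id) R' i hi) R

end SQ.T3
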