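import Pool.Agent.SQ.T3.Defs
import Pool.Agent.SQ.T2.Fin2
import Pool.Agent.SQ.RowMain

/-!
# SQ, third stage: assembly of the vanishing theorem for residually torsion-free nilpotent groups

* `ex_of_sub`: vanishing cohomology with coefficients in a skew field is inherited by larger skew fields;
* `vanish_of_exH`: the vanishing outside of the middle from the vanishing of `H_j(K; D ⊗ D)`, `j > 0`;
* `StmtFld` (row X4c): the skew field with its levels;
* `vanE_of_stmts`: the vanishing theorem from the rows.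
-/

set_option autoImplicit false

open scoped TensorProduct

namespace SQ.T3

open Singer Filter SQ.Ultra SQ.T2 Pool.Agent.Helper18.SQ Pool.Agent.Helper16.Cmp

/-! ### larger skew fields -/

section sub
variable {K : Type} [Group K] {E F : Type} [DivisionRing E] [DivisionRing F] [Algebra (ZMod 2) E] [Algebra (ZMod 2) F]

theorem cobd_map {α β : Type} [Fintype β] (ι : E →+* F) (ρ : K →* Eˣ) (σ : K →* Fˣ)
    (h : ∀ g, ι (((ρ g : Eˣ) : E)) = ((σ g : Fˣ) : F)) (φ : F →+ E) (hφ : ∀ e x, φ (ι e * x) = e * φ x)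
    (P : Matrix α β (MonoidAlgebra ℤ K)) (f : β → F) (a : α) :
    φ (_root_.SQ.cobd (lmul σ) P f a) = _root_.SQ.cobd (lmul ρ) P (fun b => φ (f b)) a := by
  show φ (∑ b, ∑ g ∈ (P a b).coeff.support, ((P a b).coeff g : ZMod 2) • (((σ g : Fˣ) : F) * f b)) =
    ∑ b, ∑ g ∈ (P a b).coeff.support, ((P a b).coeff g : ZMod 2) • (((ρ g : Eˣ) : E) * φ (f b))
  rw [map_sum]
  refine Finset.sum_congr rfl fun b _ => ?_
  rw [map_sum]
  refine Finset.sum_congr rfl fun g _ => ?_
  rw [ZMod.map_smul φ, ← h, hφ]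

theorem cobd_emb {α β : Type} [Fintype β] (ι : E →+* F) (ρ : K →* Eˣ) (σ : K →* Fˣ)
    (h : ∀ g, ι (((ρ g : Eˣ) : E)) = ((σ g : Fˣ) : F)) (ψ : E →+ F) (hψ : ∀ e x, ψ (e * x) = ι e * ψ x)
    (P : Matrix α β (MonoidAlgebra ℤ K)) (f : β → E) (a : α) :
    _root_.SQ.cobd (lmul σ) P (fun b => ψ (f b)) a = ψ (_root_.SQ.cobd (lmul ρ) P f a) := by
  show ∑ b, ∑ g ∈ (P a b).coeff.support, ((P a b).coeff g : ZMod 2) • (((σ g : Fˣ) : F) * ψ (f b)) =
    ψ (∑ b, ∑ g ∈ (P a b).coeff.support, ((P a b).coeff g : ZMod 2) • (((ρ g : Eˣ) : E) * f b))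
  rw [map_sum]
  refine Finset.sum_congr rfl fun b _ => ?_
  rw [map_sum]
  refine Finset.sum_congr rfl fun g _ => ?_
  rw [ZMod.map_smul ψ, hψ, h]

theorem cobd_sum {α β : Type} [Fintype β] (σ : K →* Fˣ) (P : Matrix α β (MonoidAlgebra ℤ K)) {S : Type} (s : Finset S)
    (f : S → β → F) (a : α) :
    _root_.SQ.cobd (lmul σ) P (fun b => ∑ i ∈ s, f i b) a = ∑ i ∈ s, _root_.SQ.cobd (lmul σ) P (f i) a := by
  show ∑ b, ∑ g ∈ (P a b).coeff.support, ((P a b).coeff g : ZMod 2) • (((σ g : Fˣ) : F) * ∑ i ∈ s, f i b) =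
    ∑ i ∈ s, ∑ b, ∑ g ∈ (P a b).coeff.support, ((P a b).coeff g : ZMod 2) • (((σ g : Fˣ) : F) * f i b)
  rw [Finset.sum_comm]
  refine Finset.sum_congr rfl fun b _ => ?_
  rw [Finset.sum_comm]
  refine Finset.sum_congr rfl fun g _ => ?_
  rw [Finset.mul_sum, Finset.smul_sum]

/-- vanishing cohomology is inherited by larger skew fields -/
theorem ex_of_sub (ι : E →+* F) (ρ : K →* Eˣ) (σ : K →* Fˣ) (h : ∀ g, ι (((ρ g : Eˣ) : E)) = ((σ g : Fˣ) : F))
    (R : FinRes K) (i : ℕ) (he : Ex (lmul ρ) R i) : Ex (lmul σ) R i := by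
  classical
  letI : Module E F := Module.compHom F ι
  have hsm : ∀ (e : E) (x : F), e • x = ι e * x := fun _ _ => rfl
  let b := Module.Basis.ofVectorSpace E F
  let φ : Module.Basis.ofVectorSpaceIndex E F → F →+ E := fun s =>
    { toFun := fun x => b.repr x s
      map_zero' := by simp
      map_add' := fun x y => by simp }
  have hφ : ∀ s e x, φ s (ι e * x) = e * φ s x := by
    intro s e x
    show b.repr (ι e * x) s = e * b.repr x s
    rw [← hsm, map_smul, Finsupp.smul_apply, smul_eq_mul]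
  let ψ : Module.Basis.ofVectorSpaceIndex E F → E →+ F := fun s =>
    { toFun := fun x => ι x * b s
      map_zero' := by simp
      map_add' := fun x y => by rw [map_add, add_mul] }
  have hψ : ∀ s e x, ψ s (e * x) = ι e * ψ s x := by
    intro s e x
    show ι (e * x) * b s = ι e * (ι x * b s)
    rw [map_mul, mul_assoc]
  have hfin : ∀ {β : Type} [Fintype β] (f : β → F), ∃ S : Finset (Module.Basis.ofVectorSpaceIndex E F),
      ∀ k, ∑ s ∈ S, ψ s (φ s (f k)) = f k := by
    intro β _ f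
    refine ⟨Finset.univ.biUnion fun k => (b.repr (f k)).support, fun k => ?_⟩
    conv_rhs => rw [← b.linearCombination_repr (f k), Finsupp.linearCombination_apply, Finsupp.sum]
    symm
    refine Finset.sum_subset (Finset.subset_biUnion_of_mem (fun k => (b.repr (f k)).support) (Finset.mem_univ k))
      fun s _ hs => ?_
    rw [Finsupp.notMem_support_iff] at hs
    show b.repr (f k) s • b s = 0
    rw [hs, zero_smul]
  cases i with
  | zero =>
    intro f hf
    obtain ⟨S, hS⟩ := hfin f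
    funext k
    rw [← hS k]
    refine Finset.sum_eq_zero fun s _ => ?_
    have h1 : (fun b => φ s (f b)) = 0 := by
      refine he _ ?_
      funext a
      rw [← cobd_map ι ρ σ h (φ s) (hφ s), hf]
      exact map_zero _
    have h2 : φ s (f k) = 0 := congrFun h1 k
    rw [h2, map_zero]
  | succ i =>
    intro f hf
    obtain ⟨S, hS⟩ := hfin f
    have h1 : ∀ s, ∃ e, _root_.SQ.cobd (lmul ρ) (R.d i) e = fun b => φ s (f b) := by
      intro s
      refine he _ ?_
      funext a
      rw [← cobd_map ι ρ σ h (φ s) (hφ s), hf]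
      exact map_zero _
    choose e he' using h1
    refine ⟨fun k => ∑ s ∈ S, ψ s (e s k), ?_⟩
    funext a
    rw [cobd_sum]
    rw [← hS a]
    refine Finset.sum_congr rfl fun s _ => ?_
    rw [cobd_emb ι ρ σ h (ψ s) (hψ s), he' s]

end sub

/-! ### the vanishing outside of the middle -/

/-- the vanishing of the cohomology with coefficients in `D` outside of the middle -/
theorem vanish_of_exH {K : Type} [Group K] (hinv : ∀ h : K, h * h = 1 → h = 1) {D : Type} [DivisionRing D]
    [Algebra (ZMod 2) D] [StarRing D] (ρ : K →* Dˣ) (hst : ∀ g, star ((ρ g : Dˣ) : D) = ((ρ g⁻¹ : Dˣ) : D)) {n : ℕ}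
    (hn : IsPD n K) (R : FinRes K) (h1 : ∀ j, ExH (diag ρ) R (j + 1)) (i : ℕ) (hi : 2 * i ≠ n) : Ex (lmul ρ) R i := by
  have h2 : ∀ j, j < n → Ex (diag ρ) R j := by
    intro j hj
    refine (pd (τ := diag ρ) n hn R).1 j hj.le ?_
    obtain ⟨k, hk⟩ : ∃ k, n - j = k + 1 := ⟨n - j - 1, by omega⟩
    rw [hk]
    exact h1 k
  have h3 : ∀ m, 2 * m < n → Ex (lmul ρ) R m := fun m hm =>
    lem K hinv R _ (lmul ρ) m fun j hj => h2 j (by omega)
  rcases lt_or_gt_of_ne hi with h | h
  · exact h3 i h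
  · by_cases hin : i ≤ n
    · exact (pd (τ := lmul ρ) n hn R).1 i hin
        ((dua K R D ρ hst (n - i)).1 (h3 (n - i) (by omega)))
    · exact (pd (τ := lmul ρ) n hn R).2 i (by omega)

/-- a group with a chain has no involutions -/
theorem Chain.noInv {K : Type} [Group K] (C : Chain K) (g : K) (hg : g * g = 1) : g = 1 := by
  refine C.inf g fun j => ?_
  induction j with
  | zero =>
    rw [C.zero]
    exact Subgroup.mem_top g
  | succ j ih =>
    refine (C.succ j g).2 ⟨ih, ?_⟩
    have h1 : C.chi j ⟨g, ih⟩ * C.chi j ⟨g, ih⟩ = 1 := by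
      rw [← map_mul]
      have h3 : (⟨g, ih⟩ : C.N j) * ⟨g, ih⟩ = 1 := Subtype.ext hg
      rw [h3, map_one]
    rw [← pow_two] at h1
    exact (pow_eq_one_iff_left two_ne_zero).1 h1

/-- **X4c** the skew field with its levels, generated by the group, in the ultraproduct of an approximation -/
def StmtFld : Prop :=
  ∀ (K : Type) [Group K] (C : Chain K), (∀ j, ∃ _ : (C.N j).Normal, PolyGrowth (K ⧸ C.N j)) →
    ∃ (A : T2.Apx K) (E : Type) (_ : DivisionRing E) (_ : Algebra (ZMod 2) E) (_ : StarRing E) (ρ : K →* Eˣ)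
      (ι : E →+* T2.UDS A.seq), (∀ g, ι ((ρ g : Eˣ) : E) = ((hom A.seq.u g : (T2.UDS A.seq)ˣ) : T2.UDS A.seq)) ∧
      (∀ g, star ((ρ g : Eˣ) : E) = ((ρ g⁻¹ : Eˣ) : E)) ∧ cl ρ (C.N 0) = ⊤ ∧ ∀ j, Nonempty (Level K E ρ (C.N j))

/-- from the cohomology of the ultraproduct of an approximation to the `ℓ²`-homology -/
theorem vanE_of_apx {K : Type} [Group K] (A : T2.Apx K) (R : FinRes K) (i : ℕ)
    (h5 : Ex (lmul (hom A.seq.u : K →* (T2.UDS A.seq)ˣ)) R i) : R.VanE i := by
  classical
  have h6 : CoV R (fun x => lm (((hom A.seq.u : K →* (UDS A.seq)ˣ) x : (UDS A.seq)ˣ) : UDS A.seq)) i :=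
    FinSt.coV_of_ex _ R i h5
  refine van_of_bound (D := (UDS A.seq)ᵐᵒᵖ) (M := UDS A.seq) R _ ?_ i h6
  intro κ ι J _ _ _ _ c s W hW
  rw [finrank_op, Nat.cast_one, mul_one]
  refine vdim_le_of_datum c s W hW _ fun S => ?_
  have h7 := finrank_solF_le A.seq c s
  have h8 : ∀ᶠ n in (U0 : Filter ℕ), ∀ g ∈ S, g ≠ 1 → A.p n g ≠ 1 := by
    rw [Filter.eventually_all_finset]
    intro g _
    by_cases hg : g = 1
    · exact Eventually.of_forall fun _ h9 => absurd hg h9
    · have h10 := A.sep g hg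
      rw [← Nat.cofinite_eq_atTop] at h10
      filter_upwards [Filter.hyperfilter_le_cofinite h10] with n hn _
      exact hn
  obtain ⟨m, hm1, hm2⟩ := (h7.and h8).exists
  exact ⟨{ Q := A.G m
           π := A.p m
           sep := hm2
           growth := A.growth m
           D := (A.O m).D
           u := (A.O m).u
           li := li_of A m }, hm1⟩

/-- **the vanishing theorem for residually torsion-free nilpotent groups**, from the rows -/
theorem vanE_of_stmts (hC : StmtChain) (hF : StmtFld) (hS : StmtSteps) (hI : StmtInd) (hG : StmtGood) (hT : StmtTor)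
    {K : Type} [Group K] (hK : T2.ResUT K ⊥) {n : ℕ} (hn : IsPD n K) (R : FinRes K) (i : ℕ) (hi : 2 * i ≠ n) :
    R.VanE i := by
  have hc : Countable K := countable_of_finRes R
  obtain ⟨C, hgr⟩ := hC K hK
  obtain ⟨A, E, _, _, _, ρ, ι, hι, hst, htop, hlev⟩ := hF K C hgr
  obtain ⟨S⟩ := hS K C E ρ hlev
  have hli := hI K C E ρ hlev
  have h1 : ∀ j, ExH (diag ρ) R (j + 1) := hT K C E ρ hst htop hli S (hG K C E ρ S) R
  exact vanE_of_apx A R i (ex_of_sub ι ρ _ hι R i (vanish_of_exH C.noInv ρ hst hn R h1 i hi))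

/-! ### the class of groups -/

/-- the groups of class `T` are residually unitriangular -/
theorem resUT_of_classT {K : Type} [Group K] (hK : T2.ClassT K) : T2.ResUT K ⊥ := by
  obtain ⟨h, N, hN0, hNh, -, -, hres, -⟩ := hK
  rcases Nat.eq_zero_or_pos h with h0 | h0
  · intro g hg
    refine absurd ?_ hg
    rw [← hN0, ← h0, hNh]
    exact Subgroup.mem_top g
  · rw [← hN0]
    exact hres 0 h0

/-- subgroups of residually unitriangular groups -/
theorem resUT_of_injective {K H : Type} [Group K] [Group H] (hH : T2.ResUT H ⊥) (f : K →* H) (hf : Function.Injective f) :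
    T2.ResUT K ⊥ := by
  intro g hg
  have h1 : f g ∉ (⊥ : Subgroup H) := by
    rw [Subgroup.mem_bot]
    intro h2
    exact hg (Subgroup.mem_bot.2 (hf (h2.trans (map_one f).symm)))
  obtain ⟨m, π, h2, h3, -, h5⟩ := hH (f g) h1
  exact ⟨m, π.comp f, fun k => h2 (f k), fun k => h3 (f k), fun k hk => by
    rw [Subgroup.mem_bot.1 hk, map_one], h5⟩

/-- the vanishing for the groups with a subgroup of finite index which is residually unitriangular, from the rows -/
theorem vanE_virtual_of_stmts (hC : StmtChain) (hF : StmtFld) (hS : StmtSteps) (hI : StmtInd) (hG : StmtGood)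
    (hT : StmtTor) {Γ : Type} [Group Γ] (H : Subgroup Γ) [hH : H.FiniteIndex] (hres : T2.ResUT H ⊥) {n : ℕ}
    (hPD : IsPD n Γ ∨ IsPD n H) (R : FinRes Γ) (i : ℕ) (hi : 2 * i ≠ n) : R.VanE i :=
  FinRes.vanE_of_index H (fun R' => vanE_of_stmts hC hF hS hI hG hT hres (hPD.elim (fun h => h.of_finiteIndex H) id) R'
    i hi) R

end SQ.T3
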