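import Pool.Agent.SQ.Div
import Pool.Agent.SQ.T3.OreP

/-!
# SQ, third stage: independence of cosets in the Ore field of fractions
-/

set_option autoImplicit false

noncomputable section

namespace SQ.T3

open OreLocalization nonZeroDivisors SQ.Ore

/-- `SQ.s_div` together with the embedding of the group ring -/
theorem s_div3 (G : Type) [Group G] (hdom : NoZeroDivisors (MonoidAlgebra (ZMod 2) G)) (hore : OreG G) :
    ∃ (O : OreDiv G) (f : MonoidAlgebra (ZMod 2) G →+* O.D), IsFrac f ∧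
      ∀ g, f (MonoidAlgebra.of (ZMod 2) G g) = ((O.u g : O.Dˣ) : O.D) := by
  have ore : ∀ a s : MonoidAlgebra (ZMod 2) G, s ≠ 0 →
      ∃ a' s' : MonoidAlgebra (ZMod 2) G, s' ≠ 0 ∧ s' * a = a' * s := by
    intro a s hs
    obtain ⟨r, q, _, _, hr, h⟩ := hore ⊤ a s (fun _ _ => Subgroup.mem_top _)
      (fun _ _ => Subgroup.mem_top _) hs
    exact ⟨q, r, hr, h⟩
  letI : OreSet (nonZeroDivisors (MonoidAlgebra (ZMod 2) G)) := oreSet _ ore
  letI := starRing (R := MonoidAlgebra (ZMod 2) G) inv' inv'_injective inv'_inv'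
  have hfrac := isFrac_loc (MonoidAlgebra (ZMod 2) G)
  refine ⟨{
    D := (MonoidAlgebra (ZMod 2) G)[(MonoidAlgebra (ZMod 2) G)⁰⁻¹]
    u := ((numeratorRingHom : MonoidAlgebra (ZMod 2) G →+*
      (MonoidAlgebra (ZMod 2) G)[(MonoidAlgebra (ZMod 2) G)⁰⁻¹]).toMonoidHom.comp
        (MonoidAlgebra.of (ZMod 2) G)).toHomUnits
    star_u := ?_
    val := ?_ }, (numeratorRingHom : MonoidAlgebra (ZMod 2) G →+*
      (MonoidAlgebra (ZMod 2) G)[(MonoidAlgebra (ZMod 2) G)⁰⁻¹]), hfrac, fun g => rfl⟩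
  · intro g
    change (starHom inv' inv'_injective (numeratorRingHom (MonoidAlgebra.of (ZMod 2) G g))).unop
      = numeratorRingHom (MonoidAlgebra.of (ZMod 2) G g⁻¹)
    rw [starHom_num, inv'_of, MulOpposite.unop_op]
  · intro L _ _ hl hr π
    haveI : MulLeftMono L := ⟨fun d a b h => hl a b d h⟩
    haveI : MulRightMono L := ⟨fun d a b h => hr a b d h⟩
    have hv : IsVal (lead π : MonoidAlgebra (ZMod 2) G → L) := lead_isVal π
    have hinner : ∀ a ∈ subRing (ZMod 2) π.ker, ∀ s ∈ subRing (ZMod 2) π.ker, s ≠ 0 →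
        ∃ a' ∈ subRing (ZMod 2) π.ker, ∃ s' ∈ subRing (ZMod 2) π.ker, s' ≠ 0 ∧ s' * a = a' * s := by
      intro a ha s hs hs0
      obtain ⟨r, q, hr', hq, hr0, h⟩ := hore π.ker a s ((suppIn_iff _ _).2 ha) ((suppIn_iff _ _).2 hs) hs0
      exact ⟨q, (suppIn_iff _ _).1 hq, r, (suppIn_iff _ _).1 hr', hr0, h⟩
    have hvE := ext_isVal hfrac hv
    refine ⟨ext hfrac (lead π), fracSub hfrac (subRing (ZMod 2) π.ker) hinner, hvE.add, ?_, ?_, ?_⟩
    · intro g x hx
      rw [hvE.mul _ _ (Units.ne_zero _) hx]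
      congr 1
      have h0 : MonoidAlgebra.of (ZMod 2) G g ≠ 0 := by
        intro h0
        have := congrArg (fun x => x.coeff g) h0
        simp [MonoidAlgebra.of] at this
      change ext hfrac (lead π) (numeratorRingHom (MonoidAlgebra.of (ZMod 2) G g)) = π g
      rw [ext_num hfrac hv h0, lead_of]
    · intro g hg
      apply closure_le_fracSub hfrac (subRing (ZMod 2) π.ker) hinner
      apply Subfield.subset_closure
      exact ⟨MonoidAlgebra.of (ZMod 2) G g, of_mem_subRing _ hg, rfl⟩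
    · intro c hc hc0 x hx
      rw [hvE.mul _ _ hc0 hx, ext_sub hfrac hv _ hinner ?_ hc hc0, one_mul]
      intro r hr' hr0
      exact lead_subRing π π.ker le_rfl hr' hr0

section
variable {G : Type} [Group G] {D : Type} [DivisionRing D] {f : MonoidAlgebra (ZMod 2) G →+* D}

/-- common denominators -/
theorem exists_common (hfrac : IsFrac f) (hore : OreG G) (H : Subgroup G) {ι : Type} (T : Finset ι) (x : ι → D)
    (hx : ∀ i ∈ T, x i ∈ Subfield.closure ((fun g : G => f (MonoidAlgebra.of (ZMod 2) G g)) '' (H : Set G))) :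
    ∃ (s : MonoidAlgebra (ZMod 2) G) (a : ι → MonoidAlgebra (ZMod 2) G), s ≠ 0 ∧ SuppIn H s ∧
      ∀ i ∈ T, SuppIn H (a i) ∧ f s * x i = f (a i) := by
  classical
  have hinner : ∀ a ∈ subRing (ZMod 2) H, ∀ s ∈ subRing (ZMod 2) H, s ≠ 0 →
      ∃ a' ∈ subRing (ZMod 2) H, ∃ s' ∈ subRing (ZMod 2) H, s' ≠ 0 ∧ s' * a = a' * s := by
    intro a ha s hs hs0
    obtain ⟨r, q, hr', hq, hr0, h⟩ := hore H a s ((suppIn_iff _ _).2 ha) ((suppIn_iff _ _).2 hs) hs0
    exact ⟨q, (suppIn_iff _ _).1 hq, r, (suppIn_iff _ _).1 hr', hr0, h⟩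
  have hle : Subfield.closure ((fun g : G => f (MonoidAlgebra.of (ZMod 2) G g)) '' (H : Set G)) ≤
      fracSub hfrac (subRing (ZMod 2) H) hinner := by
    refine le_trans (Subfield.closure_mono ?_) (closure_le_fracSub hfrac (subRing (ZMod 2) H) hinner)
    rintro _ ⟨g, hg, rfl⟩
    exact ⟨_, of_mem_subRing H hg, rfl⟩
  induction T using Finset.induction_on with
  | empty =>
    refine ⟨1, fun _ => 0, ?_, (suppIn_iff _ _).2 (subRing (ZMod 2) H).one_mem, fun i hi => absurd hi (Finset.notMem_empty i)⟩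
    intro h0
    have := congrArg f h0
    rw [map_one, map_zero] at this
    exact one_ne_zero this
  | insert j T hj ih =>
    obtain ⟨s, a, hs0, hs, ha⟩ := ih fun i hi => hx i (Finset.mem_insert_of_mem hi)
    obtain ⟨t, ht, b, hb, ht0, hxj⟩ := hle (hx j (Finset.mem_insert_self j T))
    -- a common multiple of the denominators
    obtain ⟨t', ht', s', hs', hs0', hst⟩ := hinner s ((suppIn_iff _ _).1 hs) t ht ht0
    have ht0' : t' ≠ 0 := by
      rintro rfl
      rw [zero_mul] at hst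
      exact hfrac.mul_ne hs0' hs0 hst
    refine ⟨s' * s, fun i => if i = j then t' * b else s' * a i, hfrac.mul_ne hs0' hs0,
      (suppIn_iff _ _).2 ((subRing (ZMod 2) H).mul_mem hs' ((suppIn_iff _ _).1 hs)), fun i hi => ?_⟩
    by_cases hij : i = j
    · subst hij
      simp only [if_true]
      refine ⟨(suppIn_iff _ _).2 ((subRing (ZMod 2) H).mul_mem ht' hb), ?_⟩
      rw [hst, hxj, map_mul, map_mul, mul_assoc, mul_inv_cancel_left₀ (hfrac.ne ht0)]
    · simp only [if_neg hij]
      have hiT : i ∈ T := (Finset.mem_insert.1 hi).resolve_left hij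
      refine ⟨(suppIn_iff _ _).2 ((subRing (ZMod 2) H).mul_mem hs' ((suppIn_iff _ _).1 (ha i hiT).1)), ?_⟩
      rw [map_mul, map_mul, mul_assoc, (ha i hiT).2]

/-- **independence of cosets** -/
theorem coset_ind (hfrac : IsFrac f) (hore : OreG G) (H : Subgroup G) {ι : Type} (T : Finset ι) (g : ι → G)
    (hg : ∀ i ∈ T, ∀ j ∈ T, i ≠ j → g i * (g j)⁻¹ ∉ H) (x : ι → D)
    (hx : ∀ i ∈ T, x i ∈ Subfield.closure ((fun g : G => f (MonoidAlgebra.of (ZMod 2) G g)) '' (H : Set G)))
    (h0 : ∑ i ∈ T, x i * f (MonoidAlgebra.of (ZMod 2) G (g i)) = 0) : ∀ i ∈ T, x i = 0 := by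
  classical
  obtain ⟨s, a, hs0, hs, ha⟩ := exists_common hfrac hore H T x hx
  have h1 : ∑ i ∈ T, a i * MonoidAlgebra.of (ZMod 2) G (g i) = 0 := by
    apply hfrac.inj
    rw [map_sum, map_zero]
    have h2 := congrArg (fun y => f s * y) h0
    simp only [mul_zero, Finset.mul_sum] at h2
    rw [← h2]
    refine Finset.sum_congr rfl fun i hi => ?_
    rw [map_mul, ← (ha i hi).2, mul_assoc]
  intro i hi
  have h3 : a i = 0 := by
    ext h
    by_cases hh : h ∈ H
    · have h4 := congrArg (fun y => y.coeff (h * g i)) h1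
      simp only [MonoidAlgebra.coeff_sum, Finsupp.finsetSum_apply, MonoidAlgebra.coeff_zero, Finsupp.zero_apply] at h4
      have h5 : ∀ j, (a j * MonoidAlgebra.of (ZMod 2) G (g j)).coeff (h * g i) = (a j).coeff (h * g i * (g j)⁻¹) := by
        intro j
        rw [MonoidAlgebra.of_apply, MonoidAlgebra.coeff_mul_single_eq_coeff_mul (h * g i * (g j)⁻¹) fun m _ =>
          eq_mul_inv_iff_mul_eq.symm, mul_one]
      rw [Finset.sum_eq_single i] at h4
      · rw [h5, mul_inv_cancel_right] at h4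
        exact h4
      · intro j hj hji
        rw [h5]
        by_contra hne
        have h6 := (ha j hj).1 _ hne
        rw [mul_assoc] at h6
        exact hg i hi j hj (Ne.symm hji) ((Subgroup.mul_mem_cancel_left H hh).1 h6)
      · intro h'
        exact absurd hi h'
    · have h5 := (ha i hi).1 h
      by_contra hne
      exact hh (h5 hne)
  have h6 := (ha i hi).2
  rw [h3, map_zero] at h6
  exact (mul_eq_zero.1 h6).resolve_left (hfrac.ne hs0)

end

end SQ.T3
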