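import Pool.Agent.SQ.T3.Defs
import Pool.Agent.SQ.Order

/-!
# SQ, third stage: the quotients of a chain are bi-ordered (row X4b)
-/

set_option autoImplicit false

namespace SQ.T3

variable {K : Type} [Group K] (C : Chain K)

namespace Chain

theorem succN_le (i : ℕ) : C.N (i + 1) ≤ C.N i := fun _ hg => ((C.succ i _).1 hg).1

theorem antiN {i j : ℕ} (h : i ≤ j) : C.N j ≤ C.N i := by
  induction h with
  | refl => exact le_rfl
  | step _ ih => exact (C.succN_le _).trans ih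

theorem chi_eq_one {i : ℕ} {g : K} (h : g ∈ C.N i) (h' : g ∈ C.N (i + 1)) : C.chi i ⟨g, h⟩ = 1 := by
  obtain ⟨_, h1⟩ := (C.succ i g).1 h'
  exact h1

/-- positive elements -/
def Pos (j : ℕ) (g : K) : Prop := ∃ i, i < j ∧ ∃ h : g ∈ C.N i, 0 < Multiplicative.toAdd (C.chi i ⟨g, h⟩)

theorem pos_mul {j : ℕ} {g g' : K} (h : C.Pos j g) (h' : C.Pos j g') : C.Pos j (g * g') := by
  obtain ⟨i, hi, h1, h2⟩ := h
  obtain ⟨i', hi', h1', h2'⟩ := h'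
  rcases lt_trichotomy i i' with hii | rfl | hii
  · have h3 : g' ∈ C.N (i + 1) := C.antiN (Nat.succ_le_of_lt hii) h1'
    have h4 : g' ∈ C.N i := C.succN_le i h3
    refine ⟨i, hi, (C.N i).mul_mem h1 h4, ?_⟩
    have h5 : (⟨g * g', (C.N i).mul_mem h1 h4⟩ : C.N i) = ⟨g, h1⟩ * ⟨g', h4⟩ := rfl
    rw [h5, map_mul, C.chi_eq_one h4 h3, mul_one]
    exact h2
  · refine ⟨i, hi, (C.N i).mul_mem h1 h1', ?_⟩
    have h5 : (⟨g * g', (C.N i).mul_mem h1 h1'⟩ : C.N i) = ⟨g, h1⟩ * ⟨g', h1'⟩ := rfl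
    rw [h5, map_mul, toAdd_mul]
    exact add_pos h2 h2'
  · have h3 : g ∈ C.N (i' + 1) := C.antiN (Nat.succ_le_of_lt hii) h1
    have h4 : g ∈ C.N i' := C.succN_le i' h3
    refine ⟨i', hi', (C.N i').mul_mem h4 h1', ?_⟩
    have h5 : (⟨g * g', (C.N i').mul_mem h4 h1'⟩ : C.N i') = ⟨g, h4⟩ * ⟨g', h1'⟩ := rfl
    rw [h5, map_mul, C.chi_eq_one h4 h3, one_mul]
    exact h2'

theorem not_pos {j : ℕ} {g : K} (h : g ∈ C.N j) : ¬ C.Pos j g := by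
  rintro ⟨i, hi, h1, h2⟩
  rw [C.chi_eq_one h1 (C.antiN (Nat.succ_le_of_lt hi) h), toAdd_one] at h2
  exact lt_irrefl _ h2

theorem pos_conj {j : ℕ} {g : K} (h : C.Pos j g) (k : K) : C.Pos j (k * g * k⁻¹) := by
  obtain ⟨i, hi, h1, h2⟩ := h
  refine ⟨i, hi, (C.normal i).conj_mem g h1 k, ?_⟩
  rw [C.conj i k g h1]
  exact h2

theorem pos_total {j : ℕ} {g : K} (h : g ∉ C.N j) : C.Pos j g ∨ C.Pos j g⁻¹ := by
  classical
  have hex : ∃ i, g ∉ C.N (i + 1) := by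
    cases j with
    | zero =>
      rw [C.zero] at h
      exact absurd (Subgroup.mem_top g) h
    | succ j => exact ⟨j, h⟩
  have h1 : g ∉ C.N (Nat.find hex + 1) := Nat.find_spec hex
  have h2 : g ∈ C.N (Nat.find hex) := by
    rcases Nat.eq_zero_or_pos (Nat.find hex) with h3 | h3
    · rw [h3, C.zero]
      exact Subgroup.mem_top g
    · obtain ⟨m, hm⟩ := Nat.exists_eq_succ_of_ne_zero h3.ne'
      have h4 := Nat.find_min hex (show m < Nat.find hex by omega)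
      rw [not_not] at h4
      rw [hm]
      exact h4
  have h3 : Nat.find hex < j := by
    by_contra h4
    exact h (C.antiN (not_lt.1 h4) h2)
  have h4 : C.chi (Nat.find hex) ⟨g, h2⟩ ≠ 1 := fun h5 => h1 ((C.succ _ g).2 ⟨h2, h5⟩)
  have h5 : Multiplicative.toAdd (C.chi (Nat.find hex) ⟨g, h2⟩) ≠ 0 := fun h6 => h4 (toAdd_eq_zero.1 h6)
  rcases lt_or_gt_of_ne h5 with h6 | h6
  · refine Or.inr ⟨Nat.find hex, h3, (C.N _).inv_mem h2, ?_⟩
    have h7 : (⟨g⁻¹, (C.N _).inv_mem h2⟩ : C.N (Nat.find hex)) = ⟨g, h2⟩⁻¹ := rfl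
    rw [h7, map_inv, toAdd_inv]
    exact neg_pos.2 h6
  · exact Or.inl ⟨Nat.find hex, h3, h2, h6⟩

end Chain

/-- **X4b** -/
theorem stmtOrd : StmtOrd := by
  intro K _ C j _
  refine Ord.order_of_cone (fun x : K ⧸ C.N j => ∃ g : K, (g : K ⧸ C.N j) = x ∧ C.Pos j g) ?_ ?_ ?_ ?_
  · rintro _ _ ⟨g, rfl, hg⟩ ⟨g', rfl, hg'⟩
    exact ⟨g * g', rfl, C.pos_mul hg hg'⟩
  · rintro ⟨g, h1, hg⟩
    exact C.not_pos ((QuotientGroup.eq_one_iff g).1 h1) hg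
  · intro a ha
    obtain ⟨g, rfl⟩ := QuotientGroup.mk_surjective a
    rcases C.pos_total (j := j) (g := g) fun h => ha ((QuotientGroup.eq_one_iff g).2 h) with h | h
    · exact Or.inl ⟨g, rfl, h⟩
    · exact Or.inr ⟨g⁻¹, rfl, h⟩
  · rintro _ b ⟨g, rfl, hg⟩
    obtain ⟨k, rfl⟩ := QuotientGroup.mk_surjective b
    exact ⟨k * g * k⁻¹, rfl, C.pos_conj hg k⟩

end SQ.T3
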