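import Pool.Agent.SQ.T3.Coord
import Pool.Agent.SQ.T3.Ordr
import Pool.Agent.SQ.T2.Div2
import Pool.Agent.SQ.T2.Ultra2
import Pool.Agent.SQ.OreCond

/-!
# SQ, third stage: the skew field of a residually unitriangular group (row X4c)
-/

set_option autoImplicit false

noncomputable section

namespace SQ.T3

open Filter SQ.Ultra

section apx
variable (K : Type) [Group K]

theorem exists_apx [Countable K] (hK : T2.ResUT K ⊥) :
    ∃ (A : T2.Apx K) (C : Chain K), ∀ j, Nonempty (Level K (T2.UDS A.seq) (hom A.seq.u) (C.N j)) := by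
  classical
  obtain ⟨C, hC⟩ := stmtChain K hK
  have hn : ∀ c, (C.N c).Normal := C.normal
  have hgr : ∀ c, PolyGrowth (K ⧸ C.N c) := fun c => (hC c).choose_spec
  choose lo hl using fun c => stmtOrd K C c
  have hdom : ∀ c, NoZeroDivisors (MonoidAlgebra (ZMod 2) (K ⧸ C.N c)) := by
    intro c
    let _ := lo c
    have : MulLeftMono (K ⧸ C.N c) := ⟨fun d a b h => (hl c).1 a b d h⟩
    have : MulRightMono (K ⧸ C.N c) := ⟨fun d a b h => (hl c).2 a b d h⟩
    have : UniqueProds (K ⧸ C.N c) := inferInstance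
    infer_instance
  choose O f hf1 hf2 using fun c => T2.s_div2 (K ⧸ C.N c) (hdom c) (s_ore _ (hgr c) (hdom c))
  let X : T2.Apx K :=
    { G := fun c => K ⧸ C.N c
      growth := hgr
      O := O
      f := f
      f_inj := hf1
      f_of := hf2
      p := fun c => QuotientGroup.mk' (C.N c)
      sep := by
        intro g hg
        obtain ⟨j, hj⟩ : ∃ j, g ∉ C.N j := by
          by_contra h
          push Not at h
          exact hg (C.inf g h)
        filter_upwards [eventually_ge_atTop j] with c hc h1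
        exact hj (C.antiN hc ((QuotientGroup.eq_one_iff g).1 h1)) }
  refine ⟨X, C, fun j => T2.level_UD X.seq (C.N j) ?_⟩
  let π : ∀ c, (K ⧸ C.N c) →* (K ⧸ C.N (min j c)) := fun c =>
    QuotientGroup.map (C.N c) (C.N (min j c)) (MonoidHom.id K) (C.antiN (min_le_right j c))
  have hval := fun c => @OreDiv.val _ _ (O c) (K ⧸ C.N (min j c)) _ (lo (min j c)) (hl (min j c)).1 (hl (min j c)).2 (π c)
  choose v F h1 h2 h3 h4 using hval
  exact {
      L := fun c => K ⧸ C.N (min j c)
      lo := fun c => lo (min j c)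
      mono := fun c => (hl (min j c)).1
      π := fun c => QuotientGroup.mk' (C.N (min j c))
      v := v
      F := F
      v_add := h1
      v_act := fun c g x hx => h2 c (QuotientGroup.mk' (C.N c) g) x hx
      mem_F := fun c g hg => h3 c (QuotientGroup.mk' (C.N c) g) hg
      v_F := h4
      ker := fun g hg c => (QuotientGroup.eq_one_iff g).2 (C.antiN (min_le_left j c) hg)
      sep := fun g hg => by
        filter_upwards [eventually_ge_atTop j] with c hc h5
        have h6 : g ∈ C.N (min j c) := (QuotientGroup.eq_one_iff g).1 h5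
        rw [min_eq_left hc] at h6
        exact hg h6 }

end apx

/-! ### the skew subfield generated by the group -/

section sub
variable {K : Type} [Group K] {E : Type} [DivisionRing E] (ρ : K →* Eˣ)

theorem mem_cl {N : Subgroup K} {g : K} (hg : g ∈ N) : ((ρ g : Eˣ) : E) ∈ cl ρ N :=
  Subfield.subset_closure ⟨g, hg, rfl⟩

/-- the skew field generated by the group -/
def SF : Type := cl ρ (⊤ : Subgroup K)

instance divSF : DivisionRing (SF ρ) := inferInstanceAs (DivisionRing (cl ρ (⊤ : Subgroup K)))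

/-- the inclusion -/
def val : SF ρ →+* E := (cl ρ (⊤ : Subgroup K)).subtype

theorem val_inj {x y : SF ρ} (h : val ρ x = val ρ y) : x = y := Subtype.ext h

theorem val_mem (x : SF ρ) : val ρ x ∈ cl ρ (⊤ : Subgroup K) := x.2

/-- an element of the skew field generated by the group -/
def toSF (x : E) (h : x ∈ cl ρ (⊤ : Subgroup K)) : SF ρ := ⟨x, h⟩

theorem val_toSF (x : E) (h : x ∈ cl ρ (⊤ : Subgroup K)) : val ρ (toSF ρ x h) = x := rfl

theorem val_ne {x : SF ρ} (h : x ≠ 0) : val ρ x ≠ 0 := fun h1 => h (val_inj ρ (h1.trans (map_zero _).symm))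

/-- the homomorphism to the skew field generated by the group -/
def sρ : K →* (SF ρ)ˣ :=
  MonoidHom.toHomUnits
    { toFun := fun g => toSF ρ ((ρ g : Eˣ) : E) (mem_cl ρ (Subgroup.mem_top g))
      map_one' := val_inj ρ (by
        rw [val_toSF, map_one, map_one, Units.val_one])
      map_mul' := fun a b => val_inj ρ (by
        rw [(val ρ).map_mul, val_toSF, val_toSF, val_toSF, map_mul, Units.val_mul]) }

theorem val_sρ (g : K) : val ρ ((sρ ρ g : (SF ρ)ˣ) : SF ρ) = ((ρ g : Eˣ) : E) := rfl

theorem map_cl (N : Subgroup K) : (cl (sρ ρ) N).map (val ρ) = cl ρ N := by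
  refine (RingHom.map_field_closure _ _).trans ?_
  refine congrArg Subfield.closure ?_
  ext x
  simp only [Set.mem_image, SetLike.mem_coe]
  constructor
  · rintro ⟨_, ⟨g, hg, rfl⟩, rfl⟩
    exact ⟨g, hg, rfl⟩
  · rintro ⟨g, hg, rfl⟩
    exact ⟨_, ⟨g, hg, rfl⟩, rfl⟩

theorem cl_top : cl (sρ ρ) (⊤ : Subgroup K) = ⊤ := by
  rw [eq_top_iff]
  intro x _
  have h : val ρ x ∈ (cl (sρ ρ) (⊤ : Subgroup K)).map (val ρ) := by
    rw [map_cl]
    exact val_mem ρ x
  obtain ⟨y, hy, hyx⟩ := h
  have h2 : y = x := val_inj ρ hyx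
  rwa [← h2]

/-- the levels of the skew field generated by the group -/
theorem level_sub (N : Subgroup K) (h : Nonempty (Level K E ρ N)) : Nonempty (Level K (SF ρ) (sρ ρ) N) := by
  obtain ⟨T⟩ := h
  refine ⟨{ Om := T.Om, mono := T.mono, free := T.free, v := fun x => T.v (val ρ x), v_add := ?_, v_act := ?_, v_sub := ?_ }⟩
  · intro x y hx hy hxy
    rw [map_add]
    exact T.v_add _ _ (val_ne ρ hx) (val_ne ρ hy) (by rw [← map_add]; exact val_ne ρ hxy)
  · intro g x hx
    rw [map_mul, val_sρ]
    exact T.v_act g _ (val_ne ρ hx)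
  · intro c hc hc0 x hx
    rw [map_mul]
    refine T.v_sub _ ?_ (val_ne ρ hc0) _ (val_ne ρ hx)
    have h1 : val ρ c ∈ (cl (sρ ρ) N).map (val ρ) := ⟨c, hc, rfl⟩
    rw [map_cl] at h1
    exact h1

instance algSF [Algebra (ZMod 2) E] : Algebra (ZMod 2) (SF ρ) :=
  RingHom.toAlgebra' ((algebraMap (ZMod 2) E).codRestrict (cl ρ (⊤ : Subgroup K)) fun r => by
    obtain ⟨n, rfl⟩ := ZMod.natCast_zmod_surjective r
    rw [map_natCast]
    exact natCast_mem _ n : ZMod 2 →+* SF ρ) fun r x => val_inj ρ (by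
      rw [map_mul, map_mul]
      exact Algebra.commutes r (val ρ x))

variable [StarRing E] (hs : ∀ g, star ((ρ g : Eˣ) : E) = ((ρ g⁻¹ : Eˣ) : E))

include hs in
theorem star_mem (x : E) (hx : x ∈ cl ρ (⊤ : Subgroup K)) : star x ∈ cl ρ (⊤ : Subgroup K) := by
  induction hx using Subfield.closure_induction with
  | mem x hx =>
    obtain ⟨g, _, rfl⟩ := hx
    rw [hs]
    exact mem_cl ρ (Subgroup.mem_top _)
  | one =>
    rw [star_one]
    exact one_mem _
  | add x y _ _ h1 h2 =>
    rw [star_add]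
    exact add_mem h1 h2
  | neg x _ h1 =>
    rw [star_neg]
    exact neg_mem h1
  | inv x _ h1 =>
    rw [star_inv₀]
    exact inv_mem h1
  | mul x y _ _ h1 h2 =>
    rw [star_mul]
    exact mul_mem h2 h1

/-- the involution -/
@[instance_reducible]
def starSF : StarRing (SF ρ) where
  star x := toSF ρ (star (val ρ x)) (star_mem ρ hs _ (val_mem ρ x))
  star_involutive x := val_inj ρ (by
    rw [val_toSF, val_toSF, star_star])
  star_mul x y := val_inj ρ (by
    rw [val_toSF, map_mul, map_mul, val_toSF, val_toSF, star_mul])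
  star_add x y := val_inj ρ (by
    rw [val_toSF, map_add, map_add, val_toSF, val_toSF, star_add])

theorem star_sρ (g : K) : (starSF ρ hs).star ((sρ ρ g : (SF ρ)ˣ) : SF ρ) = ((sρ ρ g⁻¹ : (SF ρ)ˣ) : SF ρ) :=
  val_inj ρ (hs g)

end sub

end SQ.T3
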