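import Pool.Agent.SQ.T3.StepB
import Mathlib.RingTheory.LaurentSeries

/-!
# SQ, third stage, row X1: the expansion of the elements of the field of fractions of `F[t, t⁻¹]`

`stmtStep : StmtStep`. The skew Laurent series are realised inside the ring of Laurent series with coefficients in `E` and a
central variable `z`, by `f t ^ n ↦ f t ^ n z ^ n`.
-/

set_option autoImplicit false

namespace SQ.T3
namespace StepX

variable {E : Type} [DivisionRing E] {F : Subfield E} {t : Eˣ}

/-- the Laurent series -/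
abbrev LS (E : Type) [DivisionRing E] : Type := HahnSeries ℤ E

theorem LS.isUnit {y : LS E} (hy : y ≠ 0) : IsUnit y := by
  rw [← LaurentSeries.single_order_mul_powerSeriesPart y]
  refine IsUnit.mul ?_ ?_
  · refine ⟨⟨HahnSeries.single y.order 1, HahnSeries.single (-y.order) 1, ?_, ?_⟩, rfl⟩
    · rw [HahnSeries.single_mul_single, mul_one, add_neg_cancel]
      rfl
    · rw [HahnSeries.single_mul_single, mul_one, neg_add_cancel]
      rfl
  · refine IsUnit.map (HahnSeries.ofPowerSeries ℤ E) ?_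
    rw [PowerSeries.isUnit_iff_constantCoeff, ← PowerSeries.coeff_zero_eq_constantCoeff_apply,
      LaurentSeries.powerSeriesPart_coeff]
    simpa using hy

theorem LS.coeff_mul_finsum (x y : LS E) (n : ℤ) : (x * y).coeff n = ∑ᶠ i : ℤ, x.coeff i * y.coeff (n - i) := by
  rw [HahnSeries.coeff_mul]
  set S := Finset.antidiagonal x.isPWO_support y.isPWO_support n with hS
  have hinj : Set.InjOn (fun ij : ℤ × ℤ => ij.1) (S : Set (ℤ × ℤ)) := by
    rintro ⟨a, b⟩ h1 ⟨c, d⟩ h2 h3
    simp only at h3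
    have e1 := (Finset.mem_antidiagonal.1 h1).2.2
    have e2 := (Finset.mem_antidiagonal.1 h2).2.2
    simp only at e1 e2
    rw [Prod.mk.injEq]
    constructor
    · exact h3
    · linarith
  have h1 : ∑ᶠ i : ℤ, x.coeff i * y.coeff (n - i) = ∑ i ∈ S.image (fun ij => ij.1), x.coeff i * y.coeff (n - i) := by
    refine finsum_eq_sum_of_support_subset _ ?_
    intro i hi
    rw [Function.mem_support] at hi
    rw [Finset.coe_image]
    refine ⟨(i, n - i), ?_, rfl⟩
    rw [Finset.mem_coe, hS]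
    refine Finset.mem_antidiagonal.2 ?_
    exact ⟨left_ne_zero_of_mul hi, right_ne_zero_of_mul hi, by simp⟩
  rw [h1, Finset.sum_image hinj]
  refine Finset.sum_congr rfl fun ij hij => ?_
  have e := (Finset.mem_antidiagonal.1 hij).2.2
  rw [show n - ij.1 = ij.2 by linarith]

/-! ### the graph of the expansion of the polynomials -/

/-- the graph on the monomials -/
def gens (F : Subfield E) (t : Eˣ) : Set (E × LS E) :=
  {p | ∃ f ∈ F, ∃ n : ℤ, p = (f * T t n, HahnSeries.single n (f * T t n))}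

/-- the graph on the polynomials -/
noncomputable def G0 (F : Subfield E) (t : Eˣ) : AddSubgroup (E × LS E) := AddSubgroup.closure (gens F t)

theorem g0_mono {f : E} (hf : f ∈ F) (n : ℤ) : (f * T t n, HahnSeries.single n (f * T t n)) ∈ G0 F t :=
  AddSubgroup.subset_closure ⟨f, hf, n, rfl⟩

theorem g0_induction {p : E × LS E → Prop} (hm : ∀ f ∈ F, ∀ n : ℤ, p (f * T t n, HahnSeries.single n (f * T t n))) (h0 : p 0)
    (ha : ∀ x y, p x → p y → p (x + y)) (hn : ∀ x, p x → p (-x)) {x : E × LS E} (hx : x ∈ G0 F t) : p x := by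
  refine AddSubgroup.closure_induction (p := fun x _ => p x) ?_ h0 (fun x y _ _ => ha x y) (fun x _ => hn x) hx
  rintro x ⟨f, hf, n, rfl⟩
  exact hm f hf n

theorem g0_mul (h : Hyp F t) {x y : E × LS E} (hx : x ∈ G0 F t) (hy : y ∈ G0 F t) : x * y ∈ G0 F t := by
  refine g0_induction (p := fun x => x * y ∈ G0 F t) (fun f hf n => ?_) (by simp [zero_mem])
    (fun a b ha hb => by simpa [add_mul] using add_mem ha hb) (fun a ha => by simpa using ha) hx
  refine g0_induction (p := fun y => (f * T t n, HahnSeries.single n (f * T t n)) * y ∈ G0 F t) (fun g hg m => ?_)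
    (by simp [zero_mem]) (fun a b ha hb => by simpa [mul_add] using add_mem ha hb) (fun a ha => by simpa using ha) hy
  have e : f * T t n * (g * T t m) = f * (T t n * g * T t (-n)) * T t (n + m) := by
    rw [T_add]
    simp only [mul_assoc]
    rw [T_neg_mul_cancel]
  rw [Prod.mk_mul_mk, HahnSeries.single_mul_single, e]
  exact g0_mono (mul_mem hf (h.conj n g hg)) _

theorem g0_c {p : E × LS E} (hp : p ∈ G0 F t) :
    ∃ c : ℤ →₀ E, (∀ u, c u ∈ F) ∧ p.1 = (c.sum fun u x => x * T t u) ∧ ∀ u, p.2.coeff u = c u * T t u := by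
  classical
  refine g0_induction (p := fun p => ∃ c : ℤ →₀ E, (∀ u, c u ∈ F) ∧ p.1 = (c.sum fun u x => x * T t u) ∧
    ∀ u, p.2.coeff u = c u * T t u) ?_ ?_ ?_ ?_ hp
  · intro f hf n
    refine ⟨Finsupp.single n f, fun u => ?_, ?_, fun u => ?_⟩
    · rw [Finsupp.single_apply]
      split_ifs
      · exact hf
      · exact zero_mem _
    · rw [Finsupp.sum_single_index (by simp)]
    · rw [HahnSeries.coeff_single, Finsupp.single_apply]
      by_cases hu : u = n
      · subst hu; simp
      · rw [if_neg hu, if_neg (Ne.symm hu), zero_mul]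
  · exact ⟨0, fun u => zero_mem _, by simp, by simp⟩
  · rintro x y ⟨c, hc, hc1, hc2⟩ ⟨d, hd, hd1, hd2⟩
    refine ⟨c + d, fun u => add_mem (hc u) (hd u), ?_, fun u => ?_⟩
    · rw [Finsupp.sum_add_index' (by simp) (by simp [add_mul]), Prod.fst_add, hc1, hd1]
    · rw [Prod.snd_add, HahnSeries.coeff_add, hc2, hd2, Finsupp.add_apply, add_mul]
  · rintro x ⟨c, hc, hc1, hc2⟩
    refine ⟨-c, fun u => neg_mem (hc u), ?_, fun u => ?_⟩
    · rw [Finsupp.sum_neg_index (by simp), Prod.fst_neg, hc1, Finsupp.sum, Finsupp.sum, ← Finset.sum_neg_distrib]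
      exact Finset.sum_congr rfl fun u _ => by rw [neg_mul]
    · rw [Prod.snd_neg, HahnSeries.coeff_neg, hc2, Finsupp.neg_apply, neg_mul]

theorem g0_iff (h : Hyp F t) {p : E × LS E} (hp : p ∈ G0 F t) : p.1 = 0 ↔ p.2 = 0 := by
  obtain ⟨c, hc, h1, h2⟩ := g0_c hp
  constructor
  · intro h0
    have hc0 : c = 0 := h.ind c hc (h1.symm.trans h0)
    ext u
    rw [h2, hc0]
    simp
  · intro h0
    have hc0 : c = 0 := by
      ext u
      have := h2 u
      rw [h0, HahnSeries.coeff_zero] at this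
      rcases mul_eq_zero.1 this.symm with h3 | h3
      · exact h3
      · exact absurd h3 (T_ne t u)
    rw [h1, hc0, Finsupp.sum_zero_index]

theorem g0_ne (h : Hyp F t) {p : E × LS E} (hp : p ∈ G0 F t) (h0 : p.1 ≠ 0) : p.2 ≠ 0 := fun h1 => h0 ((g0_iff h hp).2 h1)

theorem g0_coeff {p : E × LS E} (hp : p ∈ G0 F t) (u : ℤ) : p.2.coeff u * T t (-u) ∈ F := by
  obtain ⟨c, hc, -, h2⟩ := g0_c hp
  rw [h2, mul_assoc, T_mul_neg, mul_one]
  exact hc u

theorem g0_lau {p : E × LS E} (hp : p ∈ G0 F t) : p.1 ∈ Lau F t :=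
  g0_induction (p := fun p => p.1 ∈ Lau F t) (fun _ hf n => lau_mono hf n) (zero_mem _) (fun _ _ ha hb => add_mem ha hb)
    (fun _ ha => neg_mem ha) hp

theorem g0_lift {x : E} (hx : x ∈ Lau F t) : ∃ y : LS E, (x, y) ∈ G0 F t := by
  refine lau_induction (p := fun x => ∃ y : LS E, (x, y) ∈ G0 F t) (fun f hf n => ⟨_, g0_mono hf n⟩) ⟨0, zero_mem _⟩ ?_ ?_ hx
  · rintro x y ⟨a, ha⟩ ⟨b, hb⟩
    exact ⟨a + b, add_mem ha hb⟩
  · rintro x ⟨a, ha⟩
    exact ⟨-a, neg_mem ha⟩

theorem g0_ore (h : Hyp F t) {a s : E × LS E} (ha : a ∈ G0 F t) (hs : s ∈ G0 F t) (hs0 : s.1 ≠ 0) :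
    ∃ u ∈ G0 F t, ∃ v ∈ G0 F t, u.1 ≠ 0 ∧ u * a = v * s := by
  obtain ⟨u, hu, v, hv, hu0, huv⟩ := ore h (g0_lau ha) (g0_lau hs) hs0
  obtain ⟨u', hu'⟩ := g0_lift hu
  obtain ⟨v', hv'⟩ := g0_lift hv
  refine ⟨_, hu', _, hv', hu0, ?_⟩
  have h1 : (u, u') * a - (v, v') * s ∈ G0 F t := sub_mem (g0_mul h hu' ha) (g0_mul h hv' hs)
  have h2 : ((u, u') * a - (v, v') * s).1 = 0 := by
    rw [Prod.fst_sub, Prod.fst_mul, Prod.fst_mul, huv, sub_self]
  have h3 := (g0_iff h h1).1 h2
  exact sub_eq_zero.1 (Prod.ext h2 h3)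

/-! ### the graph of the expansion of the fractions -/

/-- the graph of the expansion -/
def D (F : Subfield E) (t : Eˣ) : Set (E × LS E) := {p | ∃ s ∈ G0 F t, s.1 ≠ 0 ∧ s * p ∈ G0 F t}

theorem d_of_g0 {p : E × LS E} (hp : p ∈ G0 F t) : p ∈ D F t := by
  refine ⟨1, ?_, one_ne_zero, by rwa [one_mul]⟩
  have := g0_mono (t := t) (one_mem F) 0
  rw [T_zero, mul_one] at this
  exact this

theorem d_add (h : Hyp F t) {p q : E × LS E} (hp : p ∈ D F t) (hq : q ∈ D F t) : p + q ∈ D F t := by
  obtain ⟨s, hs, hs0, hsp⟩ := hp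
  obtain ⟨r, hr, hr0, hrq⟩ := hq
  obtain ⟨u, hu, v, hv, hu0, huv⟩ := g0_ore h hs hr hr0
  refine ⟨u * s, g0_mul h hu hs, mul_ne_zero hu0 hs0, ?_⟩
  rw [mul_add, mul_assoc u s p, huv, mul_assoc v r q]
  exact add_mem (g0_mul h hu hsp) (g0_mul h hv hrq)

theorem d_neg {p : E × LS E} (hp : p ∈ D F t) : -p ∈ D F t := by
  obtain ⟨s, hs, hs0, hsp⟩ := hp
  exact ⟨s, hs, hs0, by rw [mul_neg]; exact neg_mem hsp⟩

theorem d_mul (h : Hyp F t) {p q : E × LS E} (hp : p ∈ D F t) (hq : q ∈ D F t) : p * q ∈ D F t := by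
  obtain ⟨s, hs, hs0, hsp⟩ := hp
  obtain ⟨r, hr, hr0, hrq⟩ := hq
  obtain ⟨u, hu, v, hv, hu0, huv⟩ := g0_ore h hsp hr hr0
  refine ⟨u * s, g0_mul h hu hs, mul_ne_zero hu0 hs0, ?_⟩
  rw [show u * s * (p * q) = u * (s * p) * q by simp only [mul_assoc], huv, mul_assoc]
  exact g0_mul h hv hrq

theorem d_iff (h : Hyp F t) {p : E × LS E} (hp : p ∈ D F t) : p.1 = 0 ↔ p.2 = 0 := by
  obtain ⟨s, hs, hs0, hsp⟩ := hp
  have h1 := g0_iff h hsp
  have h2 := g0_ne h hs hs0
  rw [Prod.fst_mul, Prod.snd_mul] at h1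
  constructor
  · intro h0
    rw [h0, mul_zero] at h1
    exact ((LS.isUnit h2).mul_right_eq_zero).1 (h1.1 rfl)
  · intro h0
    rw [h0, mul_zero] at h1
    exact (mul_eq_zero.1 (h1.2 rfl)).resolve_left hs0

theorem d_unique (h : Hyp F t) {x : E} {y z : LS E} (hy : (x, y) ∈ D F t) (hz : (x, z) ∈ D F t) : y = z := by
  have h1 : (x, y) + -(x, z) ∈ D F t := d_add h hy (d_neg hz)
  have h2 := (d_iff h h1).1 (add_neg_cancel x)
  exact sub_eq_zero.1 ((sub_eq_add_neg y z).trans h2)

theorem d_exists (h : Hyp F t) {x : E} (hx : x ∈ Subfield.closure ((F : Set E) ∪ {(t : E)})) : ∃ y : LS E, (x, y) ∈ D F t := by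
  obtain ⟨s, hs, hs0, hsx⟩ := left_one h hx
  obtain ⟨s', hs'⟩ := g0_lift hs
  obtain ⟨a', ha'⟩ := g0_lift hsx
  obtain ⟨w, hw⟩ := LS.isUnit (g0_ne h hs' hs0)
  refine ⟨((w⁻¹ : (LS E)ˣ) : LS E) * a', (s, s'), hs', hs0, ?_⟩
  have e : (s, s') * (x, ((w⁻¹ : (LS E)ˣ) : LS E) * a') = (s * x, a') := by
    rw [Prod.mk_mul_mk]
    refine congrArg (Prod.mk (s * x)) ?_
    simp only at hw
    rw [← hw, ← mul_assoc, Units.mul_inv, one_mul]
  rw [e]
  exact ha'

theorem d_coeff (h : Hyp F t) {p : E × LS E} (hp : p ∈ D F t) (u : ℤ) : p.2.coeff u * T t (-u) ∈ F := by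
  obtain ⟨s, hs, hs0, hsp⟩ := hp
  have hs2 := g0_ne h hs hs0
  set m := s.2.order with hm
  have key : ∀ k : ℕ, ∀ u : ℤ, u < p.2.order + k → p.2.coeff u * T t (-u) ∈ F := by
    intro k
    induction k with
    | zero =>
      intro u hu
      rw [HahnSeries.coeff_eq_zero_of_lt_order (by simpa using hu), zero_mul]
      exact zero_mem _
    | succ k ih =>
      intro u hu
      rcases lt_or_eq_of_le (show u ≤ p.2.order + k by push_cast at hu; linarith) with hu' | hu'
      · exact ih u hu'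
      -- the coefficient of `s p` at `m + u`
      have h1 := g0_coeff hsp (m + u)
      rw [Prod.snd_mul, LS.coeff_mul_finsum] at h1
      have hfin : (Function.support fun i : ℤ => s.2.coeff i * p.2.coeff (m + u - i)).Finite := by
        refine (Set.finite_Icc m (m + u - p.2.order)).subset ?_
        intro i hi
        rw [Function.mem_support] at hi
        constructor
        · by_contra hc
          exact left_ne_zero_of_mul hi (HahnSeries.coeff_eq_zero_of_lt_order (not_le.1 hc))
        · by_contra hc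
          exact right_ne_zero_of_mul hi (HahnSeries.coeff_eq_zero_of_lt_order (by linarith))
      have h2 : (∑ᶠ i : ℤ, s.2.coeff i * p.2.coeff (m + u - i)) =
          s.2.coeff m * p.2.coeff u + ∑ i ∈ hfin.toFinset.erase m, s.2.coeff i * p.2.coeff (m + u - i) := by
        by_cases hmm : m ∈ hfin.toFinset
        · rw [finsum_eq_sum _ hfin, ← Finset.add_sum_erase _ _ hmm, show m + u - m = u by ring]
        · rw [finsum_eq_sum _ hfin, Finset.erase_eq_of_notMem hmm]
          have : s.2.coeff m * p.2.coeff (m + u - m) = 0 := by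
            by_contra hc
            exact hmm (hfin.mem_toFinset.2 hc)
          rw [show m + u - m = u by ring] at this
          rw [this, zero_add]
      have h3 : (∑ i ∈ hfin.toFinset.erase m, s.2.coeff i * p.2.coeff (m + u - i)) * T t (-(m + u)) ∈ F := by
        rw [Finset.sum_mul]
        refine sum_mem fun i hi => ?_
        rw [Finset.mem_erase, hfin.mem_toFinset, Function.mem_support] at hi
        have him : m < i := by
          refine lt_of_le_of_ne ?_ (Ne.symm hi.1)
          by_contra hc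
          exact left_ne_zero_of_mul hi.2 (HahnSeries.coeff_eq_zero_of_lt_order (not_le.1 hc))
        have hp1 := ih (m + u - i) (by linarith)
        have hs1 := g0_coeff hs i
        have e : s.2.coeff i * p.2.coeff (m + u - i) * T t (-(m + u)) =
            s.2.coeff i * T t (-i) * (T t i * (p.2.coeff (m + u - i) * T t (-(m + u - i))) * T t (-i)) := by
          rw [show -(m + u) = -(m + u - i) + -i by ring, T_add]
          simp only [mul_assoc]
          rw [T_neg_mul_cancel]
        rw [e]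
        exact mul_mem hs1 (h.conj i _ hp1)
      rw [h2, add_mul] at h1
      have h4 := sub_mem h1 h3
      rw [add_sub_cancel_right] at h4
      have hs1 := g0_coeff hs m
      have hne : s.2.coeff m ≠ 0 := by
        rw [hm]
        exact fun h0 => hs2 (HahnSeries.coeff_order_eq_zero.1 h0)
      have hne' : s.2.coeff m * T t (-m) ≠ 0 := mul_ne_zero hne (T_ne t _)
      have h5 := h.conj (-m) _ (mul_mem (inv_mem hs1) h4)
      have e : T t (-m) * ((s.2.coeff m * T t (-m))⁻¹ * (s.2.coeff m * p.2.coeff u * T t (-(m + u)))) * T t (- -m) =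
          p.2.coeff u * T t (-u) := by
        have e1 : s.2.coeff m * p.2.coeff u * T t (-(m + u)) =
            (s.2.coeff m * T t (-m)) * (T t m * (p.2.coeff u * (T t (-u) * T t (-m)))) := by
          rw [show -(m + u) = -u + -m by ring, T_add]
          simp only [mul_assoc]
          rw [T_neg_mul_cancel]
        rw [e1, inv_mul_cancel_left₀ hne', T_neg_mul_cancel, mul_assoc, mul_assoc, T_mul_neg, mul_one]
      rw [e] at h5
      exact h5
  exact key (u - p.2.order + 1).toNat u (by
    have := Int.self_le_toNat (u - p.2.order + 1)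
    linarith)

end StepX

open StepX in
/-- **X1** -/
theorem stmtStep : StmtStep := by
  intro E _ _ F t hc1 hc2 hind
  have h : Hyp F t := ⟨hc1, hc2, hind⟩
  set L : Subfield E := Subfield.closure ((F : Set E) ∪ {(t : E)}) with hL
  have hFL : ∀ f ∈ F, f ∈ L := fun f hf => Subfield.subset_closure (Or.inl hf)
  have htL : (t : E) ∈ L := Subfield.subset_closure (Or.inr rfl)
  choose! Y hY using fun (x : E) (hx : x ∈ L) => d_exists h hx
  let L' : Submodule (ZMod 2) E := AddSubgroup.toZModSubmodule 2 L.toSubring.toAddSubgroup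
  have hL' : ∀ x : L', x.1 ∈ L := fun x => x.2
  let exp : L' →+ LS E :=
    { toFun := fun x => Y x.1
      map_zero' := d_unique h (hY 0 (zero_mem L)) (d_of_g0 (zero_mem (G0 F t)))
      map_add' := fun x y => d_unique h (hY _ (add_mem (hL' x) (hL' y))) (d_add h (hY _ (hL' x)) (hY _ (hL' y))) }
  obtain ⟨g, hg⟩ := LinearMap.exists_extend (AddMonoidHom.toZModLinearMap 2 exp)
  have hgY : ∀ x ∈ L, g x = Y x := fun x hx => LinearMap.congr_fun hg (⟨x, hx⟩ : L')
  have hgD : ∀ x ∈ L, (x, g x) ∈ D F t := fun x hx => by rw [hgY x hx]; exact hY x hx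
  have hgu : ∀ x ∈ L, ∀ y : LS E, (x, y) ∈ D F t → g x = y := fun x hx y hy => d_unique h (hgD x hx) hy
  have hmono : ∀ f ∈ F, ∀ n : ℤ, g (f * T t n) = HahnSeries.single n (f * T t n) := by
    intro f hf n
    refine hgu _ ?_ _ (d_of_g0 (g0_mono hf n))
    refine mul_mem (hFL f hf) ?_
    have : T t n = (t : E) ^ n := by simp [T]
    rw [this]
    exact zpow_mem htL n
  have hF : ∀ f ∈ F, g f = HahnSeries.single 0 f := by
    intro f hf
    have := hmono f hf 0
    rwa [T_zero, mul_one] at this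
  have ht : g (t : E) = HahnSeries.single 1 (t : E) := by
    have := hmono 1 (one_mem F) 1
    rwa [T_one, one_mul] at this
  have hmul : ∀ x ∈ L, ∀ y ∈ L, g (x * y) = g x * g y := fun x hx y hy =>
    hgu _ (mul_mem hx hy) _ (d_mul h (hgD x hx) (hgD y hy))
  refine ⟨{
    κ := { toFun := fun x u => (g x).coeff u * T t (-u)
           map_zero' := by ext u; simp
           map_add' := fun x y => by ext u; simp [add_mul] }
    bdd := fun x => ⟨(g x).order, fun u hu => ?_⟩
    mem := fun x hx u => d_coeff h (hgD x hx) u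
    mon := fun f hf n u => ?_
    inj := fun x hx h0 => ?_
    mul := fun x hx y hy n => ?_
    left_F := fun f hf x hx u => ?_
    left_t := fun x hx u => ?_
    right_F := fun f hf x hx u => ?_
    right_t := fun x hx u => ?_
    left := left_all h
    right := right_all h }⟩
  · change (g x).coeff u * T t (-u) = 0
    rw [HahnSeries.coeff_eq_zero_of_lt_order hu, zero_mul]
  · change (g (f * T t n)).coeff u * T t (-u) = _
    rw [hmono f hf n, HahnSeries.coeff_single]
    split_ifs with hu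
    · rw [hu, mul_assoc, T_mul_neg, mul_one]
    · rw [zero_mul]
  · have h1 : g x = 0 := by
      ext u
      have := h0 u
      change (g x).coeff u * T t (-u) = 0 at this
      rw [HahnSeries.coeff_zero]
      exact (mul_eq_zero.1 this).resolve_right (T_ne t _)
    exact (d_iff h (hgD x hx)).2 h1
  · change (g (x * y)).coeff n * T t (-n) = ∑ᶠ i : ℤ, (g x).coeff i * T t (-i) * (T t i * ((g y).coeff (n - i) * T t (-(n - i))) *
      T t (-i))
    rw [hmul x hx y hy, LS.coeff_mul_finsum, finsum_mul]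
    refine finsum_congr fun i => ?_
    have : T t (-n) = T t (-(n - i)) * T t (-i) := by
      rw [← T_add]
      congr 1
      ring
    rw [this]
    simp only [mul_assoc]
    rw [T_neg_mul_cancel]
  · change (g (f * x)).coeff u * T t (-u) = f * ((g x).coeff u * T t (-u))
    rw [hmul f (hFL f hf) x hx, hF f hf, HahnSeries.coeff_single_zero_mul, mul_assoc]
  · change (g ((t : E) * x)).coeff u * T t (-u) = (t : E) * ((g x).coeff (u - 1) * T t (-(u - 1))) * ((t⁻¹ : Eˣ) : E)
    rw [hmul _ htL x hx, ht, HahnSeries.coeff_single_mul, ← T_neg_one, show -u = -(u - 1) + -1 by ring, T_add]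
    simp only [mul_assoc]
  · change (g (x * f)).coeff u * T t (-u) = (g x).coeff u * T t (-u) * (T t u * f * T t (-u))
    rw [hmul x hx f (hFL f hf), hF f hf, HahnSeries.coeff_mul_single_zero]
    simp only [mul_assoc]
    rw [T_neg_mul_cancel]
  · change (g (x * (t : E))).coeff u * T t (-u) = (g x).coeff (u - 1) * T t (-(u - 1))
    rw [hmul x hx _ htL, ht, HahnSeries.coeff_mul_single, mul_assoc, ← T_one, ← T_add]
    congr 2
    ring

end SQ.T3
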