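import Pool.Agent.SQ.T3.Defs
import Pool.Agent.SQ.LemD

/-!
# SQ, third stage: the steps of a chain (X2a) and the independence of the group elements (X2c)
-/

set_option autoImplicit false

namespace SQ.T3

open Singer

section lev
variable {K : Type} [Group K] {E : Type} [DivisionRing E] {ρ : K →* Eˣ} {N : Subgroup K}

theorem cl_eq (ρ : K →* Eˣ) (N : Subgroup K) : cl ρ N = Subfield.closure ((fun g : K => ((ρ g : Eˣ) : E)) '' (N : Set K)) :=
  rfl

/-- the value is a valuation over the division closure of `N` -/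
theorem lev_isVal (lv : Level K E ρ N) : IsVal (cl ρ N) lv.v :=
  ⟨lv.v_add, fun c x hc hx => lv.v_sub c c.2 (fun h => hc (Subtype.ext h)) x hx⟩

/-- elements of `K` in different cosets of `N` are left independent over the division closure of `N` -/
theorem lev_indep (lv : Level K E ρ N) {I : Type} (S : Finset I) (g : I → K) (c : I → E)
    (hc : ∀ i ∈ S, c i ∈ cl ρ N) (hd : ∀ i ∈ S, ∀ k ∈ S, (g k)⁻¹ * g i ∈ N → i = k)
    (h0 : ∑ i ∈ S, c i * ((ρ (g i) : Eˣ) : E) = 0) : ∀ i ∈ S, c i = 0 := by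
  classical
  have hv := lev_isVal lv
  by_contra hne
  push Not at hne
  obtain ⟨i₀, hi₀S, hi₀⟩ := hne
  set T : Finset I := S.filter fun i => c i ≠ 0 with hT
  have hTn : T.Nonempty := ⟨i₀, Finset.mem_filter.2 ⟨hi₀S, hi₀⟩⟩
  set f : I → E := fun i => c i * ((ρ (g i) : Eˣ) : E) with hf
  have hf0 : ∀ i ∈ T, f i ≠ 0 := fun i hi => mul_ne_zero (Finset.mem_filter.1 hi).2 (Units.ne_zero _)
  have hval : ∀ i ∈ T, lv.v (f i) = g i • lv.v 1 := fun i hi => by
    have h1 := lv.v_sub (c i) (hc i (Finset.mem_filter.1 hi).1) (Finset.mem_filter.1 hi).2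
      ((ρ (g i) : Eˣ) : E) (Units.ne_zero _)
    have h2 := lv.v_act (g i) 1 one_ne_zero
    rw [mul_one] at h2
    rw [hf]
    exact h1.trans h2
  have hinj : ∀ i ∈ T, ∀ k ∈ T, lv.v (f i) = lv.v (f k) → i = k := fun i hi k hk h => by
    rw [hval i hi, hval k hk] at h
    refine hd i (Finset.mem_filter.1 hi).1 k (Finset.mem_filter.1 hk).1 (lv.free _ (lv.v 1) ?_)
    rw [mul_smul, h, ← mul_smul, inv_mul_cancel, one_smul]
  have hsum : ∑ i ∈ T, f i = 0 := by
    rw [← h0, hT, Finset.sum_filter]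
    refine Finset.sum_congr rfl fun i _ => ?_
    by_cases h : c i = 0
    · rw [if_neg (by simpa using h)]
      show (0 : E) = c i * ((ρ (g i) : Eˣ) : E)
      rw [h, zero_mul]
    · rw [if_pos h]
  obtain ⟨i₁, hi₁, hmin⟩ := T.exists_min_image (fun i => lv.v (f i)) hTn
  rw [← Finset.add_sum_erase T f hi₁] at hsum
  have h1 : ∑ i ∈ T.erase i₁, f i = -f i₁ := (neg_eq_of_add_eq_zero_right hsum).symm
  have h2 := hv.lt_sum (T.erase i₁) f (lv.v (f i₁)) (fun i hi _ => by
    refine lt_of_le_of_ne (hmin i (Finset.mem_of_mem_erase hi)) fun h => ?_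
    exact (Finset.ne_of_mem_erase hi) (hinj i₁ hi₁ i (Finset.mem_of_mem_erase hi) h).symm) (by
    rw [h1]
    exact neg_ne_zero.2 (hf0 i₁ hi₁))
  rw [h1, hv.neg (hf0 i₁ hi₁)] at h2
  exact lt_irrefl _ h2

end lev

section chain
variable {K : Type} [Group K]

theorem Chain.succ_le (C : Chain K) (j : ℕ) : C.N (j + 1) ≤ C.N j := fun _ hg => ((C.succ j _).1 hg).1

theorem Chain.anti (C : Chain K) : Antitone C.N := antitone_nat_of_succ_le C.succ_le

/-- a finite set of elements is separated by the chain -/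
theorem Chain.sep (C : Chain K) (S : Finset K) : ∃ j, ∀ g ∈ S, g ∈ C.N j → g = 1 := by
  classical
  induction S using Finset.induction_on with
  | empty => exact ⟨0, fun g hg => absurd hg (Finset.notMem_empty g)⟩
  | insert a S ha ih =>
    obtain ⟨j, hj⟩ := ih
    by_cases h : a = 1
    · refine ⟨j, fun g hg hN => ?_⟩
      rcases Finset.mem_insert.1 hg with rfl | hg
      · exact h
      · exact hj g hg hN
    · obtain ⟨i, hi⟩ : ∃ i, a ∉ C.N i := by
        by_contra hc
        push Not at hc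
        exact h (C.inf a hc)
      refine ⟨max i j, fun g hg hN => ?_⟩
      rcases Finset.mem_insert.1 hg with rfl | hg
      · exact absurd (C.anti (le_max_left i j) hN) hi
      · exact hj g hg (C.anti (le_max_right i j) hN)

end chain

/-- **X2c** -/
theorem s_ind : StmtInd := by
  intro K _ C E _ _ ρ hL
  classical
  rw [linearIndependent_iff']
  intro S c h0
  obtain ⟨j, hj⟩ := C.sep ((S ×ˢ S).image fun p => p.2⁻¹ * p.1)
  obtain ⟨lv⟩ := hL j
  have h1 := lev_indep lv S (fun g => g) (fun g => algebraMap (ZMod 2) E (c g)) (fun g _ => by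
      obtain h | h : c g = 0 ∨ c g = 1 := by
        generalize c g = a
        revert a
        decide
      · show algebraMap (ZMod 2) E (c g) ∈ cl ρ (C.N j)
        rw [h, map_zero]
        exact zero_mem _
      · show algebraMap (ZMod 2) E (c g) ∈ cl ρ (C.N j)
        rw [h, map_one]
        exact one_mem _)
    (fun g hg k hk hN => by
      have h2 := hj (k⁻¹ * g) (Finset.mem_image.2 ⟨(g, k), Finset.mem_product.2 ⟨hg, hk⟩, rfl⟩) hN
      exact (inv_mul_eq_one.1 h2).symm)
    (by
      rw [← h0]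
      refine Finset.sum_congr rfl fun g _ => ?_
      rw [Algebra.smul_def])
  intro g hg
  have h2 := h1 g hg
  exact (map_eq_zero_iff _ (algebraMap (ZMod 2) E).injective).1 h2

/-- a non-trivial subgroup of the integers is generated by one element -/
theorem exists_gen {H : Type} [Group H] (χ : H →* Multiplicative ℤ) : ∃ t : H, ∀ g : H, ∃ n : ℤ, χ g = χ t ^ n := by
  obtain ⟨a, ha⟩ := (Subgroup.isCyclic χ.range).exists_generator
  obtain ⟨t, ht⟩ := a.2
  refine ⟨t, fun g => ?_⟩
  obtain ⟨n, hn⟩ := Subgroup.mem_zpowers_iff.1 (ha ⟨χ g, g, rfl⟩)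
  refine ⟨n, ?_⟩
  rw [ht]
  exact (congrArg Subtype.val hn).symm

/-- **X2a** from **X1** -/
theorem s_steps (hX1 : StmtStep) : StmtSteps := by
  intro K _ C E _ _ ρ hL
  classical
  have key : ∀ j, ∃ t : K, t ∈ C.N j ∧ (∀ g ∈ C.N j, ∃ n : ℤ, g * t ^ (-n) ∈ C.N (j + 1)) ∧
      (t ≠ 1 → Nonempty (Step (cl ρ (C.N (j + 1))) (cl ρ (C.N j)) (ρ t))) := by
    intro j
    by_cases hχ : ∀ g, C.chi j g = 1
    · exact ⟨1, one_mem _, fun g hg => ⟨0, by
        rw [neg_zero, zpow_zero, mul_one]
        exact (C.succ j g).2 ⟨hg, hχ _⟩⟩, fun h => absurd rfl h⟩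
    push Not at hχ
    obtain ⟨g₀, hg₀⟩ := hχ
    obtain ⟨t, ht⟩ := exists_gen (C.chi j)
    have ht1 : C.chi j t ≠ 1 := by
      intro h
      obtain ⟨n, hn⟩ := ht g₀
      rw [h, one_zpow] at hn
      exact hg₀ hn
    have hgen : ∀ g ∈ C.N j, ∃ n : ℤ, g * (t : K) ^ (-n) ∈ C.N (j + 1) := fun g hg => by
      obtain ⟨n, hn⟩ := ht ⟨g, hg⟩
      refine ⟨n, (C.succ j _).2 ⟨mul_mem hg (zpow_mem t.2 _), ?_⟩⟩
      have h1 : (⟨g * (t : K) ^ (-n), mul_mem hg (zpow_mem t.2 _)⟩ : C.N j) = ⟨g, hg⟩ * t ^ (-n) :=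
        Subtype.ext (by push_cast; rfl)
      rw [h1, map_mul, map_zpow, hn, ← zpow_add, add_neg_cancel, zpow_zero]
    have hzero : ∀ n : ℤ, (t : K) ^ n ∈ C.N (j + 1) → n = 0 := fun n hn => by
      obtain ⟨h1, h2⟩ := (C.succ j _).1 hn
      have h3 : (⟨(t : K) ^ n, h1⟩ : C.N j) = t ^ n := Subtype.ext (by push_cast; rfl)
      rw [h3, map_zpow] at h2
      have h4 : n * (C.chi j t).toAdd = 0 := by
        have h5 := congrArg Multiplicative.toAdd h2
        rwa [toAdd_zpow, toAdd_one, smul_eq_mul] at h5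
      rcases mul_eq_zero.1 h4 with h5 | h5
      · exact h5
      · exact absurd (Multiplicative.toAdd.injective (by rw [h5, toAdd_one])) ht1
    refine ⟨t, t.2, hgen, fun _ => ?_⟩
    have := C.normal (j + 1)
    obtain ⟨lv⟩ := hL (j + 1)
    have hinv : ((ρ (t : K))⁻¹ : Eˣ) = ρ (t : K)⁻¹ := (map_inv ρ _).symm
    obtain ⟨st⟩ := hX1 E (cl ρ (C.N (j + 1))) (ρ (t : K))
      (fun f hf => by
        rw [hinv]
        exact conj_mem_kk ρ (C.N (j + 1)) (t : K) hf)
      (fun f hf => by
        rw [hinv]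
        have := conj_mem_kk ρ (C.N (j + 1)) (t : K)⁻¹ hf
        rwa [inv_inv] at this)
      (fun c hc h0 => by
        ext u
        by_cases hu : u ∈ c.support
        · refine lev_indep lv c.support (fun u : ℤ => (t : K) ^ u) (fun u => c u) (fun u _ => hc u) ?_ ?_ u hu
          · intro i _ k _ hN
            have h1 : ((t : K) ^ k)⁻¹ * (t : K) ^ i = (t : K) ^ (i - k) := by
              rw [← zpow_neg, ← zpow_add]
              congr 1
              ring
            rw [h1] at hN
            have := hzero _ hN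
            omega
          · rw [← h0, Finsupp.sum]
            refine Finset.sum_congr rfl fun u _ => ?_
            rw [map_zpow]
        · rw [Finsupp.coe_zero, Pi.zero_apply]
          exact Finsupp.notMem_support_iff.1 hu)
    have hcl : Subfield.closure (((cl ρ (C.N (j + 1)) : Subfield E) : Set E) ∪ {((ρ (t : K) : Eˣ) : E)}) = cl ρ (C.N j) := by
      refine le_antisymm ?_ ?_
      · rw [Subfield.closure_le]
        rintro x (hx | hx)
        · have : cl ρ (C.N (j + 1)) ≤ cl ρ (C.N j) :=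
            Subfield.closure_mono (Set.image_mono (C.succ_le j))
          exact this hx
        · rw [Set.mem_singleton_iff.1 hx]
          exact Subfield.subset_closure ⟨t, t.2, rfl⟩
      · refine (Subfield.closure_le).2 ?_
        rintro _ ⟨g, hg, rfl⟩
        obtain ⟨n, hn⟩ := hgen g hg
        have h1 : ((ρ g : Eˣ) : E) = ((ρ (g * (t : K) ^ (-n)) : Eˣ) : E) * ((ρ (t : K) : Eˣ) : E) ^ n := by
          rw [← Units.val_zpow_eq_zpow_val, ← Units.val_mul, ← map_zpow, ← map_mul, mul_assoc, ← zpow_add, neg_add_cancel,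
            zpow_zero, mul_one]
        show ((ρ g : Eˣ) : E) ∈ _
        rw [h1]
        refine mul_mem (Subfield.subset_closure (Or.inl (mem_kk ρ hn))) (zpow_mem ?_ n)
        exact Subfield.subset_closure (Or.inr rfl)
    rw [← hcl]
    exact ⟨st⟩
  choose t h1 h2 h3 using key
  exact ⟨{ t := t, t_mem := h1, gen := h2, st := fun j hj => (h3 j hj).some }⟩

end SQ.T3
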