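import Pool.Agent.SQ.T3.Defs

/-!
# SQ, third stage: every element is good (row X2b)
-/

set_option autoImplicit false
set_option linter.unusedSectionVars false

open scoped TensorProduct

namespace SQ.T3

open Singer

namespace GoodP

/-! ### skew series -/

section conv
variable {E : Type} [DivisionRing E]

/-- the product of series -/
noncomputable def cv (t : Eˣ) (a b : ℤ → E) (n : ℤ) : E :=
  ∑ᶠ i : ℤ, a i * (((t ^ i : Eˣ) : E) * b (n - i) * ((t ^ (-i) : Eˣ) : E))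

lemma cv_eq (t : Eˣ) (a b : ℤ → E) (m l : ℤ) (ha : ∀ i, i < m → a i = 0) (hb : ∀ i, i < l → b i = 0) (n : ℤ) :
    cv t a b n = ∑ i ∈ Finset.Icc m (n - l), a i * (((t ^ i : Eˣ) : E) * b (n - i) * ((t ^ (-i) : Eˣ) : E)) := by
  refine finsum_eq_sum_of_support_subset _ fun i hi => ?_
  rw [Function.mem_support] at hi
  rw [Finset.coe_Icc, Set.mem_Icc]
  constructor
  · by_contra h
    exact hi (by rw [ha i (by omega), zero_mul])
  · by_contra h
    exact hi (by rw [hb (n - i) (by omega), mul_zero, zero_mul, mul_zero])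

lemma tw_inj (t : Eˣ) (i : ℤ) {x y : E}
    (h : ((t ^ i : Eˣ) : E) * x * ((t ^ (-i) : Eˣ) : E) = ((t ^ i : Eˣ) : E) * y * ((t ^ (-i) : Eˣ) : E)) : x = y :=
  mul_left_cancel₀ (t ^ i).ne_zero (mul_right_cancel₀ (t ^ (-i)).ne_zero h)

/-- cancellation -/
lemma cv_cancel (t : Eˣ) (f a b : ℤ → E) (m l u : ℤ) (hf : ∀ i, i < m → f i = 0) (ha : ∀ i, i < l → a i = 0)
    (hb : ∀ i, i < l → b i = 0) (hu : f u ≠ 0) (h : ∀ n, cv t f a n = cv t f b n) : a = b := by
  classical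
  -- the least index of `f`
  obtain ⟨u0, hu0, hmin⟩ : ∃ u0, f u0 ≠ 0 ∧ ∀ i, i < u0 → f i = 0 := by
    obtain ⟨u0, h1, h2⟩ := Int.exists_least_of_bdd (P := fun i => f i ≠ 0) ⟨m, fun z hz => by
      by_contra h3
      exact hz (hf z (by omega))⟩ ⟨u, hu⟩
    exact ⟨u0, h1, fun i hi => by
      by_contra h3
      have := h2 i h3
      omega⟩
  by_contra hab
  obtain ⟨v, hv⟩ := Function.ne_iff.1 hab
  obtain ⟨v0, h1, h2⟩ := Int.exists_least_of_bdd (P := fun i => a i ≠ b i) ⟨l, fun z hz => by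
    by_contra h3
    exact hz (by rw [ha z (by omega), hb z (by omega)])⟩ ⟨v, hv⟩
  have hlv : l ≤ v0 := by
    by_contra h3
    exact h1 (by rw [ha v0 (by omega), hb v0 (by omega)])
  have h3 := h (u0 + v0)
  rw [cv_eq t f a u0 l hmin ha, cv_eq t f b u0 l hmin hb] at h3
  have h4 : Finset.Icc u0 (u0 + v0 - l) = insert u0 (Finset.Icc (u0 + 1) (u0 + v0 - l)) := by
    ext i
    rw [Finset.mem_insert, Finset.mem_Icc, Finset.mem_Icc]
    omega
  have h5 : u0 ∉ Finset.Icc (u0 + 1) (u0 + v0 - l) := by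
    rw [Finset.mem_Icc]
    omega
  rw [h4, Finset.sum_insert h5, Finset.sum_insert h5] at h3
  have h6 : ∑ i ∈ Finset.Icc (u0 + 1) (u0 + v0 - l), f i * (((t ^ i : Eˣ) : E) * a (u0 + v0 - i) * ((t ^ (-i) : Eˣ) : E)) =
      ∑ i ∈ Finset.Icc (u0 + 1) (u0 + v0 - l), f i * (((t ^ i : Eˣ) : E) * b (u0 + v0 - i) * ((t ^ (-i) : Eˣ) : E)) := by
    refine Finset.sum_congr rfl fun i hi => ?_
    rw [Finset.mem_Icc] at hi
    have h7 : a (u0 + v0 - i) = b (u0 + v0 - i) := by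
      by_contra h8
      have := h2 _ h8
      omega
    rw [h7]
  rw [h6] at h3
  have h7 := mul_left_cancel₀ hu0 (add_right_cancel h3)
  rw [add_sub_cancel_left] at h7
  exact h1 (tw_inj t u0 h7)

end conv

/-! ### inverses -/

section inv
variable {E : Type} [DivisionRing E] {F L : Subfield E} {t : Eˣ} (T : Step F L t)

lemma κ_one (u : ℤ) : T.κ 1 u = if u = 0 then 1 else 0 := by
  have h := T.mon 1 F.one_mem 0 u
  rwa [zpow_zero, Units.val_one, mul_one] at h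

lemma κ_F (f : E) (hf : f ∈ F) (u : ℤ) : T.κ f u = if u = 0 then f else 0 := by
  have h := T.mon f hf 0 u
  rwa [zpow_zero, Units.val_one, mul_one] at h

theorem inv_mem (R : Subring E) (hR : ∀ (i : ℤ), ∀ x ∈ R, ((t ^ i : Eˣ) : E) * x * ((t ^ (-i) : Eˣ) : E) ∈ R) {x : E}
    (hx : x ∈ L) (hxR : ∀ u, T.κ x u ∈ R) (u0 : ℤ) (h0 : ∀ u, u < u0 → T.κ x u = 0) (h1 : T.κ x u0 ≠ 0)
    (h2 : (T.κ x u0)⁻¹ ∈ R) (v : ℤ) : T.κ x⁻¹ v ∈ R := by
  have hx0 : x ≠ 0 := by
    rintro rfl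
    exact h1 (by rw [map_zero]; rfl)
  obtain ⟨l, hl⟩ := T.bdd x⁻¹
  have key : ∀ n : ℕ, ∀ v : ℤ, v < l + n → T.κ x⁻¹ v ∈ R := by
    intro n
    induction n with
    | zero =>
      intro v hv
      rw [hl v (by simpa using hv)]
      exact R.zero_mem
    | succ n ih =>
      intro v hv
      by_cases hvn : v < l + n
      · exact ih v hvn
      · have hlv : l ≤ v := by omega
        have h3 := T.mul x hx x⁻¹ (L.inv_mem hx) (u0 + v)
        rw [mul_inv_cancel₀ hx0, κ_one] at h3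
        have h4 := cv_eq t (T.κ x) (T.κ x⁻¹) u0 l h0 hl (u0 + v)
        unfold cv at h4
        rw [← h3] at h4
        have h5 : Finset.Icc u0 (u0 + v - l) = insert u0 (Finset.Icc (u0 + 1) (u0 + v - l)) := by
          ext i
          rw [Finset.mem_insert, Finset.mem_Icc, Finset.mem_Icc]
          omega
        have h6 : u0 ∉ Finset.Icc (u0 + 1) (u0 + v - l) := by
          rw [Finset.mem_Icc]
          omega
        rw [h5, Finset.sum_insert h6, add_sub_cancel_left] at h4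
        have h7 : ∑ i ∈ Finset.Icc (u0 + 1) (u0 + v - l),
            T.κ x i * (((t ^ i : Eˣ) : E) * T.κ x⁻¹ (u0 + v - i) * ((t ^ (-i) : Eˣ) : E)) ∈ R := by
          refine R.sum_mem fun i hi => R.mul_mem (hxR i) (hR i _ (ih _ ?_))
          rw [Finset.mem_Icc] at hi
          omega
        have h8 : ((if u0 + v = 0 then (1 : E) else 0) : E) ∈ R := by
          split
          · exact R.one_mem
          · exact R.zero_mem
        have h9 : ((t ^ u0 : Eˣ) : E) * T.κ x⁻¹ v * ((t ^ (-u0) : Eˣ) : E) =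
            (T.κ x u0)⁻¹ * ((if u0 + v = 0 then (1 : E) else 0) - ∑ i ∈ Finset.Icc (u0 + 1) (u0 + v - l),
              T.κ x i * (((t ^ i : Eˣ) : E) * T.κ x⁻¹ (u0 + v - i) * ((t ^ (-i) : Eˣ) : E))) := by
          rw [h4, add_sub_cancel_right, inv_mul_cancel_left₀ h1]
        have h10 : T.κ x⁻¹ v = ((t ^ (-u0) : Eˣ) : E) * (((t ^ u0 : Eˣ) : E) * T.κ x⁻¹ v * ((t ^ (-u0) : Eˣ) : E)) *
            ((t ^ (- -u0) : Eˣ) : E) := by
          rw [neg_neg, zpow_neg]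
          simp only [mul_assoc]
          rw [Units.inv_mul, mul_one, Units.inv_mul_cancel_left]
        rw [h10, h9]
        exact hR (-u0) _ (R.mul_mem h2 (R.sub_mem h8 h7))
  obtain ⟨n, hn⟩ : ∃ n : ℕ, v < l + n := ⟨(v - l + 1).toNat, by omega⟩
  exact key n v hn

end inv

/-! ### the chain -/

section chain
variable {K : Type} [Group K] (C : Chain K)

lemma anti (j : ℕ) : C.N (j + 1) ≤ C.N j := fun g hg => ((C.succ j g).1 hg).1

lemma anti' {i j : ℕ} (h : i ≤ j) : C.N j ≤ C.N i := by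
  induction h with
  | refl => exact le_rfl
  | step h ih => exact (anti C _).trans ih

/-- the commutator of an element of `N j` with any element -/
lemma comm_mem (j : ℕ) (k g : K) (hg : g ∈ C.N j) : k * g * k⁻¹ * g⁻¹ ∈ C.N (j + 1) := by
  have h1 : k * g * k⁻¹ ∈ C.N j := (C.normal j).conj_mem g hg k
  refine (C.succ j _).2 ⟨(C.N j).mul_mem h1 ((C.N j).inv_mem hg), ?_⟩
  have h2 : (⟨k * g * k⁻¹ * g⁻¹, (C.N j).mul_mem h1 ((C.N j).inv_mem hg)⟩ : C.N j) =
      ⟨k * g * k⁻¹, h1⟩ * ⟨g, hg⟩⁻¹ := rfl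
  rw [h2, map_mul, map_inv, C.conj j k g hg, mul_inv_cancel]

lemma comm_zpow (j : ℕ) (k g : K) (hg : g ∈ C.N j) (n : ℤ) : (k * g * k⁻¹) ^ n * (g ^ n)⁻¹ ∈ C.N (j + 1) := by
  have h1 : (k * g * k⁻¹) ^ n * (g ^ n)⁻¹ = k * g ^ n * k⁻¹ * (g ^ n)⁻¹ := by rw [conj_zpow]
  rw [h1]
  exact comm_mem C j k (g ^ n) ((C.N j).zpow_mem hg n)

/-- a finite set is separated by some `N m` -/
lemma exists_sep (S : Finset K) (j : ℕ) : ∃ m, ∀ g ∈ S, ∀ h ∈ S, g * h⁻¹ ∈ C.N (j + m) → g = h := by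
  classical
  have h1 : ∀ x : K × K, ∃ m, x.1 * x.2⁻¹ ∈ C.N m → x.1 = x.2 := by
    intro x
    by_cases hx : x.1 = x.2
    · exact ⟨0, fun _ => hx⟩
    · by_contra h2
      push Not at h2
      exact hx (mul_inv_eq_one.1 (C.inf _ fun m => (h2 m).1))
  choose m hm using h1
  refine ⟨(S ×ˢ S).sup m, fun g hg h hh hgh => hm (g, h) (anti' C ?_ hgh)⟩
  have := Finset.le_sup (f := m) (Finset.mem_product.2 ⟨hg, hh⟩ : (g, h) ∈ S ×ˢ S)
  omega

end chain

/-! ### the span of a subgroup -/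

section span
variable {K : Type} [Group K] {E : Type} [DivisionRing E] [Algebra (ZMod 2) E] (ρ : K →* Eˣ)

/-- the span of a subgroup -/
def ks (N : Subgroup K) : Subring E := Subring.closure ((fun g : K => ((ρ g : Eˣ) : E)) '' (N : Set K))

lemma mem_ks {N : Subgroup K} {g : K} (hg : g ∈ N) : ((ρ g : Eˣ) : E) ∈ ks ρ N := Subring.subset_closure ⟨g, hg, rfl⟩

lemma mem_ks_iff (N : Subgroup K) (x : E) :
    x ∈ ks ρ N ↔ x ∈ AddSubgroup.closure ((fun g : K => ((ρ g : Eˣ) : E)) '' (N : Set K)) := by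
  let s : Submonoid E := N.toSubmonoid.map ((Units.coeHom E).comp ρ)
  have hs : (s : Set E) = (fun g : K => ((ρ g : Eˣ) : E)) '' (N : Set K) := rfl
  rw [ks, Subring.mem_closure_iff, ← hs, Submonoid.closure_eq]

lemma ks_le_cl (N : Subgroup K) : (ks ρ N : Set E) ⊆ cl ρ N := by
  intro x hx
  have h : ks ρ N ≤ (cl ρ N).toSubring := Subring.closure_le.2 fun y hy => Subfield.subset_closure hy
  exact h hx

lemma add_self (x : E) : x + x = 0 := by
  have h : ((1 : ZMod 2) + 1) • x = x + x := by rw [add_smul, one_smul]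
  rw [← h]
  have h2 : (1 : ZMod 2) + 1 = 0 := by decide
  rw [h2, zero_smul]

/-- an element of the span is the sum over a finite set -/
lemma exists_finset {N : Subgroup K} {x : E} (hx : x ∈ ks ρ N) :
    ∃ S : Finset K, (∀ g ∈ S, g ∈ N) ∧ x = ∑ g ∈ S, ((ρ g : Eˣ) : E) := by
  classical
  rw [mem_ks_iff] at hx
  induction hx using AddSubgroup.closure_induction with
  | mem x h =>
    obtain ⟨g, hg, rfl⟩ := h
    exact ⟨{g}, fun h hh => by rwa [Finset.mem_singleton.1 hh], (Finset.sum_singleton _ _).symm⟩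
  | zero => exact ⟨∅, fun g hg => absurd hg (Finset.notMem_empty g), rfl⟩
  | add x y _ _ hx hy =>
    obtain ⟨S, hS, rfl⟩ := hx
    obtain ⟨T, hT, rfl⟩ := hy
    refine ⟨symmDiff S T, fun g hg => ?_, ?_⟩
    · rcases Finset.mem_symmDiff.1 hg with h | h
      · exact hS g h.1
      · exact hT g h.1
    · have h1 : ∑ g ∈ S, ((ρ g : Eˣ) : E) = ∑ g ∈ S \ T, ((ρ g : Eˣ) : E) + ∑ g ∈ S ∩ T, ((ρ g : Eˣ) : E) := by
        rw [add_comm, Finset.sum_inter_add_sum_sdiff]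
      have h2 : ∑ g ∈ T, ((ρ g : Eˣ) : E) = ∑ g ∈ T \ S, ((ρ g : Eˣ) : E) + ∑ g ∈ S ∩ T, ((ρ g : Eˣ) : E) := by
        rw [add_comm, Finset.inter_comm, Finset.sum_inter_add_sum_sdiff]
      have h3 : ∑ g ∈ symmDiff S T, ((ρ g : Eˣ) : E) =
          ∑ g ∈ S \ T, ((ρ g : Eˣ) : E) + ∑ g ∈ T \ S, ((ρ g : Eˣ) : E) := by
        rw [← Finset.sum_union disjoint_sdiff_sdiff]
        rfl
      rw [h1, h2, h3]
      have h4 := add_self (∑ g ∈ S ∩ T, ((ρ g : Eˣ) : E))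
      calc ∑ g ∈ S \ T, ((ρ g : Eˣ) : E) + ∑ g ∈ S ∩ T, ((ρ g : Eˣ) : E) +
            (∑ g ∈ T \ S, ((ρ g : Eˣ) : E) + ∑ g ∈ S ∩ T, ((ρ g : Eˣ) : E)) =
          ∑ g ∈ S \ T, ((ρ g : Eˣ) : E) + ∑ g ∈ T \ S, ((ρ g : Eˣ) : E) +
            (∑ g ∈ S ∩ T, ((ρ g : Eˣ) : E) + ∑ g ∈ S ∩ T, ((ρ g : Eˣ) : E)) := by abel
        _ = _ := by rw [h4, add_zero]
  | neg x _ hx =>
    obtain ⟨S, hS, rfl⟩ := hx
    refine ⟨S, hS, ?_⟩
    rw [neg_eq_iff_add_eq_zero]
    exact add_self _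

end span

/-! ### conjugation and expansions -/

section conj
variable {K : Type} [Group K] {C : Chain K} {E : Type} [DivisionRing E] [Algebra (ZMod 2) E] {ρ : K →* Eˣ}

/-- conjugation -/
def cj (ρ : K →* Eˣ) (k : K) (x : E) : E := ((ρ k : Eˣ) : E) * x * ((ρ k⁻¹ : Eˣ) : E)

lemma cj_add (k : K) (x y : E) : cj ρ k (x + y) = cj ρ k x + cj ρ k y := by
  unfold cj
  rw [mul_add, add_mul]

lemma inv_mul_c (k : K) : ((ρ k⁻¹ : Eˣ) : E) * ((ρ k : Eˣ) : E) = 1 := by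
  rw [← Units.val_mul, ← map_mul, inv_mul_cancel, map_one, Units.val_one]

lemma mul_inv_c (k : K) : ((ρ k : Eˣ) : E) * ((ρ k⁻¹ : Eˣ) : E) = 1 := by
  rw [← Units.val_mul, ← map_mul, mul_inv_cancel, map_one, Units.val_one]

lemma cj_mul (k : K) (x y : E) : cj ρ k (x * y) = cj ρ k x * cj ρ k y := by
  unfold cj
  calc ((ρ k : Eˣ) : E) * (x * y) * ((ρ k⁻¹ : Eˣ) : E) =
      ((ρ k : Eˣ) : E) * x * 1 * y * ((ρ k⁻¹ : Eˣ) : E) := by rw [mul_one, mul_assoc ((ρ k : Eˣ) : E) x y]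
    _ = _ := by
      rw [← inv_mul_c (ρ := ρ) k]
      simp only [mul_assoc]

lemma cj_zero (k : K) : cj ρ k 0 = 0 := by
  unfold cj
  rw [mul_zero, zero_mul]

lemma cj_one (k : K) : cj ρ k 1 = 1 := by
  unfold cj
  rw [mul_one, mul_inv_c]

lemma cj_neg (k : K) (x : E) : cj ρ k (-x) = -cj ρ k x := by
  unfold cj
  rw [mul_neg, neg_mul]

lemma cj_sum (k : K) {ι : Type*} (s : Finset ι) (f : ι → E) : cj ρ k (∑ i ∈ s, f i) = ∑ i ∈ s, cj ρ k (f i) := by
  unfold cj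
  rw [Finset.mul_sum, Finset.sum_mul]

lemma cj_cj (k l : K) (x : E) : cj ρ k (cj ρ l x) = cj ρ (k * l) x := by
  unfold cj
  rw [map_mul, mul_inv_rev, map_mul, Units.val_mul, Units.val_mul]
  simp only [mul_assoc]

lemma cj_ρ (k g : K) : cj ρ k ((ρ g : Eˣ) : E) = ((ρ (k * g * k⁻¹) : Eˣ) : E) := by
  unfold cj
  rw [map_mul, map_mul, Units.val_mul, Units.val_mul]

lemma cj_inj (k : K) {x : E} (h : cj ρ k x = 0) : x = 0 := by
  have h1 : cj ρ k⁻¹ (cj ρ k x) = x := by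
    rw [cj_cj, inv_mul_cancel]
    unfold cj
    rw [inv_one, map_one, Units.val_one, one_mul, mul_one]
  rw [← h1, h, cj_zero]

lemma cj_inv (k : K) (x : E) : cj ρ k x⁻¹ = (cj ρ k x)⁻¹ := by
  by_cases hx : x = 0
  · rw [hx, inv_zero, cj_zero, inv_zero]
  · have h1 : cj ρ k x ≠ 0 := fun h => hx (cj_inj k h)
    rw [eq_comm, inv_eq_iff_eq_inv, eq_comm]
    refine inv_eq_of_mul_eq_one_left ?_
    rw [← cj_mul, mul_inv_cancel₀ hx, cj_one]

/-- conjugation preserves the fields of normal subgroups -/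
lemma cj_cl {N : Subgroup K} (hN : N.Normal) (k : K) {x : E} (hx : x ∈ cl ρ N) : cj ρ k x ∈ cl ρ N := by
  unfold cl at hx ⊢
  induction hx using Subfield.closure_induction with
  | mem x h =>
    obtain ⟨g, hg, rfl⟩ := h
    show cj ρ k ((ρ g : Eˣ) : E) ∈ _
    rw [cj_ρ]
    exact Subfield.subset_closure ⟨_, hN.conj_mem g hg k, rfl⟩
  | one => rw [cj_one]; exact Subfield.one_mem _
  | add x y _ _ hx hy => rw [cj_add]; exact Subfield.add_mem _ hx hy
  | neg x _ hx => rw [cj_neg]; exact Subfield.neg_mem _ hx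
  | inv x _ hx => rw [cj_inv]; exact Subfield.inv_mem _ hx
  | mul x y _ _ hx hy => rw [cj_mul]; exact Subfield.mul_mem _ hx hy

lemma tw_eq (t : K) (i : ℤ) (x : E) :
    ((ρ t ^ i : Eˣ) : E) * x * ((ρ t ^ (-i) : Eˣ) : E) = cj ρ (t ^ i) x := by
  unfold cj
  rw [map_zpow, map_inv, map_zpow, zpow_neg]

/-- the expansion of a conjugate -/
lemma κ_cj {N N' : Subgroup K} (hN : N.Normal) (hN' : N'.Normal) {t : K} (T : Step (cl ρ N') (cl ρ N) (ρ t))
    (gen : ∀ g ∈ N, ∃ n : ℤ, g * t ^ (-n) ∈ N') (k : K) (hk : ∀ n : ℤ, (k * t * k⁻¹) ^ n * (t ^ n)⁻¹ ∈ N')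
    {x : E} (hx : x ∈ cl ρ N) (u : ℤ) :
    T.κ (cj ρ k x) u = cj ρ k (T.κ x u) * ((ρ ((k * t * k⁻¹) ^ u * (t ^ u)⁻¹) : Eˣ) : E) := by
  obtain ⟨m, hm⟩ : ∃ m : ℤ → K, m = fun u => (k * t * k⁻¹) ^ u * (t ^ u)⁻¹ := ⟨_, rfl⟩
  have hm' : ∀ u, (k * t * k⁻¹) ^ u * (t ^ u)⁻¹ = m u := fun u => by rw [hm]
  have hmm : ∀ u, m u ∈ N' := fun u => by rw [hm]; exact hk u
  have hm0 : m 0 = 1 := by rw [hm]; simp
  -- the cocycle property
  have hcoc : ∀ i n : ℤ, m n = m i * (t ^ i * m (n - i) * (t ^ i)⁻¹) := by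
    intro i n
    rw [← hm', ← hm', ← hm']
    have h1 : (k * t * k⁻¹) ^ n = (k * t * k⁻¹) ^ i * (k * t * k⁻¹) ^ (n - i) := by
      rw [← zpow_add, add_sub_cancel]
    have h2 : (t ^ n)⁻¹ = (t ^ (n - i))⁻¹ * (t ^ i)⁻¹ := by
      rw [← mul_inv_rev, ← zpow_add, add_sub_cancel]
    rw [h1, h2]
    group
  have hkt : ∀ i, k * t ^ i = m i * (t ^ i * k) := by
    intro i
    rw [← hm', conj_zpow]
    group
  have hcoc' : ∀ i n : ℤ, ((ρ (m n) : Eˣ) : E) =
      ((ρ (m i) : Eˣ) : E) * ((ρ (t ^ i * m (n - i) * (t ^ i)⁻¹) : Eˣ) : E) := by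
    intro i n
    rw [hcoc i n, map_mul ρ (m i), Units.val_mul]
  let κ' : E → ℤ → E := fun x u => cj ρ k (T.κ x u) * ((ρ (m u) : Eˣ) : E)
  have hbdd' : ∀ x, ∃ l : ℤ, ∀ u, u < l → κ' x u = 0 := by
    intro x
    obtain ⟨l, hl⟩ := T.bdd x
    exact ⟨l, fun u hu => by
      show cj ρ k (T.κ x u) * _ = 0
      rw [hl u hu, cj_zero, zero_mul]⟩
  have hmul' : ∀ x ∈ cl ρ N, ∀ y ∈ cl ρ N, ∀ n, κ' (x * y) n = cv (ρ t) (κ' x) (κ' y) n := by
    intro x hx y hy n
    obtain ⟨a, ha⟩ := T.bdd x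
    obtain ⟨b, hb⟩ := T.bdd y
    have ha' : ∀ i, i < a → κ' x i = 0 := fun i hi => by
      show cj ρ k (T.κ x i) * _ = 0
      rw [ha i hi, cj_zero, zero_mul]
    have hb' : ∀ i, i < b → κ' y i = 0 := fun i hi => by
      show cj ρ k (T.κ y i) * _ = 0
      rw [hb i hi, cj_zero, zero_mul]
    rw [cv_eq (ρ t) (κ' x) (κ' y) a b ha' hb']
    show cj ρ k (T.κ (x * y) n) * ((ρ (m n) : Eˣ) : E) = _
    have h1 := T.mul x hx y hy n
    have h2 := cv_eq (ρ t) (T.κ x) (T.κ y) a b ha hb n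
    unfold cv at h2
    rw [h2] at h1
    rw [h1, cj_sum, Finset.sum_mul]
    refine Finset.sum_congr rfl fun i _ => ?_
    rw [tw_eq, tw_eq, cj_mul, cj_cj]
    show _ = cj ρ k (T.κ x i) * ((ρ (m i) : Eˣ) : E) * cj ρ (t ^ i) (cj ρ k (T.κ y (n - i)) * ((ρ (m (n - i)) : Eˣ) : E))
    rw [cj_mul, cj_cj, cj_ρ, hcoc' i n]
    have h4 : cj ρ (k * t ^ i) (T.κ y (n - i)) =
        ((ρ (m i) : Eˣ) : E) * cj ρ (t ^ i * k) (T.κ y (n - i)) * ((ρ (m i)⁻¹ : Eˣ) : E) := by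
      rw [hkt i, ← cj_cj]
      rfl
    rw [h4]
    have h5 := inv_mul_c (ρ := ρ) (m i)
    generalize ((ρ (t ^ i * m (n - i) * (t ^ i)⁻¹) : Eˣ) : E) = z
    generalize cj ρ (t ^ i * k) (T.κ y (n - i)) = w
    generalize cj ρ k (T.κ x i) = v
    calc v * (((ρ (m i) : Eˣ) : E) * w * ((ρ (m i)⁻¹ : Eˣ) : E)) * (((ρ (m i) : Eˣ) : E) * z) =
        v * ((ρ (m i) : Eˣ) : E) * w * (((ρ (m i)⁻¹ : Eˣ) : E) * ((ρ (m i) : Eˣ) : E)) * z := by
          simp only [mul_assoc]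
      _ = v * ((ρ (m i) : Eˣ) : E) * (w * z) := by
          rw [h5, mul_one]
          simp only [mul_assoc]
  have hκ'one : ∀ u, κ' 1 u = if u = 0 then 1 else 0 := by
    intro u
    show cj ρ k (T.κ 1 u) * ((ρ (m u) : Eˣ) : E) = _
    rw [κ_one]
    by_cases hu : u = 0
    · rw [if_pos hu, hu, cj_one, hm0, map_one, Units.val_one, mul_one]
    · rw [if_neg hu, cj_zero, zero_mul]
  rw [hm']
  show T.κ (cj ρ k x) u = κ' x u
  revert u
  have hx' : x ∈ Subfield.closure ((fun g : K => ((ρ g : Eˣ) : E)) '' (N : Set K)) := hx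
  clear hx
  induction hx' using Subfield.closure_induction with
  | mem x hxm =>
    intro u
    obtain ⟨g, hg, rfl⟩ := hxm
    obtain ⟨n, hn⟩ := gen g hg
    have e1 : g = g * t ^ (-n) * t ^ n := by rw [zpow_neg, inv_mul_cancel_right]
    have e2 : ((ρ g : Eˣ) : E) = ((ρ (g * t ^ (-n)) : Eˣ) : E) * ((ρ t ^ n : Eˣ) : E) := by
      rw [← map_zpow, ← Units.val_mul, ← map_mul, ← e1]
    have h1 : T.κ ((ρ g : Eˣ) : E) u = if u = n then ((ρ (g * t ^ (-n)) : Eˣ) : E) else 0 := by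
      rw [e2]
      exact T.mon _ (Subfield.subset_closure ⟨_, hn, rfl⟩) n u
    have hkn : k * (g * t ^ (-n)) * k⁻¹ * m n ∈ N' := N'.mul_mem (hN'.conj_mem _ hn k) (hmm n)
    have e3 : k * g * k⁻¹ = k * (g * t ^ (-n)) * k⁻¹ * m n * t ^ n := by
      rw [← hm', conj_zpow]
      group
    have e4 : cj ρ k ((ρ g : Eˣ) : E) = ((ρ (k * (g * t ^ (-n)) * k⁻¹ * m n) : Eˣ) : E) * ((ρ t ^ n : Eˣ) : E) := by
      rw [cj_ρ, ← map_zpow, ← Units.val_mul, ← map_mul, ← e3]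
    show T.κ (cj ρ k ((ρ g : Eˣ) : E)) u = cj ρ k (T.κ ((ρ g : Eˣ) : E) u) * ((ρ (m u) : Eˣ) : E)
    rw [e4, T.mon _ (Subfield.subset_closure ⟨_, hkn, rfl⟩) n u, h1]
    by_cases hu : u = n
    · rw [if_pos hu, if_pos hu, hu, cj_ρ, ← Units.val_mul, ← map_mul]
    · rw [if_neg hu, if_neg hu, cj_zero, zero_mul]
  | one =>
    intro u
    rw [cj_one, hκ'one, κ_one]
  | add x y hx hy ihx ihy =>
    intro u
    rw [cj_add, map_add]
    show T.κ (cj ρ k x) u + T.κ (cj ρ k y) u = cj ρ k (T.κ (x + y) u) * ((ρ (m u) : Eˣ) : E)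
    rw [ihx, ihy, map_add, Pi.add_apply, cj_add, add_mul]
  | neg x hx ihx =>
    intro u
    rw [cj_neg, map_neg]
    show -T.κ (cj ρ k x) u = cj ρ k (T.κ (-x) u) * ((ρ (m u) : Eˣ) : E)
    rw [ihx, map_neg, Pi.neg_apply, cj_neg, neg_mul]
  | mul x y hx hy ihx ihy =>
    intro u
    rw [cj_mul, hmul' x hx y hy]
    have h1 := T.mul (cj ρ k x) (cj_cl hN k hx) (cj ρ k y) (cj_cl hN k hy) u
    rw [h1]
    show cv (ρ t) (T.κ (cj ρ k x)) (T.κ (cj ρ k y)) u = _
    have h2 : T.κ (cj ρ k x) = κ' x := funext ihx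
    have h3 : T.κ (cj ρ k y) = κ' y := funext ihy
    rw [h2, h3]
  | inv x hx ihx =>
    by_cases hx0 : x = 0
    · intro u
      rw [hx0, inv_zero]
      rw [hx0] at ihx
      exact ihx u
    · have h2 : T.κ (cj ρ k x) = κ' x := funext ihx
      obtain ⟨a, ha⟩ := hbdd' x
      obtain ⟨b, hb⟩ := hbdd' x⁻¹
      obtain ⟨c, hc⟩ := T.bdd (cj ρ k x⁻¹)
      have hne : ∃ u, κ' x u ≠ 0 := by
        by_contra hcon
        push Not at hcon
        have h3 := T.inj (cj ρ k x) (cj_cl hN k hx) (fun u => by rw [h2]; exact hcon u)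
        exact hx0 (cj_inj k h3)
      obtain ⟨u, hu⟩ := hne
      have h4 : T.κ (cj ρ k x⁻¹) = κ' x⁻¹ := by
        refine cv_cancel (ρ t) (κ' x) _ _ a (min b c) u ha (fun i hi => hc i (by omega)) (fun i hi => hb i (by omega)) hu
          fun n => ?_
        rw [← hmul' x hx x⁻¹ (Subfield.inv_mem _ hx), mul_inv_cancel₀ hx0, hκ'one, ← h2]
        have h5 := T.mul (cj ρ k x) (cj_cl hN k hx) (cj ρ k x⁻¹) (cj_cl hN k (Subfield.inv_mem _ hx)) n
        rw [← cj_mul, mul_inv_cancel₀ hx0, cj_one, κ_one] at h5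
        exact h5.symm
      intro u
      rw [h4]

end conj

/-! ### the good elements -/

section good
variable {K : Type} [Group K] {C : Chain K} {E : Type} [DivisionRing E] [Algebra (ZMod 2) E] {ρ : K →* Eˣ}
  (S : Steps C ρ)

lemma good_zero (j : ℕ) : Good S 0 j = (ks ρ (C.N j) : Set E) := by
  ext x
  rw [SetLike.mem_coe, mem_ks_iff, Good]
  rfl

lemma good_one (J j : ℕ) (h : S.t j = 1) : Good S (J + 1) j = Good S J (j + 1) := by
  rw [Good, dif_pos h]

lemma good_succ (J j : ℕ) (h : S.t j ≠ 1) :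
    Good S (J + 1) j = {x | x ∈ cl ρ (C.N j) ∧ ∀ u, (S.st j h).κ x u ∈ Good S J (j + 1)} := by
  rw [Good, dif_neg h]

lemma N_eq (j : ℕ) (h : S.t j = 1) {g : K} (hg : g ∈ C.N j) : g ∈ C.N (j + 1) := by
  obtain ⟨n, hn⟩ := S.gen j g hg
  rwa [h, one_zpow, mul_one] at hn

lemma κ_ρ (j : ℕ) (h : S.t j ≠ 1) {g : K} {n : ℤ} (hn : g * S.t j ^ (-n) ∈ C.N (j + 1)) (u : ℤ) :
    (S.st j h).κ ((ρ g : Eˣ) : E) u = if u = n then ((ρ (g * S.t j ^ (-n)) : Eˣ) : E) else 0 := by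
  have e1 : g = g * S.t j ^ (-n) * S.t j ^ n := by rw [zpow_neg, inv_mul_cancel_right]
  have e2 : ((ρ g : Eˣ) : E) = ((ρ (g * S.t j ^ (-n)) : Eˣ) : E) * ((ρ (S.t j) ^ n : Eˣ) : E) := by
    rw [← map_zpow, ← Units.val_mul, ← map_mul, ← e1]
  rw [e2]
  exact (S.st j h).mon _ (Subfield.subset_closure ⟨_, hn, rfl⟩) n u

lemma κ_cj' (j : ℕ) (h : S.t j ≠ 1) (k : K) {x : E} (hx : x ∈ cl ρ (C.N j)) (u : ℤ) :
    (S.st j h).κ (cj ρ k x) u =
      cj ρ k ((S.st j h).κ x u) * ((ρ ((k * S.t j * k⁻¹) ^ u * (S.t j ^ u)⁻¹) : Eˣ) : E) :=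
  κ_cj (C.normal j) (C.normal (j + 1)) (S.st j h) (S.gen j) k (fun n => comm_zpow C j k _ (S.t_mem j) n) hx u

theorem exists_ring (J : ℕ) : ∀ j, ∃ R : Subring E, (R : Set E) = Good S J j ∧ (∀ x ∈ R, x ∈ cl ρ (C.N j)) ∧
    (∀ k : K, ∀ x ∈ R, cj ρ k x ∈ R) ∧ ∀ g ∈ C.N j, ((ρ g : Eˣ) : E) ∈ R := by
  induction J with
  | zero =>
    intro j
    refine ⟨ks ρ (C.N j), (good_zero S j).symm, fun x hx => ks_le_cl ρ _ hx, fun k x hx => ?_, fun g hg => mem_ks ρ hg⟩
    unfold ks at hx ⊢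
    induction hx using Subring.closure_induction with
    | mem x h =>
      obtain ⟨g, hg, rfl⟩ := h
      show cj ρ k ((ρ g : Eˣ) : E) ∈ _
      rw [cj_ρ]
      exact Subring.subset_closure ⟨_, (C.normal j).conj_mem g hg k, rfl⟩
    | zero => rw [cj_zero]; exact Subring.zero_mem _
    | one => rw [cj_one]; exact Subring.one_mem _
    | add x y _ _ hx hy => rw [cj_add]; exact Subring.add_mem _ hx hy
    | neg x _ hx => rw [cj_neg]; exact Subring.neg_mem _ hx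
    | mul x y _ _ hx hy => rw [cj_mul]; exact Subring.mul_mem _ hx hy
  | succ J ih =>
    intro j
    obtain ⟨R, h1, h2, h3, h4⟩ := ih (j + 1)
    by_cases h : S.t j = 1
    · refine ⟨R, by rw [h1, good_one S J j h], fun x hx => ?_, h3, fun g hg => h4 g (N_eq S j h hg)⟩
      have h5 : cl ρ (C.N (j + 1)) ≤ cl ρ (C.N j) := Subfield.closure_mono (Set.image_mono (anti C j))
      exact h5 (h2 x hx)
    · have hmem : ∀ x, x ∈ Good S (J + 1) j ↔ x ∈ cl ρ (C.N j) ∧ ∀ u, (S.st j h).κ x u ∈ R := by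
        intro x
        rw [good_succ S J j h, ← h1]
        rfl
      refine ⟨{ carrier := Good S (J + 1) j
                zero_mem' := ?_
                one_mem' := ?_
                add_mem' := ?_
                neg_mem' := ?_
                mul_mem' := ?_ }, rfl, fun x hx => ((hmem x).1 hx).1, fun k x hx => ?_, fun g hg => ?_⟩
      · intro x y hx hy
        rw [hmem] at hx hy ⊢
        refine ⟨Subfield.mul_mem _ hx.1 hy.1, fun u => ?_⟩
        obtain ⟨a, ha⟩ := (S.st j h).bdd x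
        obtain ⟨b, hb⟩ := (S.st j h).bdd y
        have e1 := (S.st j h).mul x hx.1 y hy.1 u
        have e2 := cv_eq (ρ (S.t j)) ((S.st j h).κ x) ((S.st j h).κ y) a b ha hb u
        unfold cv at e2
        rw [e2] at e1
        rw [e1]
        refine R.sum_mem fun i _ => R.mul_mem (hx.2 i) ?_
        rw [tw_eq]
        exact h3 _ _ (hy.2 _)
      · rw [hmem]
        refine ⟨Subfield.one_mem _, fun u => ?_⟩
        rw [κ_one]
        split
        · exact R.one_mem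
        · exact R.zero_mem
      · intro x y hx hy
        rw [hmem] at hx hy ⊢
        refine ⟨Subfield.add_mem _ hx.1 hy.1, fun u => ?_⟩
        rw [map_add]
        exact R.add_mem (hx.2 u) (hy.2 u)
      · rw [hmem]
        refine ⟨Subfield.zero_mem _, fun u => ?_⟩
        rw [map_zero]
        exact R.zero_mem
      · intro x hx
        rw [hmem] at hx ⊢
        refine ⟨Subfield.neg_mem _ hx.1, fun u => ?_⟩
        rw [map_neg]
        exact R.neg_mem (hx.2 u)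
      · have hx' := (hmem x).1 hx
        refine (hmem _).2 ⟨cj_cl (C.normal j) k hx'.1, fun u => ?_⟩
        rw [κ_cj' S j h k hx'.1]
        exact R.mul_mem (h3 _ _ (hx'.2 u)) (h4 _ (comm_zpow C j k _ (S.t_mem j) u))
      · refine (hmem _).2 ⟨Subfield.subset_closure ⟨g, hg, rfl⟩, fun u => ?_⟩
        obtain ⟨n, hn⟩ := S.gen j g hg
        rw [κ_ρ S j h hn]
        split
        · exact h4 _ hn
        · exact R.zero_mem

lemma good_mono (J : ℕ) : ∀ j, Good S J j ⊆ Good S (J + 1) j := by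
  induction J with
  | zero =>
    intro j x hx
    obtain ⟨R, h1, h2, h3, h4⟩ := exists_ring S (0 + 1) j
    rw [good_zero S j] at hx
    rw [← h1]
    have h5 : ks ρ (C.N j) ≤ R := by
      refine Subring.closure_le.2 ?_
      rintro _ ⟨g, hg, rfl⟩
      exact h4 g hg
    exact h5 hx
  | succ J ih =>
    intro j x hx
    by_cases h : S.t j = 1
    · rw [good_one S _ j h] at hx ⊢
      exact ih (j + 1) hx
    · rw [good_succ S _ j h] at hx ⊢
      exact ⟨hx.1, fun u => ih (j + 1) (hx.2 u)⟩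

lemma good_mono' {J J' : ℕ} (h : J ≤ J') (j : ℕ) : Good S J j ⊆ Good S J' j := by
  induction h with
  | refl => exact subset_rfl
  | step h ih => exact ih.trans (good_mono S _ j)

/-- the inverse of an element with good coefficients -/
lemma inv_good (J j : ℕ) (h : S.t j ≠ 1) {x : E} (hx : x ∈ cl ρ (C.N j)) (hxR : ∀ u, (S.st j h).κ x u ∈ Good S J (j + 1))
    (u0 : ℤ) (h0 : ∀ u, u < u0 → (S.st j h).κ x u = 0) (h1 : (S.st j h).κ x u0 ≠ 0)
    (h2 : ((S.st j h).κ x u0)⁻¹ ∈ Good S J (j + 1)) : x⁻¹ ∈ Good S (J + 1) j := by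
  obtain ⟨R, e1, e2, e3, e4⟩ := exists_ring S J (j + 1)
  rw [good_succ S J j h]
  refine ⟨Subfield.inv_mem _ hx, fun v => ?_⟩
  rw [← e1] at h2 ⊢
  refine inv_mem (S.st j h) R (fun i x hx => ?_) hx (fun u => ?_) u0 h0 h1 h2 v
  · rw [tw_eq]
    exact e3 _ _ hx
  · have := hxR u
    rwa [← e1] at this

/-- the inverse of a sum of elements of the group -/
theorem sum_inv (m : ℕ) : ∀ (j : ℕ) (A : Finset K), A.Nonempty → (∀ g ∈ A, g ∈ C.N j) →
    (∀ g ∈ A, ∀ h ∈ A, g * h⁻¹ ∈ C.N (j + m) → g = h) →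
    (∑ g ∈ A, ((ρ g : Eˣ) : E)) ≠ 0 ∧ (∑ g ∈ A, ((ρ g : Eˣ) : E))⁻¹ ∈ Good S m j := by
  classical
  induction m with
  | zero =>
    intro j A hA hN hsep
    obtain ⟨g, hg⟩ := hA
    have h1 : A = {g} := by
      refine Finset.eq_singleton_iff_unique_mem.2 ⟨hg, fun h hh => ?_⟩
      exact hsep h hh g hg ((C.N j).mul_mem (hN h hh) ((C.N j).inv_mem (hN g hg)))
    rw [h1, Finset.sum_singleton]
    refine ⟨(ρ g).ne_zero, ?_⟩
    rw [good_zero S j]
    have h2 : (((ρ g : Eˣ) : E))⁻¹ = ((ρ g⁻¹ : Eˣ) : E) := by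
      rw [map_inv, Units.val_inv_eq_inv_val]
    rw [h2]
    exact mem_ks ρ ((C.N j).inv_mem (hN g hg))
  | succ m ih =>
    intro j A hA hN hsep
    have hjm : j + (m + 1) = j + 1 + m := by omega
    rw [hjm] at hsep
    by_cases h : S.t j = 1
    · rw [good_one S m j h]
      exact ih (j + 1) A hA (fun g hg => N_eq S j h (hN g hg)) hsep
    · -- the degrees
      have hdeg : ∀ g : K, ∃ n : ℤ, g ∈ A → g * S.t j ^ (-n) ∈ C.N (j + 1) := by
        intro g
        by_cases hg : g ∈ A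
        · obtain ⟨n, hn⟩ := S.gen j g (hN g hg)
          exact ⟨n, fun _ => hn⟩
        · exact ⟨0, fun h => absurd h hg⟩
      choose n hn using hdeg
      set p := ∑ g ∈ A, ((ρ g : Eˣ) : E) with hp
      have hpc : p ∈ cl ρ (C.N j) := Subfield.sum_mem _ fun g hg => Subfield.subset_closure ⟨g, hN g hg, rfl⟩
      have hκ : ∀ u, (S.st j h).κ p u = ∑ g ∈ A.filter (fun g => n g = u), ((ρ (g * S.t j ^ (-u)) : Eˣ) : E) := by
        intro u
        rw [hp, map_sum, Finset.sum_apply, Finset.sum_filter]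
        refine Finset.sum_congr rfl fun g hg => ?_
        rw [κ_ρ S j h (hn g hg)]
        by_cases hu : u = n g
        · rw [if_pos hu, if_pos hu.symm, ← hu]
        · rw [if_neg hu, if_neg (Ne.symm hu)]
      -- the least degree
      obtain ⟨g0, hg0, hmin⟩ := Finset.exists_min_image A n hA
      let A0 : Finset K := (A.filter (fun g => n g = n g0)).image fun g => g * S.t j ^ (-n g0)
      have hinj : Function.Injective fun g : K => g * S.t j ^ (-n g0) := mul_left_injective _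
      have hκ0 : (S.st j h).κ p (n g0) = ∑ g ∈ A0, ((ρ g : Eˣ) : E) := by
        rw [hκ, Finset.sum_image (fun x _ y _ hxy => hinj hxy)]
      obtain ⟨h5, h6⟩ := ih (j + 1) A0 ⟨g0 * S.t j ^ (-n g0), Finset.mem_image_of_mem _
        (Finset.mem_filter.2 ⟨hg0, rfl⟩)⟩ (fun x hx => by
        obtain ⟨g, hg, rfl⟩ := Finset.mem_image.1 hx
        obtain ⟨hg1, hg2⟩ := Finset.mem_filter.1 hg
        have := hn g hg1
        rwa [hg2] at this) (fun x hx y hy hxy => by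
        obtain ⟨g, hg, rfl⟩ := Finset.mem_image.1 hx
        obtain ⟨g', hg', rfl⟩ := Finset.mem_image.1 hy
        have e1 : g * S.t j ^ (-n g0) * (g' * S.t j ^ (-n g0))⁻¹ = g * g'⁻¹ := by group
        rw [e1] at hxy
        rw [hsep g (Finset.mem_filter.1 hg).1 g' (Finset.mem_filter.1 hg').1 hxy])
      rw [← hκ0] at h5 h6
      refine ⟨fun h7 => h5 (by rw [h7, map_zero]; rfl), ?_⟩
      refine inv_good S m j h hpc (fun u => ?_) (n g0) (fun u hu => ?_) h5 h6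
      · obtain ⟨R, e1, e2, e3, e4⟩ := exists_ring S m (j + 1)
        rw [hκ, ← e1]
        refine R.sum_mem fun g hg => e4 _ ?_
        obtain ⟨hg1, hg2⟩ := Finset.mem_filter.1 hg
        have := hn g hg1
        rwa [hg2] at this
      · rw [hκ]
        refine Finset.sum_eq_zero fun g hg => ?_
        obtain ⟨hg1, hg2⟩ := Finset.mem_filter.1 hg
        have := hmin g hg1
        omega

/-- inverses of good elements are good -/
theorem exists_inv (J : ℕ) : ∀ (j : ℕ) (x : E), x ∈ Good S J j → x ≠ 0 → ∃ J', x⁻¹ ∈ Good S J' j := by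
  induction J with
  | zero =>
    intro j x hx hx0
    rw [good_zero S j] at hx
    obtain ⟨A, hA, rfl⟩ := exists_finset ρ hx
    obtain ⟨m, hm⟩ := exists_sep C A j
    have hne : A.Nonempty := by
      rw [Finset.nonempty_iff_ne_empty]
      rintro rfl
      exact hx0 Finset.sum_empty
    exact ⟨m, (sum_inv S m j A hne hA hm).2⟩
  | succ J ih =>
    intro j x hx hx0
    by_cases h : S.t j = 1
    · rw [good_one S J j h] at hx
      obtain ⟨J', hJ'⟩ := ih (j + 1) x hx hx0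
      exact ⟨J' + 1, by rw [good_one S J' j h]; exact hJ'⟩
    · rw [good_succ S J j h] at hx
      obtain ⟨hx1, hx2⟩ := hx
      have hne : ∃ u, (S.st j h).κ x u ≠ 0 := by
        by_contra hcon
        push Not at hcon
        exact hx0 ((S.st j h).inj x hx1 hcon)
      obtain ⟨a, ha⟩ := (S.st j h).bdd x
      obtain ⟨u0, e1, e2⟩ := Int.exists_least_of_bdd (P := fun i => (S.st j h).κ x i ≠ 0) ⟨a, fun z hz => by
        by_contra h3
        exact hz (ha z (by omega))⟩ hne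
      obtain ⟨J', hJ'⟩ := ih (j + 1) _ (hx2 u0) e1
      refine ⟨max J J' + 1, inv_good S _ j h hx1 (fun u => good_mono' S (le_max_left J J') _ (hx2 u)) u0 (fun u hu => ?_)
        e1 (good_mono' S (le_max_right J J') _ hJ')⟩
      by_contra h3
      have := e2 u h3
      omega

end good

end GoodP

open GoodP in
theorem good_elem {K : Type} [Group K] {C : Chain K} {E : Type} [DivisionRing E] [Algebra (ZMod 2) E] {ρ : K →* Eˣ}
    (S : Steps C ρ) (x : E) (hx : x ∈ cl ρ (C.N 0)) : ∃ J, x ∈ Good S J 0 := by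
  have hx' : x ∈ Subfield.closure ((fun g : K => ((ρ g : Eˣ) : E)) '' (C.N 0 : Set K)) := hx
  clear hx
  induction hx' using Subfield.closure_induction with
  | mem x h =>
    obtain ⟨g, hg, rfl⟩ := h
    refine ⟨0, ?_⟩
    rw [good_zero S 0]
    exact mem_ks ρ hg
  | one =>
    refine ⟨0, ?_⟩
    rw [good_zero S 0]
    exact (ks ρ (C.N 0)).one_mem
  | add x y _ _ hx hy =>
    obtain ⟨J, hJ⟩ := hx
    obtain ⟨J', hJ'⟩ := hy
    obtain ⟨R, e1, _⟩ := exists_ring S (max J J') 0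
    refine ⟨max J J', ?_⟩
    have h1 := good_mono' S (le_max_left J J') 0 hJ
    have h2 := good_mono' S (le_max_right J J') 0 hJ'
    rw [← e1] at h1 h2 ⊢
    exact R.add_mem h1 h2
  | neg x _ hx =>
    obtain ⟨J, hJ⟩ := hx
    obtain ⟨R, e1, _⟩ := exists_ring S J 0
    refine ⟨J, ?_⟩
    rw [← e1] at hJ ⊢
    exact R.neg_mem hJ
  | inv x _ hx =>
    obtain ⟨J, hJ⟩ := hx
    by_cases hx0 : x = 0
    · exact ⟨J, by rwa [hx0, inv_zero, ← hx0]⟩
    · exact exists_inv S J 0 x hJ hx0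
  | mul x y _ _ hx hy =>
    obtain ⟨J, hJ⟩ := hx
    obtain ⟨J', hJ'⟩ := hy
    obtain ⟨R, e1, _⟩ := exists_ring S (max J J') 0
    refine ⟨max J J', ?_⟩
    have h1 := good_mono' S (le_max_left J J') 0 hJ
    have h2 := good_mono' S (le_max_right J J') 0 hJ'
    rw [← e1] at h1 h2 ⊢
    exact R.mul_mem h1 h2

open GoodP in
/-- **X2b** -/
theorem good : StmtGood := by
  classical
  intro K _ C E _ _ ρ S X hX
  induction X using Finset.induction_on with
  | empty => exact ⟨0, fun x hx => absurd hx (Finset.notMem_empty x)⟩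
  | insert a X _ ih =>
    obtain ⟨J, hJ⟩ := ih fun x hx => hX x (Finset.mem_insert_of_mem hx)
    obtain ⟨J', hJ'⟩ := good_elem S a (hX a (Finset.mem_insert_self a X))
    refine ⟨max J J', fun x hx => ?_⟩
    rcases Finset.mem_insert.1 hx with rfl | hx
    · exact good_mono' S (le_max_right J J') 0 hJ'
    · exact good_mono' S (le_max_left J J') 0 (hJ x hx)

end SQ.T3
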