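import Pool.Agent.SQ.T3.Final
import Pool.Agent.SQ.T3.Steps
import Pool.Agent.SQ.T3.Good
import Pool.Agent.SQ.T3.Tor
import Pool.Agent.SQ.T3.StepX

/-!
# SQ, third stage: the vanishing theorem for the residually torsion-free nilpotent groups
-/

set_option autoImplicit false

namespace SQ.T3

open Singer

/-- **the vanishing theorem for the residually unitriangular Poincare duality groups** -/
theorem vanE_resUT {K : Type} [Group K] (hK : T2.ResUT K ⊥) {n : ℕ} (hn : IsPD n K) (R : FinRes K) (i : ℕ)
    (hi : 2 * i ≠ n) : R.VanE i :=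
  vanE_resUT_of (s_steps stmtStep) s_ind good tor lem hK hn R i hi

/-- **the vanishing theorem for the Poincare duality groups with a residually unitriangular subgroup of finite index** -/
theorem vanE_virtual_resUT {Γ : Type} [Group Γ] (H : Subgroup Γ) [H.FiniteIndex] (hT : T2.ResUT H ⊥)
    {n : ℕ} (hPD : IsPD n Γ ∨ IsPD n H) (R : FinRes Γ) (i : ℕ) (hi : 2 * i ≠ n) : R.VanE i :=
  vanE_virtual_resUT_of (s_steps stmtStep) s_ind good tor H hT hPD R i hi

end SQ.T3
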