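import Pool.Agent.SQ.T3.Lev

/-!
# SQ, third stage: from the skew field generated by the group to a larger one
-/

set_option autoImplicit false

noncomputable section

namespace SQ.T3

open Singer

section
variable {K : Type} [Group K] {E : Type} [DivisionRing E] [Algebra (ZMod 2) E] (ρ : K →* Eˣ)

/-- a left basis of the big skew field over the small one: coordinates and vectors -/
theorem exists_basis : ∃ (ι : Type) (co : E → ι →₀ SF ρ) (b : ι → E), (∀ x y, co (x + y) = co x + co y) ∧
    (∀ (c : SF ρ) (x : E), co (val ρ c * x) = c • co x) ∧ (∀ x, ((co x).sum fun l c => val ρ c * b l) = x) := by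
  let _ : Module (SF ρ) E := Module.compHom E (val ρ)
  let b := Module.Basis.ofVectorSpace (SF ρ) E
  refine ⟨_, fun x => b.repr x, fun l => b l, fun x y => map_add _ _ _, fun c x => ?_, fun x => ?_⟩
  · exact b.repr.map_smul c x
  · exact b.linearCombination_repr x

theorem cobd_def {α β : Type} [Fintype β] (P : Matrix α β (MonoidAlgebra ℤ K)) (f : β → E) (a : α) :
    cobd (lmul ρ) P f a = ∑ b, ∑ g ∈ (P a b).coeff.support, ((P a b).coeff g : ZMod 2) • (((ρ g : Eˣ) : E) * f b) := rfl

/-- the base change -/
theorem ex_base (R : FinRes K) (i : ℕ) (h : Ex (lmul (sρ ρ)) R i) : Ex (lmul ρ) R i := by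
  classical
  obtain ⟨ι, co, b, hadd, hmul, hsum⟩ := exists_basis ρ
  let coA : ι → E →+ SF ρ := fun l =>
    { toFun := fun x => co x l
      map_zero' := by
        have h1 := hadd 0 0
        rw [add_zero] at h1
        have h2 : co 0 = 0 := by
          have h3 := congrArg (fun z => z - co 0) h1
          simp only [sub_self, add_sub_cancel_right] at h3
          exact h3.symm
        rw [h2, Finsupp.zero_apply]
      map_add' := fun x y => by rw [hadd, Finsupp.add_apply] }
  have hco : ∀ l x, coA l x = co x l := fun _ _ => rfl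
  have hcomp : ∀ {α β : Type} [Fintype β] (P : Matrix α β (MonoidAlgebra ℤ K)) (f : β → E) (a : α) (l : ι),
      co (cobd (lmul ρ) P f a) l = cobd (lmul (sρ ρ)) P (fun y => co (f y) l) a := by
    intro α β _ P f a l
    rw [cobd_def, cobd_def, ← hco, map_sum]
    refine Finset.sum_congr rfl fun y _ => ?_
    rw [map_sum]
    refine Finset.sum_congr rfl fun g _ => ?_
    rw [ZMod.map_smul (coA l), hco]
    have h2 := hmul ((sρ ρ g : (SF ρ)ˣ) : SF ρ) (f y)
    rw [val_sρ] at h2
    rw [h2, Finsupp.smul_apply, smul_eq_mul]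
  have hback : ∀ {α β : Type} [Fintype β] (P : Matrix α β (MonoidAlgebra ℤ K)) (S : Finset ι) (e : ι → β → SF ρ) (a : α),
      cobd (lmul ρ) P (fun y => ∑ l ∈ S, val ρ (e l y) * b l) a =
        ∑ l ∈ S, val ρ (cobd (lmul (sρ ρ)) P (e l) a) * b l := by
    intro α β _ P S e a
    have h1 : ∀ l, val ρ (cobd (lmul (sρ ρ)) P (e l) a) * b l =
        ∑ y, ∑ g ∈ (P a y).coeff.support, ((P a y).coeff g : ZMod 2) • (((ρ g : Eˣ) : E) * (val ρ (e l y) * b l)) := by
      intro l
      let mA : SF ρ →+ E :=
        { toFun := fun x => val ρ x * b l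
          map_zero' := by rw [map_zero, zero_mul]
          map_add' := fun x y => by rw [map_add, add_mul] }
      have hm : ∀ x, mA x = val ρ x * b l := fun _ => rfl
      rw [cobd_def, ← hm, map_sum]
      refine Finset.sum_congr rfl fun y _ => ?_
      rw [map_sum]
      refine Finset.sum_congr rfl fun g _ => ?_
      rw [ZMod.map_smul mA, hm, ← mul_assoc, map_mul, val_sρ]
    rw [cobd_def]
    simp only [h1, Finset.mul_sum, Finset.smul_sum]
    rw [Finset.sum_comm]
    refine Finset.sum_congr rfl fun y _ => ?_
    rw [Finset.sum_comm]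
  have hzero : ∀ x, (∀ l, co x l = 0) → x = 0 := by
    intro x hx
    rw [← hsum x, Finsupp.sum, Finset.sum_eq_zero]
    intro l _
    rw [hx l, map_zero, zero_mul]
  have hz0 : ∀ l, co (0 : E) l = 0 := fun l => (coA l).map_zero
  cases i with
  | zero =>
    intro f hf
    funext y
    rw [Pi.zero_apply]
    refine hzero _ fun l => ?_
    have h1 := h (fun y => co (f y) l) (by
      funext a
      rw [← hcomp, hf, Pi.zero_apply, Pi.zero_apply]
      exact hz0 l)
    exact congrFun h1 y
  | succ i =>
    intro f hf
    have h1 : ∀ l, ∃ e, cobd (lmul (sρ ρ)) (R.d i) e = fun y => co (f y) l := fun l => h (fun y => co (f y) l) (by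
      funext a
      rw [← hcomp, hf, Pi.zero_apply, Pi.zero_apply]
      exact hz0 l)
    choose e he using h1
    let S : Finset ι := Finset.univ.biUnion fun y => (co (f y)).support
    refine ⟨fun y => ∑ l ∈ S, val ρ (e l y) * b l, ?_⟩
    funext a
    rw [hback]
    conv_rhs => rw [← hsum (f a)]
    rw [Finsupp.sum_of_support_subset (s := S)]
    · refine Finset.sum_congr rfl fun l _ => ?_
      rw [he]
    · exact Finset.subset_biUnion_of_mem (fun y => (co (f y)).support) (Finset.mem_univ a)
    · intro l _
      rw [map_zero, zero_mul]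

end

end SQ.T3
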