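import Pool.Agent.SQ.T3.Defs
import Pool.Agent.SQ.T2.Rep
import Pool.Agent.SQ.Growth
import Pool.Agent.SQ.Order

/-!
# SQ, third stage: the chain of subgroups of a residually unitriangular group (row X4a)
-/

set_option autoImplicit false

noncomputable section

namespace SQ.T3

open Filter

/-! ### coordinates -/

/-- a sequence of functions to `ℤ` each of which is an invariant homomorphism where the previous ones vanish -/
structure Coord (K : Type) [Group K] where
  φ : ℕ → K → ℤ
  mul : ∀ (j : ℕ) (g h : K), (∀ i < j, φ i g = 0) → (∀ i < j, φ i h = 0) → φ j (g * h) = φ j g + φ j h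
  conj : ∀ (j : ℕ) (k g : K), (∀ i < j, φ i g = 0) → φ j (k * g * k⁻¹) = φ j g

namespace Coord

variable {K : Type} [Group K] (C : Coord K)

theorem one (j : ℕ) : C.φ j 1 = 0 := by
  induction j using Nat.strong_induction_on with
  | _ j ih =>
    have h := C.mul j 1 1 ih ih
    rw [mul_one] at h
    omega

theorem inv {j : ℕ} {g : K} (h : ∀ i < j, C.φ i g = 0) : ∀ i < j, C.φ i g⁻¹ = 0 := by
  intro i
  induction i using Nat.strong_induction_on with
  | _ i ih =>
    intro hi
    have h1 := C.mul i g g⁻¹ (fun l hl => h l (hl.trans hi)) (fun l hl => ih l hl (hl.trans hi))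
    rw [mul_inv_cancel, C.one, h i hi] at h1
    omega

/-- the subgroups -/
def N (j : ℕ) : Subgroup K where
  carrier := {g | ∀ i < j, C.φ i g = 0}
  one_mem' := fun i _ => C.one i
  mul_mem' := by
    intro g h hg hh i hi
    rw [C.mul i g h (fun l hl => hg l (hl.trans hi)) (fun l hl => hh l (hl.trans hi)), hg i hi, hh i hi, add_zero]
  inv_mem' := fun h => C.inv h

theorem mem_N {j : ℕ} {g : K} : g ∈ C.N j ↔ ∀ i < j, C.φ i g = 0 := Iff.rfl

theorem normal (j : ℕ) : (C.N j).Normal := ⟨by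
  intro g hg k i hi
  rw [C.conj i k g fun l hl => hg l (hl.trans hi)]
  exact hg i hi⟩

/-- the chain of the coordinates -/
def chain (h : ∀ g, (∀ j, C.φ j g = 0) → g = 1) : Chain K where
  N := C.N
  normal := C.normal
  chi := fun j =>
    { toFun := fun g => Multiplicative.ofAdd (C.φ j g)
      map_one' := by rw [Subgroup.coe_one, C.one, ofAdd_zero]
      map_mul' := fun g h => by rw [Subgroup.coe_mul, C.mul j g h g.2 h.2, ofAdd_add] }
  zero := by
    rw [eq_top_iff]
    intro g _ i hi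
    exact absurd hi (Nat.not_lt_zero i)
  succ := by
    intro j g
    constructor
    · intro hg
      refine ⟨fun i hi => hg i (hi.trans (Nat.lt_succ_self j)), ?_⟩
      show Multiplicative.ofAdd (C.φ j g) = 1
      rw [hg j (Nat.lt_succ_self j), ofAdd_zero]
    · rintro ⟨h1, h2⟩ i hi
      rcases Nat.lt_succ_iff_lt_or_eq.1 hi with h3 | rfl
      · exact h1 i h3
      · have h3 : Multiplicative.ofAdd (C.φ i g) = 1 := h2
        exact ofAdd_eq_one.1 h3
  conj := by
    intro j k g hg
    show Multiplicative.ofAdd (C.φ j (k * g * k⁻¹)) = Multiplicative.ofAdd (C.φ j g)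
    rw [C.conj j k g hg]
  inf := fun g hg => h g fun j => hg (j + 1) j (Nat.lt_succ_self j)

end Coord

section combine
variable {K : Type} [Group K]

theorem pair_aux {j i : ℕ} (hi : i < (Nat.unpair j).2) : Nat.pair (Nat.unpair j).1 i < j := by
  have h := Nat.pair_lt_pair_right (Nat.unpair j).1 hi
  rwa [Nat.pair_unpair] at h

/-- interleaving countably many families of coordinates -/
def combine (C : ℕ → Coord K) : Coord K where
  φ := fun j => (C (Nat.unpair j).1).φ (Nat.unpair j).2
  mul := by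
    intro j g h hg hh
    refine (C _).mul _ g h (fun i hi => ?_) (fun i hi => ?_)
    · have h1 := hg _ (pair_aux hi)
      rwa [Nat.unpair_pair] at h1
    · have h1 := hh _ (pair_aux hi)
      rwa [Nat.unpair_pair] at h1
  conj := by
    intro j k g hg
    refine (C _).conj _ k g (fun i hi => ?_)
    have h1 := hg _ (pair_aux hi)
    rwa [Nat.unpair_pair] at h1

end combine

/-! ### the coordinates of a unitriangular representation -/

section ut
variable {n : ℕ}

/-- unitriangular -/
def UTri (M : Matrix (Fin n) (Fin n) ℤ) : Prop := (∀ i j : Fin n, j < i → M i j = 0) ∧ ∀ i, M i i = 1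

theorem mul_entry {M M' : Matrix (Fin n) (Fin n) ℤ} (h : UTri M) (h' : UTri M') {a b : Fin n} (hab : a < b)
    (hc : ∀ l, a < l → l < b → M a l = 0 ∨ M' l b = 0) : (M * M') a b = M a b + M' a b := by
  rw [Matrix.mul_apply]
  have h1 : ∀ l ∈ (Finset.univ : Finset (Fin n)), l ≠ a → l ≠ b → M a l * M' l b = 0 := by
    intro l _ h2 h3
    rcases lt_trichotomy l a with h4 | h4 | h4
    · rw [h.1 a l h4, zero_mul]
    · exact absurd h4 h2
    · rcases lt_trichotomy l b with h5 | h5 | h5
      · rcases hc l h4 h5 with h6 | h6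
        · rw [h6, zero_mul]
        · rw [h6, mul_zero]
      · exact absurd h5 h3
      · rw [h'.1 l b h5, mul_zero]
  rw [← Finset.add_sum_erase _ _ (Finset.mem_univ a), ← Finset.add_sum_erase _ _
    (Finset.mem_erase.2 ⟨hab.ne', Finset.mem_univ b⟩), Finset.sum_eq_zero, add_zero, h.2, h'.2, one_mul, mul_one, add_comm]
  intro l hl
  rw [Finset.mem_erase, Finset.mem_erase] at hl
  exact h1 l (Finset.mem_univ l) hl.2.1 hl.1

/-- the entry with number `s` above the diagonal -/
def ent (M : Matrix (Fin n) (Fin n) ℤ) (s : ℕ) : ℤ :=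
  if h : s % n < n ∧ s % n + (s / n + 1) < n then M ⟨s % n, h.1⟩ ⟨s % n + (s / n + 1), h.2⟩ else 0

theorem ent_cond {M : Matrix (Fin n) (Fin n) ℤ} {s : ℕ} (h : ∀ i < s, ent M i = 0) (a b : Fin n) (hab : a < b)
    (hd : (b : ℕ) - a < s / n + 1) : M a b = 0 := by
  have h0 : 0 < n := lt_of_le_of_lt (Nat.zero_le _) a.2
  have hab' : (a : ℕ) < b := hab
  have hi : n * ((b : ℕ) - a - 1) + a < s := by
    have h1 : (b : ℕ) - a - 1 + 1 ≤ s / n := by omega
    have h2 : n * ((b : ℕ) - a - 1 + 1) ≤ n * (s / n) := Nat.mul_le_mul_left n h1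
    have h3 : n * (s / n) ≤ s := Nat.mul_div_le s n
    have h4 := a.2
    rw [Nat.mul_add, Nat.mul_one] at h2
    omega
  have h1 := h _ hi
  unfold ent at h1
  have h2 : (n * ((b : ℕ) - a - 1) + a) % n = a := by
    rw [Nat.mul_add_mod, Nat.mod_eq_of_lt a.2]
  have h3 : (n * ((b : ℕ) - a - 1) + a) / n = (b : ℕ) - a - 1 := by
    rw [Nat.mul_add_div h0, Nat.div_eq_of_lt a.2, add_zero]
  have h4 : (n * ((b : ℕ) - a - 1) + a) % n + ((n * ((b : ℕ) - a - 1) + a) / n + 1) = b := by
    rw [h2, h3]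
    omega
  rw [dif_pos ⟨by rw [h2]; exact a.2, by rw [h4]; exact b.2⟩] at h1
  have h5 : (⟨(n * ((b : ℕ) - a - 1) + a) % n, by rw [h2]; exact a.2⟩ : Fin n) = a := Fin.ext h2
  have h6 : (⟨(n * ((b : ℕ) - a - 1) + a) % n + ((n * ((b : ℕ) - a - 1) + a) / n + 1), by rw [h4]; exact b.2⟩ : Fin n) = b :=
    Fin.ext h4
  rwa [h5, h6] at h1

theorem ent_mul {M M' : Matrix (Fin n) (Fin n) ℤ} (h : UTri M) (h' : UTri M') {s : ℕ}
    (hc : (∀ i < s, ent M i = 0) ∨ (∀ i < s, ent M' i = 0)) : ent (M * M') s = ent M s + ent M' s := by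
  unfold ent
  split_ifs with hs
  · refine mul_entry h h' (Nat.lt_add_of_pos_right (Nat.succ_pos _) : s % n < s % n + (s / n + 1)) ?_
    intro l h1 h2
    have h1' : s % n < (l : ℕ) := h1
    have h2' : (l : ℕ) < s % n + (s / n + 1) := h2
    rcases hc with hc | hc
    · exact Or.inl (ent_cond hc _ l h1 (by show (l : ℕ) - s % n < _; omega))
    · exact Or.inr (ent_cond hc l _ h2 (by show s % n + (s / n + 1) - (l : ℕ) < _; omega))
  · rfl

theorem eq_one_of_ent {M : Matrix (Fin n) (Fin n) ℤ} (h : UTri M) (hc : ∀ s, ent M s = 0) : M = 1 := by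
  ext a b
  rcases lt_trichotomy a b with hab | hab | hab
  · rw [Matrix.one_apply_ne hab.ne]
    refine ent_cond (s := n * b) (fun i _ => hc i) a b hab ?_
    have h0 : 0 < n := lt_of_le_of_lt (Nat.zero_le _) a.2
    rw [Nat.mul_div_cancel_left _ h0]
    have h1 : (a : ℕ) < b := hab
    omega
  · rw [hab, h.2, Matrix.one_apply_eq]
  · rw [h.1 a b hab, Matrix.one_apply_ne hab.ne']

variable {K : Type} [Group K]

/-- the coordinates of a unitriangular representation -/
def utCoord (π : K →* (Matrix (Fin n) (Fin n) ℤ)ˣ) (h : ∀ k, UTri ((π k : (Matrix (Fin n) (Fin n) ℤ)ˣ) : Matrix (Fin n) (Fin n) ℤ)) :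
    Coord K where
  φ := fun s k => ent ((π k : (Matrix (Fin n) (Fin n) ℤ)ˣ) : Matrix (Fin n) (Fin n) ℤ) s
  mul := by
    intro s g g' hg _
    rw [map_mul, Units.val_mul]
    exact ent_mul (h g) (h g') (Or.inl hg)
  conj := by
    intro s k g
    induction s using Nat.strong_induction_on with
    | _ s ih =>
      intro hg
      have h1 := ent_mul (s := s) (h k) (h g) (Or.inr hg)
      have h2 := ent_mul (s := s) (h (k * g * k⁻¹)) (h k) (Or.inl fun i hi => by
        rw [ih i hi fun l hl => hg l (hl.trans hi)]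
        exact hg i hi)
      rw [← Units.val_mul, ← map_mul] at h1 h2
      rw [inv_mul_cancel_right] at h2
      omega

end ut

/-! ### growth -/

section growth

open scoped Pointwise

theorem growth_quot {K G : Type} [Group K] [Group G] (P : K →* G) (hG : PolyGrowth G) (N : Subgroup K) [N.Normal]
    (h : P.ker ≤ N) : PolyGrowth (K ⧸ N) := by
  classical
  letI : DecidableEq (K ⧸ N) := fun a b => Classical.propDecidable (a = b)
  intro S
  let S' : Finset K := S.image Quotient.out
  obtain ⟨C, k, hC⟩ := hG (S'.image P)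
  refine ⟨C, k, fun n => ?_⟩
  have h1 : S = S'.image (QuotientGroup.mk' N) := by
    have h0 : ((QuotientGroup.mk' N) ∘ Quotient.out : K ⧸ N → K ⧸ N) = id := funext fun x => QuotientGroup.out_eq' x
    rw [Finset.image_image, h0, Finset.image_id]
  have h2 : S ^ n = (S' ^ n).image (QuotientGroup.mk' N) := by
    conv_lhs => rw [h1]
    exact (Finset.image_pow (QuotientGroup.mk' N) S' n).symm
  have h3 : (S'.image P) ^ n = (S' ^ n).image P := (Finset.image_pow P S' n).symm
  have h4 : ((S' ^ n).image (QuotientGroup.mk' N)).card ≤ ((S' ^ n).image P).card := by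
    let ψ : G → K ⧸ N := fun y => if hy : ∃ x, P x = y then (hy.choose : K ⧸ N) else 1
    have h5 : (S' ^ n).image (QuotientGroup.mk' N) = ((S' ^ n).image P).image ψ := by
      rw [Finset.image_image]
      refine Finset.image_congr fun x _ => ?_
      have hy : ∃ x', P x' = P x := ⟨x, rfl⟩
      show (x : K ⧸ N) = ψ (P x)
      have h6 : ψ (P x) = (hy.choose : K ⧸ N) := dif_pos hy
      rw [h6, eq_comm, QuotientGroup.eq]
      refine h ?_
      rw [MonoidHom.mem_ker, map_mul, map_inv, hy.choose_spec, inv_mul_cancel]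
    rw [h5]
    exact Finset.card_image_le
  have h5 : (S ^ n).card ≤ ((S'.image P) ^ n).card := by
    rw [h2, h3]
    exact h4
  exact h5.trans (hC n)

end growth

section main
variable {K : Type} [Group K]

/-- the product of unitriangular representations -/
theorem exists_PU {P : Type} (n : P → ℕ) (π : ∀ p, K →* (Matrix (Fin (n p)) (Fin (n p)) ℤ)ˣ)
    (h : ∀ p k, UTri ((π p k : (Matrix (Fin (n p)) (Fin (n p)) ℤ)ˣ) : Matrix (Fin (n p)) (Fin (n p)) ℤ)) :
    ∃ F : K →* PU (∀ p, Matrix (Fin (n p)) (Fin (n p)) ℤ), ∀ k d p,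
      PowerSeries.coeff d (((F k : PU (∀ p, Matrix (Fin (n p)) (Fin (n p)) ℤ)) :
        (PowerSeries (∀ p, Matrix (Fin (n p)) (Fin (n p)) ℤ))ˣ) : PowerSeries (∀ p, Matrix (Fin (n p)) (Fin (n p)) ℤ)) p =
        T2.diagPart ((π p k : (Matrix (Fin (n p)) (Fin (n p)) ℤ)ˣ) : Matrix (Fin (n p)) (Fin (n p)) ℤ) d := by
  let f : K → ℕ → ∀ p, Matrix (Fin (n p)) (Fin (n p)) ℤ := fun k d p =>
    T2.diagPart ((π p k : (Matrix (Fin (n p)) (Fin (n p)) ℤ)ˣ) : Matrix (Fin (n p)) (Fin (n p)) ℤ) d
  have hf : ∀ k d p, f k d p =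
    T2.diagPart ((π p k : (Matrix (Fin (n p)) (Fin (n p)) ℤ)ˣ) : Matrix (Fin (n p)) (Fin (n p)) ℤ) d := fun _ _ _ => rfl
  let F : K →* PowerSeries (∀ p, Matrix (Fin (n p)) (Fin (n p)) ℤ) :=
    { toFun := fun k => PowerSeries.mk (f k)
      map_one' := by
        refine PowerSeries.ext fun d => ?_
        rw [PowerSeries.coeff_mk, PowerSeries.coeff_one]
        funext p
        have h1 := congrArg (PowerSeries.coeff d) (T2.ser_one (m := n p))
        rw [T2.ser, PowerSeries.coeff_mk, PowerSeries.coeff_one] at h1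
        rw [hf, map_one, Units.val_one, h1]
        split_ifs <;> rfl
      map_mul' := fun x y => by
        refine PowerSeries.ext fun d => ?_
        rw [PowerSeries.coeff_mk, PowerSeries.coeff_mul]
        funext p
        have h1 := congrArg (PowerSeries.coeff d) (T2.ser_mul _ _ (h p x).1 (h p y).1)
        rw [T2.ser, T2.ser, T2.ser, PowerSeries.coeff_mk, PowerSeries.coeff_mul] at h1
        rw [hf, map_mul, Units.val_mul, h1, Finset.sum_apply]
        refine Finset.sum_congr rfl fun ab _ => ?_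
        rw [PowerSeries.coeff_mk, PowerSeries.coeff_mk, PowerSeries.coeff_mk, PowerSeries.coeff_mk, Pi.mul_apply, hf, hf] }
  have hF : ∀ k, PowerSeries.constantCoeff (F k) = 1 := by
    intro k
    rw [← PowerSeries.coeff_zero_eq_constantCoeff_apply]
    show PowerSeries.coeff 0 (PowerSeries.mk (f k)) = 1
    rw [PowerSeries.coeff_mk]
    funext p
    rw [hf]
    ext i j
    unfold T2.diagPart
    by_cases hij : i = j
    · subst hij
      rw [add_zero, if_pos rfl, (h p k).2]
      exact (Matrix.one_apply_eq i).symm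
    · rw [if_neg fun h => hij (Fin.ext (by omega))]
      exact (Matrix.one_apply_ne hij).symm
  refine ⟨T2.toPU F hF, fun k d p => ?_⟩
  rw [T2.toPU_coe]
  show PowerSeries.coeff d (PowerSeries.mk (f k)) p = _
  rw [PowerSeries.coeff_mk]

/-- **X4a** -/
theorem stmtChain : StmtChain := by
  intro K _ _ hK
  classical
  obtain ⟨e, he⟩ := exists_surjective_nat K
  have H : ∀ m : ℕ, ∃ (n : ℕ) (π : K →* (Matrix (Fin n) (Fin n) ℤ)ˣ),
      (∀ k, UTri ((π k : (Matrix (Fin n) (Fin n) ℤ)ˣ) : Matrix (Fin n) (Fin n) ℤ)) ∧ (π (e m) = 1 → e m = 1) := by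
    intro m
    by_cases hm : e m = 1
    · exact ⟨0, 1, fun k => ⟨fun i => i.elim0, fun i => i.elim0⟩, fun _ => hm⟩
    · obtain ⟨n, π, h1, h2, -, h4⟩ := hK (e m) fun h => hm (Subgroup.mem_bot.1 h)
      exact ⟨n, π, fun k => ⟨h1 k, h2 k⟩, fun h => absurd h h4⟩
  choose n π hπ1 hπ2 using H
  let C : Coord K := combine fun m => utCoord (π m) (hπ1 m)
  have hC : ∀ m s g, C.φ (Nat.pair m s) g = ent ((π m g : (Matrix (Fin (n m)) (Fin (n m)) ℤ)ˣ) : Matrix (Fin (n m)) (Fin (n m)) ℤ) s := by
    intro m s g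
    show (utCoord (π (Nat.unpair (Nat.pair m s)).1) (hπ1 (Nat.unpair (Nat.pair m s)).1)).φ (Nat.unpair (Nat.pair m s)).2 g = _
    rw [Nat.unpair_pair]
    rfl
  have hC1 : ∀ g, (∀ j, C.φ j g = 0) → g = 1 := by
    intro g hg
    obtain ⟨m, rfl⟩ := he g
    refine hπ2 m (Units.ext ?_)
    rw [Units.val_one]
    refine eq_one_of_ent (hπ1 m (e m)) fun s => ?_
    rw [← hC]
    exact hg _
  refine ⟨C.chain hC1, fun j => ⟨C.normal j, ?_⟩⟩
  show @PolyGrowth (K ⧸ C.N j) (@QuotientGroup.Quotient.group K _ (C.N j) (C.normal j))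
  have := C.normal j
  obtain ⟨F, hF⟩ := exists_PU (P := Fin j) (fun p => n p) (fun p => π p) (fun p k => hπ1 p k)
  let A : Type := ∀ p : Fin j, Matrix (Fin (n p)) (Fin (n p)) ℤ
  let c : ℕ := 1 + ∑ p : Fin j, n p
  have hc : ∀ p : Fin j, n p < c := by
    intro p
    have h1 := Finset.single_le_sum (f := fun p : Fin j => n p) (fun _ _ => Nat.zero_le _) (Finset.mem_univ p)
    show n p < 1 + ∑ p : Fin j, n p
    have h2 : (fun p : Fin j => n p) p = n p := rfl
    omega
  let Q : K →* (Fin 1 → UC A c) := MonoidHom.pi fun _ => (QuotientGroup.mk' (PK A c)).comp F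
  refine growth_quot Q (s_growth A c 1) (C.N j) ?_
  intro k hk
  have h1 : ((F k : PU A) : UC A c) = ((1 : PU A) : UC A c) := congrFun (MonoidHom.mem_ker.1 hk) 0
  have h2 : ∀ p : Fin j, π p k = 1 := by
    intro p
    refine Units.ext ?_
    rw [Units.val_one]
    refine T2.eq_one_of_ser (hπ1 p k).1 (PowerSeries.ext fun d => ?_)
    rw [← T2.ser_one, T2.ser, T2.ser, PowerSeries.coeff_mk, PowerSeries.coeff_mk]
    by_cases hd : d < c
    · have h3 := congrFun (coeff_eq_of_mk h1 hd) p
      rw [hF] at h3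
      rw [h3]
      have h4 := congrArg (PowerSeries.coeff d) (T2.ser_one (m := n p))
      rw [T2.ser, PowerSeries.coeff_mk, PowerSeries.coeff_one] at h4
      rw [h4, Subgroup.coe_one, Units.val_one, PowerSeries.coeff_one]
      split_ifs <;> rfl
    · have h3 : ∀ M : Matrix (Fin (n p)) (Fin (n p)) ℤ, T2.diagPart M d = 0 := by
        intro M
        ext a b
        unfold T2.diagPart
        have h4 := hc p
        have h5 := b.2
        rw [if_neg (by omega)]
        rfl
      rw [h3, h3]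
  intro i hi
  have h3 : (Nat.unpair i).1 < j := lt_of_le_of_lt (Nat.unpair_left_le i) hi
  have h4 := hC (Nat.unpair i).1 (Nat.unpair i).2 k
  rw [Nat.pair_unpair] at h4
  rw [h4, h2 ⟨(Nat.unpair i).1, h3⟩, Units.val_one]
  unfold ent
  split_ifs with h5
  · refine Matrix.one_apply_ne ?_
    intro h6
    have h8 : (Nat.unpair i).2 % n (Nat.unpair i).1 = (Nat.unpair i).2 % n (Nat.unpair i).1 +
      ((Nat.unpair i).2 / n (Nat.unpair i).1 + 1) := congrArg Fin.val h6
    exact absurd h8 (Nat.ne_of_lt (Nat.lt_add_of_pos_right (Nat.succ_pos _)))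
  · rfl

end main

end SQ.T3
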