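import Pool.Agent.SQ.Defs
import Pool.Agent.SQ.T2.Defs

/-!
# SQ, third stage: residually torsion-free nilpotent groups

Paper: team-store MP_984acc_RTFN_h31.md. The target is `StmtTor`: `H_q(K; D ⊗ D) = 0` for `q > 0`.
-/

set_option autoImplicit false

open scoped TensorProduct

namespace SQ.T3

open Singer

/-! ### the chain of subgroups -/

/-- a descending sequence of normal subgroups with central quotients which embed in `ℤ` -/
structure Chain (K : Type) [Group K] where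
  N : ℕ → Subgroup K
  normal : ∀ j, (N j).Normal
  chi : ∀ j, N j →* Multiplicative ℤ
  zero : N 0 = ⊤
  succ : ∀ j (g : K), g ∈ N (j + 1) ↔ ∃ h : g ∈ N j, chi j ⟨g, h⟩ = 1
  conj : ∀ j (k g : K) (h : g ∈ N j), chi j ⟨k * g * k⁻¹, (normal j).conj_mem g h k⟩ = chi j ⟨g, h⟩
  inf : ∀ g, (∀ j, g ∈ N j) → g = 1

/-- **X4a** -/
def StmtChain : Prop :=
  ∀ (K : Type) [Group K] [Countable K], T2.ResUT K ⊥ → ∃ C : Chain K, ∀ j, ∃ _ : (C.N j).Normal, PolyGrowth (K ⧸ C.N j)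

/-- **X4b** the quotients are bi-ordered -/
def StmtOrd : Prop :=
  ∀ (K : Type) [Group K] (C : Chain K) (j : ℕ) [(C.N j).Normal], ∃ _ : LinearOrder (K ⧸ C.N j),
    (∀ a b d : K ⧸ C.N j, a ≤ b → d * a ≤ d * b) ∧ ∀ a b d : K ⧸ C.N j, a ≤ b → a * d ≤ b * d

/-! ### one step -/

section step
variable {E : Type} [DivisionRing E]

/-- the skew Laurent polynomials `F[t, t⁻¹]` in `E` -/
def Lau (F : Subfield E) (t : Eˣ) : AddSubgroup E :=
  AddSubgroup.closure {x | ∃ f ∈ F, ∃ n : ℤ, x = f * ((t ^ n : Eˣ) : E)}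

/-- the expansion `x = ∑ κ x u * t ^ u` of the elements `x` of the field of fractions `L` of `F[t, t⁻¹]` (on the other elements of
`E` the map `κ` is arbitrary but additive, with values in the series bounded below) -/
structure Step (F L : Subfield E) (t : Eˣ) where
  κ : E →+ (ℤ → E)
  bdd : ∀ x, ∃ m : ℤ, ∀ u, u < m → κ x u = 0
  mem : ∀ x ∈ L, ∀ u, κ x u ∈ F
  mon : ∀ f ∈ F, ∀ n u : ℤ, κ (f * ((t ^ n : Eˣ) : E)) u = if u = n then f else 0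
  inj : ∀ x ∈ L, (∀ u, κ x u = 0) → x = 0
  mul : ∀ x ∈ L, ∀ y ∈ L, ∀ n, κ (x * y) n = ∑ᶠ i : ℤ, κ x i * (((t ^ i : Eˣ) : E) * κ y (n - i) * ((t ^ (-i) : Eˣ) : E))
  left_F : ∀ f ∈ F, ∀ x ∈ L, ∀ u, κ (f * x) u = f * κ x u
  left_t : ∀ x ∈ L, ∀ u, κ ((t : E) * x) u = (t : E) * κ x (u - 1) * ((t⁻¹ : Eˣ) : E)
  right_F : ∀ f ∈ F, ∀ x ∈ L, ∀ u, κ (x * f) u = κ x u * (((t ^ u : Eˣ) : E) * f * ((t ^ (-u) : Eˣ) : E))
  right_t : ∀ x ∈ L, ∀ u, κ (x * (t : E)) u = κ x (u - 1)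
  left : ∀ S : Finset E, (∀ x ∈ S, x ∈ L) → ∃ s ∈ Lau F t, s ≠ 0 ∧ ∀ x ∈ S, s * x ∈ Lau F t
  right : ∀ S : Finset E, (∀ x ∈ S, x ∈ L) → ∃ s ∈ Lau F t, s ≠ 0 ∧ ∀ x ∈ S, x * s ∈ Lau F t

/-- **X1** -/
def StmtStep : Prop :=
  ∀ (E : Type) [DivisionRing E] [Algebra (ZMod 2) E] (F : Subfield E) (t : Eˣ),
    (∀ f ∈ F, (t : E) * f * ((t⁻¹ : Eˣ) : E) ∈ F) → (∀ f ∈ F, ((t⁻¹ : Eˣ) : E) * f * (t : E) ∈ F) →
    (∀ c : ℤ →₀ E, (∀ u, c u ∈ F) → (c.sum fun u x => x * ((t ^ u : Eˣ) : E)) = 0 → c = 0) →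
    Nonempty (Step F (Subfield.closure ((F : Set E) ∪ {(t : E)})) t)

end step

/-! ### the skew field -/

section fld
variable {K : Type} [Group K]

/-- the division closure of `N` -/
def cl {E : Type} [DivisionRing E] (ρ : K →* Eˣ) (N : Subgroup K) : Subfield E :=
  Subfield.closure ((fun g : K => ((ρ g : Eˣ) : E)) '' (N : Set K))

/-- the steps of a chain in a skew field -/
structure Steps (C : Chain K) {E : Type} [DivisionRing E] (ρ : K →* Eˣ) where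
  t : ℕ → K
  t_mem : ∀ j, t j ∈ C.N j
  gen : ∀ j, ∀ g ∈ C.N j, ∃ n : ℤ, g * t j ^ (-n) ∈ C.N (j + 1)
  st : ∀ j, t j ≠ 1 → Step (cl ρ (C.N (j + 1))) (cl ρ (C.N j)) (ρ (t j))

/-- **X2a** (from X1) -/
def StmtSteps : Prop :=
  ∀ (K : Type) [Group K] (C : Chain K) (E : Type) [DivisionRing E] [Algebra (ZMod 2) E] (ρ : K →* Eˣ),
    (∀ j, Nonempty (Level K E ρ (C.N j))) → Nonempty (Steps C ρ)

/-- **X2c** (a finite set of elements of `K` is separated by some `N j`; use `Level` at this `j`) -/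
def StmtInd : Prop :=
  ∀ (K : Type) [Group K] (C : Chain K) (E : Type) [DivisionRing E] [Algebra (ZMod 2) E] (ρ : K →* Eˣ),
    (∀ j, Nonempty (Level K E ρ (C.N j))) → LinearIndependent (ZMod 2) fun g : K => ((ρ g : Eˣ) : E)

open Classical in
/-- the good elements: `G J j` -/
noncomputable def Good {C : Chain K} {E : Type} [DivisionRing E] {ρ : K →* Eˣ} (S : Steps C ρ) : ℕ → ℕ → Set E
  | 0, j => AddSubgroup.closure ((fun g : K => ((ρ g : Eˣ) : E)) '' (C.N j : Set K))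
  | J + 1, j => if h : S.t j = 1 then Good S J (j + 1) else
      {x | x ∈ cl ρ (C.N j) ∧ ∀ u, (S.st j h).κ x u ∈ Good S J (j + 1)}

/-- **X2b** -/
def StmtGood : Prop :=
  ∀ (K : Type) [Group K] (C : Chain K) (E : Type) [DivisionRing E] [Algebra (ZMod 2) E] (ρ : K →* Eˣ) (S : Steps C ρ),
    ∀ X : Finset E, (∀ x ∈ X, x ∈ cl ρ (C.N 0)) → ∃ J, ∀ x ∈ X, x ∈ Good S J 0

/-- **X3** -/
def StmtTor : Prop :=
  ∀ (K : Type) [Group K] (C : Chain K) (E : Type) [DivisionRing E] [Algebra (ZMod 2) E] [StarRing E] (ρ : K →* Eˣ),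
    (∀ g, star ((ρ g : Eˣ) : E) = ((ρ g⁻¹ : Eˣ) : E)) → cl ρ (C.N 0) = ⊤ →
    (LinearIndependent (ZMod 2) fun g : K => ((ρ g : Eˣ) : E)) →
    ∀ S : Steps C ρ, (∀ X : Finset E, (∀ x ∈ X, x ∈ cl ρ (C.N 0)) → ∃ J, ∀ x ∈ X, x ∈ Good S J 0) →
    ∀ (R : FinRes K) (j : ℕ), ExH (diag ρ) R (j + 1)

end fld

end SQ.T3
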