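import Pool.Agent.SQ.T3.PolyZ

/-!
# SQ, third stage: Foelner sets in poly-(infinite cyclic) groups
-/

set_option autoImplicit false

namespace SQ.T3

/-- Foelner's condition -/
def Foe (Q : Type) [Group Q] : Prop :=
  ∀ (S : Finset Q) (k : ℕ), ∃ Φ I : Finset Q, I.Nonempty ∧ I ⊆ Φ ∧ (∀ q ∈ I, ∀ s ∈ S, q * s ∈ Φ) ∧
    (k + 1) * Φ.card ≤ (k + 2) * I.card

namespace Foe

theorem congr {Q Q' : Type} [Group Q] [Group Q'] (h : Foe Q) (e : Q ≃* Q') : Foe Q' := by
  classical
  intro S k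
  obtain ⟨Φ, I, h1, h2, h3, h4⟩ := h (S.map e.symm.toEquiv.toEmbedding) k
  refine ⟨Φ.map e.toEquiv.toEmbedding, I.map e.toEquiv.toEmbedding, h1.map, Finset.map_subset_map.2 h2, ?_, ?_⟩
  · intro q hq s hs
    obtain ⟨p, hp, rfl⟩ := Finset.mem_map.1 hq
    refine Finset.mem_map.2 ⟨p * e.symm s, h3 p hp _ (Finset.mem_map.2 ⟨s, hs, rfl⟩), ?_⟩
    show e (p * e.symm s) = e p * s
    rw [map_mul, e.apply_symm_apply]
  · rw [Finset.card_map, Finset.card_map]
    exact h4

/-- the preimage of a generator of the image -/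
theorem exists_gen {Q : Type} [Group Q] (χ : Q →* Multiplicative ℤ) : ∃ t : Q, ∀ q, ∃ n : ℤ, χ q = χ t ^ n := by
  obtain ⟨⟨x, ⟨t, rfl⟩⟩, hx⟩ := IsCyclic.exists_generator (α := χ.range)
  refine ⟨t, fun q => ?_⟩
  obtain ⟨n, hn⟩ := Subgroup.mem_zpowers_iff.1 (hx ⟨χ q, ⟨q, rfl⟩⟩)
  exact ⟨n, (congrArg Subtype.val hn).symm⟩

theorem of_ker {Q : Type} [Group Q] (χ : Q →* Multiplicative ℤ) (h : Foe χ.ker) : Foe Q := by
  classical
  obtain ⟨t, ht⟩ := exists_gen χ
  by_cases ht1 : χ t = 1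
  · have hall : ∀ q, q ∈ χ.ker := by
      intro q
      obtain ⟨n, hn⟩ := ht q
      rw [MonoidHom.mem_ker, hn, ht1, one_zpow]
    exact h.congr
      { toFun := fun x => x.1
        invFun := fun q => ⟨q, hall q⟩
        left_inv := fun x => rfl
        right_inv := fun q => rfl
        map_mul' := fun x y => rfl }
  · have hinj : ∀ m n : ℤ, χ t ^ m = χ t ^ n → m = n := by
      intro m n hmn
      have h1 : Multiplicative.toAdd (χ t) ≠ 0 := fun h0 => ht1 (by rw [← ofAdd_toAdd (χ t), h0, ofAdd_zero])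
      have h2 := congrArg Multiplicative.toAdd hmn
      rw [toAdd_zpow, toAdd_zpow, smul_eq_mul, smul_eq_mul] at h2
      exact mul_right_cancel₀ h1 h2
    intro S k
    choose j hj using ht
    -- a bound of the exponents
    obtain ⟨J, hJ⟩ : ∃ J : ℕ, ∀ s ∈ S, -(J : ℤ) ≤ j s ∧ j s ≤ J := by
      refine ⟨S.sup fun s => (j s).natAbs, fun s hs => ?_⟩
      have h1 : (j s).natAbs ≤ S.sup fun s => (j s).natAbs := Finset.le_sup (f := fun s => (j s).natAbs) hs
      omega
    let L : ℕ := 2 * J * (2 * k + 3) + 1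
    have hm : ∀ (s : Q) (i : ℤ), t ^ i * (s * t ^ (-j s)) * t ^ (-i) ∈ χ.ker := by
      intro s i
      rw [MonoidHom.mem_ker, map_mul, map_mul, map_mul, map_zpow, map_zpow, map_zpow, hj s]
      rw [zpow_neg, zpow_neg, mul_inv_cancel, mul_one, mul_inv_cancel]
    let SN : Finset χ.ker := (S ×ˢ Finset.Ico (0 : ℤ) L).image fun p => ⟨_, hm p.1 p.2⟩
    obtain ⟨Φ, I, h1, h2, h3, h4⟩ := h SN (2 * k + 1)
    let f : χ.ker × ℤ → Q := fun p => (p.1 : Q) * t ^ p.2
    have hf : Function.Injective f := by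
      rintro ⟨x, m⟩ ⟨y, n⟩ hxy
      have h5 : (x : Q) * t ^ m = (y : Q) * t ^ n := hxy
      have h6 := congrArg χ h5
      rw [map_mul, map_mul, map_zpow, map_zpow, MonoidHom.mem_ker.1 x.2, MonoidHom.mem_ker.1 y.2, one_mul,
        one_mul] at h6
      have h7 := hinj m n h6
      subst h7
      have h8 : x = y := Subtype.ext (mul_right_cancel h5)
      rw [h8]
    refine ⟨(Φ ×ˢ Finset.Ico (-(J : ℤ)) (L + J)).image f, (I ×ˢ Finset.Ico (0 : ℤ) L).image f, ?_, ?_, ?_, ?_⟩
    · refine Finset.Nonempty.image ?_ f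
      exact h1.product ⟨0, Finset.mem_Ico.2 ⟨le_rfl, by positivity⟩⟩
    · refine Finset.image_subset_image (Finset.product_subset_product h2 ?_)
      intro i hi
      rw [Finset.mem_Ico] at hi ⊢
      omega
    · intro q hq s hs
      obtain ⟨⟨n, i⟩, hp, rfl⟩ := Finset.mem_image.1 hq
      obtain ⟨hn, hi⟩ := Finset.mem_product.1 hp
      have hi' := Finset.mem_Ico.1 hi
      refine Finset.mem_image.2 ⟨(n * ⟨_, hm s i⟩, i + j s), Finset.mem_product.2 ⟨h3 n hn _ ?_, ?_⟩, ?_⟩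
      · exact Finset.mem_image.2 ⟨(s, i), Finset.mem_product.2 ⟨hs, hi⟩, rfl⟩
      · have h9 := hJ s hs
        simp only at hi'
        rw [Finset.mem_Ico]
        omega
      · show (n : Q) * (t ^ i * (s * t ^ (-j s)) * t ^ (-i)) * t ^ (i + j s) = (n : Q) * t ^ i * s
        rw [zpow_add, zpow_neg, zpow_neg]
        group
    · rw [Finset.card_image_of_injective _ hf, Finset.card_image_of_injective _ hf, Finset.card_product,
        Finset.card_product, Int.card_Ico, Int.card_Ico]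
      have e1 : ((L : ℤ) + J - -(J : ℤ)).toNat = L + 2 * J := by omega
      have e2 : ((L : ℤ) - 0).toNat = L := by omega
      rw [e1, e2]
      have h5 : (2 * k + 3) * (L + 2 * J) ≤ (2 * k + 4) * L := by
        have : 2 * J * (2 * k + 3) ≤ L := Nat.le_succ _
        nlinarith
      have h6 : (2 * k + 3) * ((2 * k + 2) * (Φ.card * (L + 2 * J))) ≤ (2 * k + 3) * ((2 * k + 4) * (I.card * L)) := by
        calc (2 * k + 3) * ((2 * k + 2) * (Φ.card * (L + 2 * J)))
            = ((2 * k + 1 + 1) * Φ.card) * ((2 * k + 3) * (L + 2 * J)) := by ring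
          _ ≤ ((2 * k + 1 + 2) * I.card) * ((2 * k + 4) * L) := Nat.mul_le_mul h4 h5
          _ = _ := by ring
      have h7 := Nat.le_of_mul_le_mul_left h6 (by omega)
      have h8 : 2 * ((k + 1) * (Φ.card * (L + 2 * J))) ≤ 2 * ((k + 2) * (I.card * L)) := by
        calc 2 * ((k + 1) * (Φ.card * (L + 2 * J))) = (2 * k + 2) * (Φ.card * (L + 2 * J)) := by ring
          _ ≤ _ := h7
          _ = _ := by ring
      exact Nat.le_of_mul_le_mul_left h8 (by norm_num)

end Foe

/-- poly-(infinite cyclic) groups satisfy Foelner's condition -/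
theorem PolyZ.foe {Q : Type} [Group Q] (h : PolyZ Q) : Foe Q := by
  induction h with
  | triv h =>
    intro S k
    refine ⟨{1}, {1}, Finset.singleton_nonempty 1, subset_rfl, fun q _ s _ => ?_, ?_⟩
    · rw [Finset.mem_singleton]
      exact h _
    · exact Nat.mul_le_mul_right _ (by omega)
  | ext χ _ ih => exact Foe.of_ker χ ih

end SQ.T3
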