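import Pool.Agent.SQ.Ring

/-!
# SQ, third stage: poly-(infinite cyclic) groups

`PolyZ Q`: `Q` has a finite series in which every group is the kernel of a homomorphism of the preceding one to `ℤ`.
Closure under subgroups and products, unique products, Foelner sets.
-/

set_option autoImplicit false

namespace SQ.T3

/-- poly-(infinite cyclic) groups: the trivial groups, and the groups `Q` with a homomorphism to `ℤ` whose kernel is
poly-(infinite cyclic) -/
inductive PolyZ : ∀ (Q : Type) [Group Q], Prop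
  | triv {Q : Type} [Group Q] : (∀ q : Q, q = 1) → PolyZ Q
  | ext {Q : Type} [Group Q] (χ : Q →* Multiplicative ℤ) : PolyZ χ.ker → PolyZ Q

/-- residually poly-(infinite cyclic) groups -/
def ResPolyZ (K : Type) [Group K] : Prop :=
  ∀ g : K, g ≠ 1 → ∃ (Q : Type) (_ : Group Q) (π : K →* Q), PolyZ Q ∧ π g ≠ 1

namespace PolyZ

/-- subgroups -/
theorem of_injective {Q : Type} [Group Q] (h : PolyZ Q) : ∀ {Q' : Type} [Group Q'] (f : Q' →* Q),
    Function.Injective f → PolyZ Q' := by
  induction h with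
  | triv h =>
    intro Q' _ f hf
    exact PolyZ.triv fun q => hf (by rw [h (f q), map_one])
  | @ext Q _ χ _ ih =>
    intro Q' _ f hf
    refine PolyZ.ext (χ.comp f) ?_
    refine ih (Q' := (χ.comp f).ker) ((f.comp (χ.comp f).ker.subtype).codRestrict χ.ker fun x => x.2) ?_
    intro x y hxy
    exact Subtype.ext (hf (congrArg Subtype.val hxy))

theorem congr {Q Q' : Type} [Group Q] [Group Q'] (h : PolyZ Q) (e : Q' ≃* Q) : PolyZ Q' :=
  h.of_injective e.toMonoidHom e.injective

theorem subgroup {Q : Type} [Group Q] (h : PolyZ Q) (H : Subgroup Q) : PolyZ H :=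
  h.of_injective H.subtype H.subtype_injective

/-- an extension of groups is in the class if the kernel and the image are -/
theorem of_ker {Q P : Type} [Group Q] [Group P] (hP : PolyZ P) (π : Q →* P) (hk : PolyZ π.ker) : PolyZ Q := by
  induction hP generalizing Q with
  | triv h =>
    refine hk.of_injective ((MonoidHom.id Q).codRestrict π.ker fun x => h _) ?_
    intro x y hxy
    exact congrArg Subtype.val hxy
  | @ext P _ χ _ ih =>
    refine PolyZ.ext (χ.comp π) ?_
    let π' : (χ.comp π).ker →* χ.ker := (π.comp (χ.comp π).ker.subtype).codRestrict χ.ker fun x => x.2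
    have h0 : ∀ x : π'.ker, ((x : (χ.comp π).ker) : Q) ∈ π.ker := fun x => congrArg Subtype.val (x.2 : π' x.1 = 1)
    let j : π'.ker →* π.ker := ((χ.comp π).ker.subtype.comp π'.ker.subtype).codRestrict π.ker h0
    refine ih π' (hk.of_injective j fun x y hxy => ?_)
    have h1 : ((j x : π.ker) : Q) = ((j y : π.ker) : Q) := congrArg Subtype.val hxy
    exact Subtype.ext (Subtype.ext h1)

theorem prod {Q Q' : Type} [Group Q] [Group Q'] (h : PolyZ Q) (h' : PolyZ Q') : PolyZ (Q × Q') := by
  refine of_ker h (MonoidHom.fst Q Q') (h'.of_injective ((MonoidHom.snd Q Q').comp (MonoidHom.fst Q Q').ker.subtype) ?_)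
  intro x y hxy
  apply Subtype.ext
  refine Prod.ext ?_ hxy
  have h1 : (x : Q × Q').1 = 1 := x.2
  have h2 : (y : Q × Q').1 = 1 := y.2
  rw [h1, h2]

theorem pi {n : ℕ} {Q : Fin n → Type} [∀ i, Group (Q i)] (h : ∀ i, PolyZ (Q i)) : PolyZ (∀ i, Q i) := by
  induction n with
  | zero => exact PolyZ.triv fun q => funext fun i => i.elim0
  | succ n ih =>
    refine (PolyZ.prod (h 0) (ih fun i => h i.succ)).of_injective
      { toFun := fun f => (f 0, fun i => f i.succ)
        map_one' := rfl
        map_mul' := fun _ _ => rfl } ?_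
    intro f g hfg
    funext i
    refine Fin.cases ?_ (fun i => ?_) i
    · exact congrArg Prod.fst hfg
    · exact congrFun (congrArg Prod.snd hfg) i

/-! ### unique products -/

theorem uniqueProds_of_ker {Q P : Type} [Group Q] [Group P] [hP : UniqueProds P] (π : Q →* P)
    (hk : UniqueProds π.ker) : UniqueProds Q := by
  classical
  refine ⟨fun {A B} hA hB => ?_⟩
  obtain ⟨u, hu, v, hv, huv⟩ := hP.uniqueMul_of_nonempty (A := A.image π) (B := B.image π) (hA.image _) (hB.image _)
  obtain ⟨a0, ha0, rfl⟩ := Finset.mem_image.1 hu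
  obtain ⟨b0, hb0, rfl⟩ := Finset.mem_image.1 hv
  -- the translates of the fibres in the kernel
  let A' : Finset π.ker := A.preimage (fun x => a0 * (x : Q)) fun x _ y _ h => Subtype.ext (mul_left_cancel h)
  let B' : Finset π.ker := B.preimage (fun x => (x : Q) * b0) fun x _ y _ h => Subtype.ext (mul_right_cancel h)
  have hA' : ∀ x : π.ker, x ∈ A' ↔ a0 * (x : Q) ∈ A := fun x => Finset.mem_preimage
  have hB' : ∀ x : π.ker, x ∈ B' ↔ (x : Q) * b0 ∈ B := fun x => Finset.mem_preimage
  obtain ⟨x, hx, y, hy, h1⟩ := hk.uniqueMul_of_nonempty (A := A') (B := B')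
    ⟨1, (hA' 1).2 (by simpa using ha0)⟩ ⟨1, (hB' 1).2 (by simpa using hb0)⟩
  have hx1 : π (x : Q) = 1 := x.2
  have hy1 : π (y : Q) = 1 := y.2
  refine ⟨a0 * x, (hA' x).1 hx, y * b0, (hB' y).1 hy, fun a b ha hb hab => ?_⟩
  have h2 := huv (Finset.mem_image_of_mem π ha) (Finset.mem_image_of_mem π hb) (by
    rw [← map_mul, hab, map_mul, map_mul, map_mul, hx1, hy1, mul_one, one_mul])
  have ka : a0⁻¹ * a ∈ π.ker := by rw [MonoidHom.mem_ker, map_mul, map_inv, h2.1, inv_mul_cancel]
  have kb : b * b0⁻¹ ∈ π.ker := by rw [MonoidHom.mem_ker, map_mul, map_inv, h2.2, mul_inv_cancel]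
  have h3 := h1 (a := ⟨a0⁻¹ * a, ka⟩) (b := ⟨b * b0⁻¹, kb⟩) ((hA' _).2 (by simpa using ha)) ((hB' _).2 (by simpa using hb)) (by
    apply Subtype.ext
    show a0⁻¹ * a * (b * b0⁻¹) = (x : Q) * (y : Q)
    rw [mul_assoc, ← mul_assoc a, hab]
    group)
  have h4 : a0⁻¹ * a = x := congrArg Subtype.val h3.1
  have h5 : b * b0⁻¹ = y := congrArg Subtype.val h3.2
  exact ⟨by rw [← h4, mul_inv_cancel_left], by rw [← h5, inv_mul_cancel_right]⟩

theorem uniqueProds {Q : Type} [Group Q] (h : PolyZ Q) : UniqueProds Q := by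
  induction h with
  | triv h =>
    refine ⟨fun {A B} hA hB => ?_⟩
    obtain ⟨a, ha⟩ := hA
    obtain ⟨b, hb⟩ := hB
    exact ⟨a, ha, b, hb, fun a' b' _ _ _ => ⟨(h a').trans (h a).symm, (h b').trans (h b).symm⟩⟩
  | ext χ _ ih => exact uniqueProds_of_ker χ ih

theorem noZeroDivisors {Q : Type} [Group Q] (h : PolyZ Q) : NoZeroDivisors (MonoidAlgebra (ZMod 2) Q) := by
  have := h.uniqueProds
  infer_instance

end PolyZ

end SQ.T3
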