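import Pool.Agent.SQ.T3.Defs

/-!
# SQ, third stage, row X1, part 1: skew Laurent polynomials inside a skew field, Ore condition, common denominators
-/

set_option autoImplicit false

namespace SQ.T3
namespace StepX

variable {E : Type} [DivisionRing E]

/-- the powers of `t` -/
def T (t : Eˣ) (n : ℤ) : E := ((t ^ n : Eˣ) : E)

theorem T_def (t : Eˣ) (n : ℤ) : ((t ^ n : Eˣ) : E) = T t n := rfl

theorem T_zero (t : Eˣ) : T t 0 = 1 := by simp [T]

theorem T_one (t : Eˣ) : T t 1 = (t : E) := by simp [T]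

theorem T_neg_one (t : Eˣ) : T t (-1) = ((t⁻¹ : Eˣ) : E) := by simp [T]

theorem T_add (t : Eˣ) (m n : ℤ) : T t (m + n) = T t m * T t n := by
  simp only [T, zpow_add, Units.val_mul]

theorem T_neg_mul (t : Eˣ) (n : ℤ) : T t (-n) * T t n = 1 := by
  rw [← T_add, neg_add_cancel, T_zero]

theorem T_mul_neg (t : Eˣ) (n : ℤ) : T t n * T t (-n) = 1 := by
  rw [← T_add, add_neg_cancel, T_zero]

theorem T_ne (t : Eˣ) (n : ℤ) : T t n ≠ 0 := (t ^ n).ne_zero

theorem T_neg_mul_cancel (t : Eˣ) (n : ℤ) (x : E) : T t (-n) * (T t n * x) = x := by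
  rw [← mul_assoc, T_neg_mul, one_mul]

theorem T_mul_neg_cancel (t : Eˣ) (n : ℤ) (x : E) : T t n * (T t (-n) * x) = x := by
  rw [← mul_assoc, T_mul_neg, one_mul]

/-- the hypotheses -/
structure Hyp (F : Subfield E) (t : Eˣ) : Prop where
  c1 : ∀ f ∈ F, (t : E) * f * ((t⁻¹ : Eˣ) : E) ∈ F
  c2 : ∀ f ∈ F, ((t⁻¹ : Eˣ) : E) * f * (t : E) ∈ F
  ind : ∀ c : ℤ →₀ E, (∀ u, c u ∈ F) → (c.sum fun u x => x * T t u) = 0 → c = 0

variable {F : Subfield E} {t : Eˣ}

theorem Hyp.conj (h : Hyp F t) (n : ℤ) : ∀ f ∈ F, T t n * f * T t (-n) ∈ F := by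
  induction n with
  | zero => intro f hf; simpa [T_zero] using hf
  | succ n ih =>
    intro f hf
    have := ih _ (h.c1 f hf)
    rw [← T_one t, ← T_neg_one t] at this
    have e : T t (n + 1) * f * T t (-(n + 1)) = T t n * (T t 1 * f * T t (-1)) * T t (-n) := by
      rw [T_add, neg_add_rev, T_add t (-1)]
      simp only [mul_assoc]
    rw [e]; exact this
  | pred n ih =>
    intro f hf
    have := ih _ (h.c2 f hf)
    rw [← T_one t, ← T_neg_one t] at this
    have e : T t (-n - 1) * f * T t (-(-n - 1)) = T t (-n) * (T t (-1) * f * T t 1) * T t (- -n) := by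
      rw [show (-(n : ℤ) - 1) = -n + -1 by ring, show (-(-(n : ℤ) + -1)) = 1 + - -n by ring, T_add, T_add t 1]
      simp only [mul_assoc]
    rw [e]; exact this

theorem lau_mono {f : E} (hf : f ∈ F) (n : ℤ) : f * T t n ∈ Lau F t :=
  AddSubgroup.subset_closure ⟨f, hf, n, rfl⟩

theorem lau_F {f : E} (hf : f ∈ F) : f ∈ Lau F t := by
  simpa [T_zero] using lau_mono (t := t) hf 0

theorem lau_T (n : ℤ) : T t n ∈ Lau F t := by
  simpa using lau_mono (F := F) (t := t) (one_mem F) n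

theorem lau_one : (1 : E) ∈ Lau F t := lau_F (one_mem F)

theorem lau_induction {p : E → Prop} (hm : ∀ f ∈ F, ∀ n : ℤ, p (f * T t n)) (h0 : p 0) (ha : ∀ x y, p x → p y → p (x + y))
    (hn : ∀ x, p x → p (-x)) {x : E} (hx : x ∈ Lau F t) : p x := by
  refine AddSubgroup.closure_induction (p := fun x _ => p x) ?_ h0 (fun x y _ _ => ha x y) (fun x _ => hn x) hx
  rintro x ⟨f, hf, n, rfl⟩
  exact hm f hf n

theorem lau_mul (h : Hyp F t) {x y : E} (hx : x ∈ Lau F t) (hy : y ∈ Lau F t) : x * y ∈ Lau F t := by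
  refine lau_induction (p := fun x => x * y ∈ Lau F t) (fun f hf n => ?_) (by simp [zero_mem])
    (fun a b ha hb => by simpa [add_mul] using add_mem ha hb) (fun a ha => by simpa using ha) hx
  refine lau_induction (p := fun y => f * T t n * y ∈ Lau F t) (fun g hg m => ?_) (by simp [zero_mem])
    (fun a b ha hb => by simpa [mul_add] using add_mem ha hb) (fun a ha => by simpa using ha) hy
  have e : f * T t n * (g * T t m) = f * (T t n * g * T t (-n)) * T t (n + m) := by
    rw [T_add]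
    simp only [mul_assoc]
    rw [T_neg_mul_cancel]
  rw [e]
  exact lau_mono (mul_mem hf (h.conj n g hg)) _

/-! ### the filtration by degree -/

open Classical in
/-- the skew Laurent polynomials of degree between `-d` and `d` -/
noncomputable def W (F : Subfield E) (t : Eˣ) (d : ℕ) : Submodule F E :=
  Submodule.span F (((Finset.Icc (-(d : ℤ)) d).image (T t) : Finset E) : Set E)

theorem W_T {d : ℕ} {n : ℤ} (h1 : -(d : ℤ) ≤ n) (h2 : n ≤ d) : T t n ∈ W F t d := by
  classical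
  refine Submodule.subset_span ?_
  rw [Finset.coe_image]
  exact ⟨n, by simp [h1, h2], rfl⟩

theorem W_mul (h : Hyp F t) {d : ℕ} {n : ℤ} (h1 : -(d : ℤ) ≤ n) (h2 : n ≤ d) {x : E} (hx : x ∈ W F t d) :
    T t n * x ∈ W F t (2 * d) := by
  classical
  refine Submodule.span_induction (p := fun x _ => T t n * x ∈ W F t (2 * d)) ?_ (by simp) ?_ ?_ hx
  · intro x hx
    rw [Finset.coe_image] at hx
    obtain ⟨m, hm, rfl⟩ := hx
    rw [Finset.coe_Icc, Set.mem_Icc] at hm
    rw [← T_add]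
    exact W_T (by push_cast; linarith) (by push_cast; linarith)
  · intro x y _ _ hx hy
    rw [mul_add]
    exact add_mem hx hy
  · intro a x _ hx
    have e : T t n * (a • x) = (⟨T t n * a * T t (-n), h.conj n a a.2⟩ : F) • (T t n * x) := by
      rw [Subfield.smul_def, Subfield.smul_def, smul_eq_mul, smul_eq_mul]
      simp only [mul_assoc]
      rw [T_neg_mul_cancel]
    rw [e]
    exact Submodule.smul_mem _ _ hx

theorem W_le {d e : ℕ} (hd : d ≤ e) : W F t d ≤ W F t e := by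
  classical
  refine Submodule.span_mono ?_
  rw [Finset.coe_image, Finset.coe_image]
  refine Set.image_mono ?_
  intro x hx
  simp only [Finset.coe_Icc, Set.mem_Icc] at hx ⊢
  omega

theorem lau_W {x : E} (hx : x ∈ Lau F t) : ∃ d, x ∈ W F t d := by
  refine lau_induction (p := fun x => ∃ d, x ∈ W F t d) ?_ ⟨0, zero_mem _⟩ ?_ ?_ hx
  · intro f hf n
    refine ⟨n.natAbs, ?_⟩
    have : (⟨f, hf⟩ : F) • T t n ∈ W F t n.natAbs := Submodule.smul_mem _ _ (W_T (by omega) (by omega))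
    exact this
  · rintro x y ⟨d, hd⟩ ⟨e, he⟩
    exact ⟨max d e, add_mem (W_le (le_max_left _ _) hd) (W_le (le_max_right _ _) he)⟩
  · rintro x ⟨d, hd⟩
    exact ⟨d, neg_mem hd⟩

/-- the polynomial with given coefficients -/
noncomputable def ev (F : Subfield E) (t : Eˣ) (d : ℕ) : (Finset.Icc (-(d : ℤ)) d → F) →ₗ[F] E where
  toFun c := ∑ i : Finset.Icc (-(d : ℤ)) d, ((c i : F) : E) * T t i
  map_add' a b := by simp [add_mul, Finset.sum_add_distrib]
  map_smul' a b := by simp [Finset.mul_sum, mul_assoc, Subfield.smul_def]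

theorem ev_mem {d : ℕ} (c : Finset.Icc (-(d : ℤ)) d → F) : ev F t d c ∈ Lau F t := by
  change (∑ i : Finset.Icc (-(d : ℤ)) d, ((c i : F) : E) * T t i) ∈ _
  exact sum_mem fun i _ => lau_mono (c i).2 _

theorem ev_mul_mem (h : Hyp F t) {d : ℕ} (c : Finset.Icc (-(d : ℤ)) d → F) {x : E} (hx : x ∈ W F t d) :
    ev F t d c * x ∈ W F t (2 * d) := by
  change (∑ i : Finset.Icc (-(d : ℤ)) d, ((c i : F) : E) * T t i) * x ∈ _
  rw [Finset.sum_mul]
  refine sum_mem fun i _ => ?_
  rw [mul_assoc]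
  have hi := Finset.mem_Icc.1 i.2
  exact Submodule.smul_mem (W F t (2 * d)) (c i) (W_mul h hi.1 hi.2 hx)

theorem ev_inj (h : Hyp F t) {d : ℕ} {c : Finset.Icc (-(d : ℤ)) d → F} (hc : ev F t d c = 0) : c = 0 := by
  classical
  set g : ℤ →₀ E := ∑ i : Finset.Icc (-(d : ℤ)) d, Finsupp.single (i : ℤ) ((c i : F) : E) with hg
  have g1 : ∀ i : Finset.Icc (-(d : ℤ)) d, g i = c i := by
    intro i
    rw [hg, Finsupp.finset_sum_apply, Finset.sum_eq_single i]
    · simp
    · intro j _ hj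
      rw [Finsupp.single_apply, if_neg]
      exact fun e => hj (Subtype.ext e)
    · simp
  have g2 : g = 0 := by
    refine h.ind g ?_ ?_
    · intro u
      rw [hg, Finsupp.finset_sum_apply]
      refine sum_mem fun i _ => ?_
      rw [Finsupp.single_apply]
      split_ifs
      · exact (c i).2
      · exact zero_mem _
    · rw [hg, ← Finsupp.sum_finset_sum_index (by simp) (by simp [add_mul])]
      refine Eq.trans (Finset.sum_congr rfl fun i _ => ?_) hc
      rw [Finsupp.sum_single_index (by simp)]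
  ext i
  rw [← g1, g2]
  rfl

/-- **left Ore condition** -/
theorem ore (h : Hyp F t) {a s : E} (ha : a ∈ Lau F t) (hs : s ∈ Lau F t) (hs0 : s ≠ 0) :
    ∃ u ∈ Lau F t, ∃ v ∈ Lau F t, u ≠ 0 ∧ u * a = v * s := by
  obtain ⟨d, hd⟩ := lau_W ha
  obtain ⟨e, he⟩ := lau_W hs
  set m := max d e with hm
  have ha' : a ∈ W F t m := W_le (le_max_left _ _) hd
  have hs' : s ∈ W F t m := W_le (le_max_right _ _) he
  let φ : ((Finset.Icc (-(m : ℤ)) m → F) × (Finset.Icc (-(m : ℤ)) m → F)) →ₗ[F] W F t (2 * m) :=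
    { toFun := fun p => ⟨ev F t m p.1 * a - ev F t m p.2 * s, sub_mem (ev_mul_mem h _ ha') (ev_mul_mem h _ hs')⟩
      map_add' := fun p q => by
        refine Subtype.ext ?_
        simp only [Prod.fst_add, Prod.snd_add, map_add, add_mul, AddMemClass.mk_add_mk]
        abel
      map_smul' := fun r p => by
        refine Subtype.ext ?_
        simp only [Prod.smul_fst, Prod.smul_snd, map_smul, smul_mul_assoc, RingHom.id_apply, SetLike.mk_smul_mk, smul_sub] }
  have hfin : Module.Finite F (W F t (2 * m)) := Module.Finite.span_finset F _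
  have hlt : Module.finrank F (W F t (2 * m)) <
      Module.finrank F ((Finset.Icc (-(m : ℤ)) m → F) × (Finset.Icc (-(m : ℤ)) m → F)) := by
    have h1 : Module.finrank F (W F t (2 * m)) ≤ (Finset.Icc (-((2 * m : ℕ) : ℤ)) (2 * m : ℕ)).card := by
      classical
      exact (finrank_span_finset_le_card _).trans Finset.card_image_le
    have h2 : (Finset.Icc (-((2 * m : ℕ) : ℤ)) (2 * m : ℕ)).card = 4 * m + 1 := by
      rw [Int.card_Icc]
      omega
    have h3 : (Finset.Icc (-(m : ℤ)) m).card = 2 * m + 1 := by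
      rw [Int.card_Icc]
      omega
    rw [Module.finrank_prod, Module.finrank_fintype_fun_eq_card, Fintype.card_coe, h3]
    omega
  obtain ⟨p, hp, hp0⟩ := (Submodule.ne_bot_iff _).1 (LinearMap.ker_ne_bot_of_finrank_lt (f := φ) hlt)
  have hp1 : ev F t m p.1 * a - ev F t m p.2 * s = 0 := congrArg Subtype.val (LinearMap.mem_ker.1 hp)
  refine ⟨_, ev_mem p.1, _, ev_mem p.2, ?_, sub_eq_zero.1 hp1⟩
  intro h0
  rw [h0, zero_mul, zero_sub, neg_eq_zero, mul_eq_zero, or_iff_left hs0] at hp1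
  exact hp0 (Prod.ext (ev_inj h h0) (ev_inj h hp1))

/-- **left denominators** -/
theorem left_one (h : Hyp F t) {x : E} (hx : x ∈ Subfield.closure ((F : Set E) ∪ {(t : E)})) :
    ∃ s ∈ Lau F t, s ≠ 0 ∧ s * x ∈ Lau F t := by
  refine Subfield.closure_induction (p := fun x _ => ∃ s ∈ Lau F t, s ≠ 0 ∧ s * x ∈ Lau F t) ?_ ?_ ?_ ?_ ?_ ?_ hx
  · rintro x (hx | hx)
    · exact ⟨1, lau_one, one_ne_zero, by rw [one_mul]; exact lau_F hx⟩
    · rw [Set.mem_singleton_iff] at hx
      exact ⟨1, lau_one, one_ne_zero, by rw [one_mul, hx, ← T_one]; exact lau_T 1⟩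
  · exact ⟨1, lau_one, one_ne_zero, by rw [one_mul]; exact lau_one⟩
  · rintro x y _ _ ⟨s, hs, hs0, hsx⟩ ⟨r, hr, hr0, hry⟩
    obtain ⟨u, hu, v, hv, hu0, huv⟩ := ore h hs hr hr0
    refine ⟨u * s, lau_mul h hu hs, mul_ne_zero hu0 hs0, ?_⟩
    rw [mul_add, mul_assoc u s x, huv, mul_assoc v r y]
    exact add_mem (lau_mul h hu hsx) (lau_mul h hv hry)
  · rintro x _ ⟨s, hs, hs0, hsx⟩
    exact ⟨s, hs, hs0, by rw [mul_neg]; exact neg_mem hsx⟩
  · rintro x _ ⟨s, hs, hs0, hsx⟩
    rcases eq_or_ne x 0 with rfl | hx0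
    · exact ⟨1, lau_one, one_ne_zero, by simp [zero_mem]⟩
    · exact ⟨s * x, hsx, mul_ne_zero hs0 hx0, by rw [mul_assoc, mul_inv_cancel₀ hx0, mul_one]; exact hs⟩
  · rintro x y _ _ ⟨s, hs, hs0, hsx⟩ ⟨r, hr, hr0, hry⟩
    obtain ⟨u, hu, v, hv, hu0, huv⟩ := ore h hsx hr hr0
    refine ⟨u * s, lau_mul h hu hs, mul_ne_zero hu0 hs0, ?_⟩
    rw [show u * s * (x * y) = u * (s * x) * y by simp only [mul_assoc], huv, mul_assoc]
    exact lau_mul h hv hry

theorem left_all (h : Hyp F t) (S : Finset E) : (∀ x ∈ S, x ∈ Subfield.closure ((F : Set E) ∪ {(t : E)})) →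
    ∃ s ∈ Lau F t, s ≠ 0 ∧ ∀ x ∈ S, s * x ∈ Lau F t := by
  classical
  refine Finset.induction_on S (fun _ => ⟨1, lau_one, one_ne_zero, by simp⟩) ?_
  intro a S _ ih hS
  obtain ⟨s, hs, hs0, hsS⟩ := ih fun x hx => hS x (Finset.mem_insert_of_mem hx)
  obtain ⟨r, hr, hr0, hra⟩ := left_one h (hS a (Finset.mem_insert_self a S))
  obtain ⟨u, hu, v, hv, hu0, huv⟩ := ore h hs hr hr0
  refine ⟨u * s, lau_mul h hu hs, mul_ne_zero hu0 hs0, ?_⟩
  intro x hx
  rcases Finset.mem_insert.1 hx with rfl | hx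
  · rw [huv, mul_assoc]; exact lau_mul h hv hra
  · rw [mul_assoc]; exact lau_mul h hu (hsS x hx)

end StepX
end SQ.T3
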