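import Pool.Agent.SQ.T3.StepA

/-!
# SQ, third stage, row X1, part 2: right denominators, by passing to the opposite skew field
-/

set_option autoImplicit false

namespace SQ.T3
namespace StepX

open MulOpposite

variable {E : Type} [DivisionRing E] {F : Subfield E} {t : Eˣ}

/-- the opposite subfield -/
def opF (F : Subfield E) : Subfield Eᵐᵒᵖ where
  carrier := {x | unop x ∈ F}
  mul_mem' ha hb := mul_mem (s := F) hb ha
  one_mem' := one_mem F
  add_mem' ha hb := add_mem (s := F) ha hb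
  zero_mem' := zero_mem F
  neg_mem' ha := neg_mem (s := F) ha
  inv_mem' _ ha := inv_mem (s := F) ha

theorem mem_opF {x : Eᵐᵒᵖ} : x ∈ opF F ↔ unop x ∈ F := Iff.rfl

/-- the opposite unit -/
def opt (t : Eˣ) : (Eᵐᵒᵖ)ˣ := Units.opEquiv.symm (op t)

theorem T_opt (n : ℤ) : T (opt t) n = op (T t n) := by
  simp only [T, opt]
  rw [← map_zpow, ← op_zpow, Units.coe_opEquiv_symm, unop_op]

theorem hyp_op (h : Hyp F t) : Hyp (opF F) (opt t) where
  c1 f hf := by
    rw [← T_one (opt t), ← T_neg_one (opt t), T_opt, T_opt, mem_opF, unop_mul, unop_mul, unop_op, unop_op, T_one, T_neg_one,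
      ← mul_assoc]
    exact h.c2 _ hf
  c2 f hf := by
    rw [← T_one (opt t), ← T_neg_one (opt t), T_opt, T_opt, mem_opF, unop_mul, unop_mul, unop_op, unop_op, T_one, T_neg_one,
      ← mul_assoc]
    exact h.c1 _ hf
  ind c hc hs := by
    have h0 := h.ind (Finsupp.onFinset c.support (fun u => T t u * unop (c u) * T t (-u)) (fun u hu => by
      rw [Finsupp.mem_support_iff]
      intro h0
      exact hu (by simp [h0]))) (fun u => h.conj u _ (hc u)) (by
        rw [Finsupp.onFinset_sum _ (by simp)]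
        have h1 := congrArg unop hs
        rw [Finsupp.sum, Finset.unop_sum, unop_zero] at h1
        refine Eq.trans (Finset.sum_congr rfl fun u _ => ?_) h1
        rw [T_opt, unop_mul, unop_op, mul_assoc, T_neg_mul, mul_one])
    ext u
    have h1 := DFunLike.congr_fun h0 u
    rw [Finsupp.onFinset_apply, Finsupp.zero_apply, mul_eq_zero, or_iff_left (T_ne t _), mul_eq_zero, or_iff_right (T_ne t _)] at h1
    rw [Finsupp.zero_apply]
    exact unop_injective h1

theorem lau_op (h : Hyp F t) {x : Eᵐᵒᵖ} (hx : x ∈ Lau (opF F) (opt t)) : unop x ∈ Lau F t := by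
  refine lau_induction (p := fun x => unop x ∈ Lau F t) ?_ (zero_mem _) (fun a b ha hb => add_mem ha hb)
    (fun a ha => neg_mem ha) hx
  intro f hf n
  have e : unop (f * T (opt t) n) = (T t n * unop f * T t (-n)) * T t n := by
    rw [T_opt, unop_mul, unop_op, mul_assoc _ (T t (-n)), T_neg_mul, mul_one]
  rw [e]
  exact lau_mono (h.conj n _ hf) n

theorem closure_op {x : E} (hx : x ∈ Subfield.closure ((F : Set E) ∪ {(t : E)})) :
    op x ∈ Subfield.closure ((opF F : Set Eᵐᵒᵖ) ∪ {((opt t : (Eᵐᵒᵖ)ˣ) : Eᵐᵒᵖ)}) := by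
  refine Subfield.closure_induction
    (p := fun x _ => op x ∈ Subfield.closure ((opF F : Set Eᵐᵒᵖ) ∪ {((opt t : (Eᵐᵒᵖ)ˣ) : Eᵐᵒᵖ)})) ?_ ?_ ?_ ?_ ?_ ?_ hx
  · rintro x (hx | hx)
    · exact Subfield.subset_closure (Or.inl hx)
    · rw [Set.mem_singleton_iff] at hx
      refine Subfield.subset_closure (Or.inr ?_)
      rw [Set.mem_singleton_iff, hx, ← T_one, ← T_one, T_opt]
  · exact one_mem _
  · intro x y _ _ hx hy
    exact add_mem hx hy
  · intro x _ hx
    exact neg_mem hx
  · intro x _ hx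
    exact inv_mem hx
  · intro x y _ _ hx hy
    rw [op_mul]
    exact mul_mem hy hx

theorem right_all (h : Hyp F t) (S : Finset E) (hS : ∀ x ∈ S, x ∈ Subfield.closure ((F : Set E) ∪ {(t : E)})) :
    ∃ s ∈ Lau F t, s ≠ 0 ∧ ∀ x ∈ S, x * s ∈ Lau F t := by
  classical
  obtain ⟨s, hs, hs0, hsS⟩ := left_all (hyp_op h) (S.image op) (by
    intro x hx
    obtain ⟨y, hy, rfl⟩ := Finset.mem_image.1 hx
    exact closure_op (hS y hy))
  refine ⟨unop s, lau_op h hs, (unop_ne_zero_iff s).2 hs0, fun x hx => ?_⟩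
  exact lau_op h (hsS (op x) (Finset.mem_image_of_mem op hx))

end StepX
end SQ.T3
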