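import Pool.Agent.SQ.Acr
import Pool.Agent.SQ.T3.Defs

/-!
# SQ, third stage: the complex `P ⊗ (E ⊗ E)` and its subcomplexes
-/

set_option autoImplicit false
set_option linter.unusedSectionVars false

open scoped TensorProduct

namespace SQ.T3.Tor

open Singer SQ.Acr

/-- the chains -/
abbrev Tc (K E : Type) [Group K] [DivisionRing E] [Algebra (ZMod 2) E] (α : Type) : Type :=
  (α → MonoidAlgebra (ZMod 2) K) ⊗[ZMod 2] (E ⊗[ZMod 2] E)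

section base
variable {K : Type} [Group K] {E : Type} [DivisionRing E] [Algebra (ZMod 2) E]

/-- right multiplications -/
noncomputable def rm (ρ : K →* Eˣ) : Representation (ZMod 2) K E where
  toFun g := LinearMap.mulRight (ZMod 2) ((ρ g⁻¹ : Eˣ) : E)
  map_one' := by ext x; simp
  map_mul' a b := by
    apply LinearMap.ext
    intro x
    rw [Module.End.mul_apply, LinearMap.mulRight_apply, LinearMap.mulRight_apply, LinearMap.mulRight_apply, mul_inv_rev,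
      map_mul, Units.val_mul, mul_assoc]

/-- the action on `E ⊗ E` -/
noncomputable def ten (ρ : K →* Eˣ) : Representation (ZMod 2) K (E ⊗[ZMod 2] E) := (rm ρ).tprod (lmul ρ)

lemma ten_tmul (ρ : K →* Eˣ) (g : K) (x y : E) :
    ten ρ g (x ⊗ₜ[ZMod 2] y) = (x * ((ρ g⁻¹ : Eˣ) : E)) ⊗ₜ[ZMod 2] (((ρ g : Eˣ) : E) * y) := rfl

lemma sg_tmul (ρ : K →* Eˣ) {α : Type} (g : K) (p : α → MonoidAlgebra (ZMod 2) K) (x y : E) :
    sg (ten ρ) α g (p ⊗ₜ[ZMod 2] (x ⊗ₜ[ZMod 2] y)) =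
      (lam α g p) ⊗ₜ[ZMod 2] ((x * ((ρ g⁻¹ : Eˣ) : E)) ⊗ₜ[ZMod 2] (((ρ g : Eˣ) : E) * y)) := rfl

lemma sg_d (ρ : K →* Eˣ) {α β : Type} [Fintype α] (P : Matrix α β (MonoidAlgebra ℤ K)) (g : K) (z : Tc K E α) :
    (dd P).rTensor (E ⊗[ZMod 2] E) (sg (ten ρ) α g z) = sg (ten ρ) β g ((dd P).rTensor (E ⊗[ZMod 2] E) z) := by
  induction z using TensorProduct.induction_on with
  | zero => simp only [map_zero]
  | add x y hx hy => simp only [map_add, hx, hy]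
  | tmul p y =>
    rw [sg, sg, Representation.tprod_apply, Representation.tprod_apply, TensorProduct.map_tmul, LinearMap.rTensor_tmul,
      LinearMap.rTensor_tmul, TensorProduct.map_tmul, dd_lam]

/-- the chains with coefficients in two sets -/
noncomputable def Ch (K : Type) [Group K] (α : Type) (A B : Set E) : Submodule (ZMod 2) (Tc K E α) :=
  Submodule.span (ZMod 2) {z | ∃ p : α → MonoidAlgebra (ZMod 2) K, ∃ x ∈ A, ∃ y ∈ B, z = p ⊗ₜ[ZMod 2] (x ⊗ₜ[ZMod 2] y)}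

lemma Ch.mk {α : Type} {A B : Set E} (p : α → MonoidAlgebra (ZMod 2) K) {x y : E} (hx : x ∈ A) (hy : y ∈ B) :
    p ⊗ₜ[ZMod 2] (x ⊗ₜ[ZMod 2] y) ∈ Ch K α A B := Submodule.subset_span ⟨p, x, hx, y, hy, rfl⟩

/-- a linear map maps chains to a submodule if it does so on generators -/
lemma Ch.map {α : Type} {A B : Set E} {X : Type} [AddCommGroup X] [Module (ZMod 2) X] (f : Tc K E α →ₗ[ZMod 2] X)
    (S : Submodule (ZMod 2) X) (h : ∀ p : α → MonoidAlgebra (ZMod 2) K, ∀ x ∈ A, ∀ y ∈ B, f (p ⊗ₜ[ZMod 2] (x ⊗ₜ[ZMod 2] y)) ∈ S)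
    {z : Tc K E α} (hz : z ∈ Ch K α A B) : f z ∈ S := by
  refine Submodule.span_induction (p := fun z _ => f z ∈ S) ?_ (by rw [map_zero]; exact zero_mem _)
    (fun x y _ _ hx hy => by rw [map_add]; exact add_mem hx hy) (fun c x _ hx => by rw [map_smul]; exact S.smul_mem c hx) hz
  rintro _ ⟨p, x, hx, y, hy, rfl⟩
  exact h p x hx y hy

/-- two linear maps which agree on generators agree on chains -/
lemma Ch.eq {α : Type} {A B : Set E} {X : Type} [AddCommGroup X] [Module (ZMod 2) X] (f g : Tc K E α →ₗ[ZMod 2] X)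
    (h : ∀ p : α → MonoidAlgebra (ZMod 2) K, ∀ x ∈ A, ∀ y ∈ B, f (p ⊗ₜ[ZMod 2] (x ⊗ₜ[ZMod 2] y)) =
      g (p ⊗ₜ[ZMod 2] (x ⊗ₜ[ZMod 2] y)))
    {z : Tc K E α} (hz : z ∈ Ch K α A B) : f z = g z := by
  refine Submodule.span_induction (p := fun z _ => f z = g z) ?_ (by rw [map_zero, map_zero])
    (fun x y _ _ hx hy => by rw [map_add, hx, hy, map_add]) (fun c x _ hx => by rw [map_smul, hx, map_smul]) hz
  rintro _ ⟨p, x, hx, y, hy, rfl⟩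
  exact h p x hx y hy

lemma Ch.univ (α : Type) (z : Tc K E α) : z ∈ Ch K α (Set.univ : Set E) Set.univ := by
  induction z using TensorProduct.induction_on with
  | zero => exact zero_mem _
  | add x y hx hy => exact add_mem hx hy
  | tmul p z =>
    induction z using TensorProduct.induction_on with
    | zero => rw [TensorProduct.tmul_zero]; exact zero_mem _
    | add x y hx hy => rw [TensorProduct.tmul_add]; exact add_mem hx hy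
    | tmul x y => exact Ch.mk p trivial trivial

lemma Ch.mono {α : Type} {A B A' B' : Set E} (hA : A ⊆ A') (hB : B ⊆ B') : Ch K α A B ≤ Ch K α A' B' :=
  Submodule.span_mono fun _ ⟨p, x, hx, y, hy, h⟩ => ⟨p, x, hA hx, y, hB hy, h⟩

/-- two linear maps which agree on generators are equal -/
lemma ext3 {α : Type} {X : Type} [AddCommGroup X] [Module (ZMod 2) X] (f g : Tc K E α →ₗ[ZMod 2] X)
    (h : ∀ (p : α → MonoidAlgebra (ZMod 2) K) (x y : E), f (p ⊗ₜ[ZMod 2] (x ⊗ₜ[ZMod 2] y)) =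
      g (p ⊗ₜ[ZMod 2] (x ⊗ₜ[ZMod 2] y))) (z : Tc K E α) : f z = g z :=
  Ch.eq f g (fun p x _ y _ => h p x y) (Ch.univ α z)

variable (ρ : K →* Eˣ)

/-- the span of the differences `g z - z` -/
noncomputable def Iv (α : Type) (N : Subgroup K) : Submodule (ZMod 2) (Tc K E α) :=
  Submodule.span (ZMod 2) {z | ∃ g ∈ N, ∃ x ∈ Ch K α (cl ρ N : Set E) (cl ρ N), z = sg (ten ρ) α g x - x}

lemma Iv.mk {α : Type} {N : Subgroup K} {g : K} (hg : g ∈ N) {x : Tc K E α} (hx : x ∈ Ch K α (cl ρ N : Set E) (cl ρ N)) :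
    sg (ten ρ) α g x - x ∈ Iv ρ α N := Submodule.subset_span ⟨g, hg, x, hx, rfl⟩

lemma Iv.map {α : Type} {N : Subgroup K} {X : Type} [AddCommGroup X] [Module (ZMod 2) X] (f : Tc K E α →ₗ[ZMod 2] X)
    (S : Submodule (ZMod 2) X) (h : ∀ g ∈ N, ∀ x ∈ Ch K α (cl ρ N : Set E) (cl ρ N), f (sg (ten ρ) α g x) - f x ∈ S)
    {z : Tc K E α} (hz : z ∈ Iv ρ α N) : f z ∈ S := by
  refine Submodule.span_induction (p := fun z _ => f z ∈ S) ?_ (by rw [map_zero]; exact zero_mem _)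
    (fun x y _ _ hx hy => by rw [map_add]; exact add_mem hx hy) (fun c x _ hx => by rw [map_smul]; exact S.smul_mem c hx) hz
  rintro _ ⟨g, hg, x, hx, rfl⟩
  rw [map_sub]
  exact h g hg x hx

lemma cl_mono {N N' : Subgroup K} (h : N' ≤ N) : cl ρ N' ≤ cl ρ N :=
  Subfield.closure_mono (Set.image_mono h)

lemma mem_cl {N : Subgroup K} {g : K} (h : g ∈ N) : ((ρ g : Eˣ) : E) ∈ cl ρ N :=
  Subfield.subset_closure ⟨g, h, rfl⟩

lemma Iv.mono {α : Type} {N N' : Subgroup K} (h : N' ≤ N) : Iv ρ α N' ≤ Iv ρ α N :=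
  Submodule.span_mono fun _ ⟨g, hg, x, hx, e⟩ => ⟨g, h hg, x, Ch.mono (cl_mono ρ h) (cl_mono ρ h) hx, e⟩

lemma Ch.sg {α : Type} {N : Subgroup K} {g : K} (hg : g ∈ N) {z : Tc K E α} (hz : z ∈ Ch K α (cl ρ N : Set E) (cl ρ N)) :
    Acr.sg (ten ρ) α g z ∈ Ch K α (cl ρ N : Set E) (cl ρ N) := by
  refine Ch.map _ _ (fun p x hx y hy => ?_) hz
  rw [sg_tmul]
  exact Ch.mk _ ((cl ρ N).mul_mem hx (mem_cl ρ (N.inv_mem hg))) ((cl ρ N).mul_mem (mem_cl ρ hg) hy)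

lemma Ch.d {α β : Type} [Fintype α] (P : Matrix α β (MonoidAlgebra ℤ K)) {A B : Set E} {z : Tc K E α} (hz : z ∈ Ch K α A B) :
    (dd P).rTensor (E ⊗[ZMod 2] E) z ∈ Ch K β A B := by
  refine Ch.map _ _ (fun p x hx y hy => ?_) hz
  rw [LinearMap.rTensor_tmul]
  exact Ch.mk _ hx hy

lemma Iv.d {α β : Type} [Fintype α] (P : Matrix α β (MonoidAlgebra ℤ K)) {N : Subgroup K} {z : Tc K E α} (hz : z ∈ Iv ρ α N) :
    (dd P).rTensor (E ⊗[ZMod 2] E) z ∈ Iv ρ β N := by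
  refine Iv.map ρ _ _ (fun g hg x hx => ?_) hz
  rw [sg_d]
  exact Iv.mk ρ hg (Ch.d P hx)

variable (R : FinRes K)

/-- the boundary -/
noncomputable abbrev bd (q : ℕ) : Tc K E (R.ι (q + 1)) →ₗ[ZMod 2] Tc K E (R.ι q) := (dd (R.d q)).rTensor (E ⊗[ZMod 2] E)

/-- the boundaries modulo the differences -/
noncomputable def Bv (N : Subgroup K) (q : ℕ) : Submodule (ZMod 2) (Tc K E (R.ι q)) :=
  Submodule.map (bd R q) (Ch K (R.ι (q + 1)) (cl ρ N : Set E) (cl ρ N)) ⊔ Iv ρ (R.ι q) N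

lemma Bv.mono {N N' : Subgroup K} (h : N' ≤ N) (q : ℕ) : Bv ρ R N' q ≤ Bv ρ R N q :=
  sup_le_sup (Submodule.map_mono (Ch.mono (cl_mono ρ h) (cl_mono ρ h))) (Iv.mono ρ h)

lemma Iv.le_Bv (N : Subgroup K) (q : ℕ) : Iv ρ (R.ι q) N ≤ Bv ρ R N q := le_sup_right

lemma Bv.of_d {N : Subgroup K} {q : ℕ} {z : Tc K E (R.ι (q + 1))} (hz : z ∈ Ch K (R.ι (q + 1)) (cl ρ N : Set E) (cl ρ N)) :
    bd R q z ∈ Bv ρ R N q := Submodule.mem_sup_left ⟨z, hz, rfl⟩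

/-- an operator which commutes with boundaries and preserves chains and differences preserves boundaries -/
lemma Bv.stable {N : Subgroup K} {q : ℕ} (f : Tc K E (R.ι q) →ₗ[ZMod 2] Tc K E (R.ι q))
    (f' : Tc K E (R.ι (q + 1)) →ₗ[ZMod 2] Tc K E (R.ι (q + 1)))
    (h1 : ∀ z, bd R q (f' z) = f (bd R q z))
    (h2 : ∀ p, ∀ x ∈ cl ρ N, ∀ y ∈ cl ρ N, f' (p ⊗ₜ[ZMod 2] (x ⊗ₜ[ZMod 2] y)) ∈ Ch K (R.ι (q + 1)) (cl ρ N : Set E) (cl ρ N))
    (h3 : ∀ z ∈ Iv ρ (R.ι q) N, f z ∈ Iv ρ (R.ι q) N) {z : Tc K E (R.ι q)} (hz : z ∈ Bv ρ R N q) : f z ∈ Bv ρ R N q := by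
  obtain ⟨_, ⟨b, hb, rfl⟩, c, hc, rfl⟩ := Submodule.mem_sup.1 hz
  rw [map_add, ← h1]
  exact add_mem (Bv.of_d ρ R (Ch.map _ _ h2 hb)) (Iv.le_Bv ρ R N q (h3 c hc))

/-- the statement of the induction -/
def Va (N : Subgroup K) (G : Set E) : Prop :=
  ∀ q, ∀ c ∈ Ch K (R.ι (q + 1)) G (cl ρ N : Set E), bd R q c ∈ Iv ρ (R.ι q) N → c ∈ Bv ρ R N (q + 1)

/-! ### the operators -/

/-- left multiplication in the first factor -/
noncomputable def Lx (α : Type) (s : E) : Tc K E α →ₗ[ZMod 2] Tc K E α :=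
  (TensorProduct.map (LinearMap.mulLeft (ZMod 2) s) LinearMap.id).lTensor _

/-- right multiplication in the second factor -/
noncomputable def Rx (α : Type) (s : E) : Tc K E α →ₗ[ZMod 2] Tc K E α :=
  (TensorProduct.map LinearMap.id (LinearMap.mulRight (ZMod 2) s)).lTensor _

lemma Lx_tmul {α : Type} (s : E) (p : α → MonoidAlgebra (ZMod 2) K) (x y : E) :
    Lx α s (p ⊗ₜ[ZMod 2] (x ⊗ₜ[ZMod 2] y)) = p ⊗ₜ[ZMod 2] ((s * x) ⊗ₜ[ZMod 2] y) := rfl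

lemma Rx_tmul {α : Type} (s : E) (p : α → MonoidAlgebra (ZMod 2) K) (x y : E) :
    Rx α s (p ⊗ₜ[ZMod 2] (x ⊗ₜ[ZMod 2] y)) = p ⊗ₜ[ZMod 2] (x ⊗ₜ[ZMod 2] (y * s)) := rfl

/-- conjugation -/
noncomputable def cj (u : Eˣ) : E →ₗ[ZMod 2] E :=
  LinearMap.mulLeft (ZMod 2) (u : E) ∘ₗ LinearMap.mulRight (ZMod 2) ((u⁻¹ : Eˣ) : E)

lemma cj_apply (u : Eˣ) (x : E) : cj u x = (u : E) * (x * ((u⁻¹ : Eˣ) : E)) := rfl

/-- translation by an element which normalizes -/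
noncomputable def Ux (α : Type) (t : K) : Tc K E α →ₗ[ZMod 2] Tc K E α :=
  TensorProduct.map (lam α t) (TensorProduct.map (cj (ρ t)) (cj (ρ t)))

lemma Ux_tmul {α : Type} (t : K) (p : α → MonoidAlgebra (ZMod 2) K) (x y : E) :
    Ux ρ α t (p ⊗ₜ[ZMod 2] (x ⊗ₜ[ZMod 2] y)) = (lam α t p) ⊗ₜ[ZMod 2] ((cj (ρ t) x) ⊗ₜ[ZMod 2] (cj (ρ t) y)) := rfl

lemma Lx_d {α β : Type} [Fintype α] (P : Matrix α β (MonoidAlgebra ℤ K)) (s : E) (z : Tc K E α) :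
    (dd P).rTensor (E ⊗[ZMod 2] E) (Lx α s z) = Lx β s ((dd P).rTensor (E ⊗[ZMod 2] E) z) :=
  ext3 ((dd P).rTensor _ ∘ₗ Lx α s) (Lx β s ∘ₗ (dd P).rTensor _) (fun _ _ _ => rfl) z

lemma Rx_d {α β : Type} [Fintype α] (P : Matrix α β (MonoidAlgebra ℤ K)) (s : E) (z : Tc K E α) :
    (dd P).rTensor (E ⊗[ZMod 2] E) (Rx α s z) = Rx β s ((dd P).rTensor (E ⊗[ZMod 2] E) z) :=
  ext3 ((dd P).rTensor _ ∘ₗ Rx α s) (Rx β s ∘ₗ (dd P).rTensor _) (fun _ _ _ => rfl) z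

lemma Ux_d {α β : Type} [Fintype α] (P : Matrix α β (MonoidAlgebra ℤ K)) (t : K) (z : Tc K E α) :
    (dd P).rTensor (E ⊗[ZMod 2] E) (Ux ρ α t z) = Ux ρ β t ((dd P).rTensor (E ⊗[ZMod 2] E) z) :=
  ext3 ((dd P).rTensor _ ∘ₗ Ux ρ α t) (Ux ρ β t ∘ₗ (dd P).rTensor _) (fun p x y => by
    simp only [LinearMap.comp_apply, LinearMap.rTensor_tmul, Ux_tmul, dd_lam]) z

lemma Lx_sg {α : Type} (s : E) (g : K) (z : Tc K E α) : Lx α s (sg (ten ρ) α g z) = sg (ten ρ) α g (Lx α s z) :=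
  ext3 (Lx α s ∘ₗ sg (ten ρ) α g) (sg (ten ρ) α g ∘ₗ Lx α s) (fun p x y => by
    simp only [LinearMap.comp_apply, sg_tmul, Lx_tmul, mul_assoc]) z

lemma Rx_sg {α : Type} (s : E) (g : K) (z : Tc K E α) : Rx α s (sg (ten ρ) α g z) = sg (ten ρ) α g (Rx α s z) :=
  ext3 (Rx α s ∘ₗ sg (ten ρ) α g) (sg (ten ρ) α g ∘ₗ Rx α s) (fun p x y => by
    simp only [LinearMap.comp_apply, sg_tmul, Rx_tmul, mul_assoc]) z

lemma Ux_sg {α : Type} (t g : K) (z : Tc K E α) :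
    Ux ρ α t (sg (ten ρ) α g z) = sg (ten ρ) α (t * g * t⁻¹) (Ux ρ α t z) :=
  ext3 (Ux ρ α t ∘ₗ sg (ten ρ) α g) (sg (ten ρ) α (t * g * t⁻¹) ∘ₗ Ux ρ α t) (fun p x y => by
    simp only [LinearMap.comp_apply, sg_tmul, Ux_tmul, cj_apply]
    congr 1
    · rw [← Module.End.mul_apply, ← map_mul, ← Module.End.mul_apply, ← map_mul]
      simp
    · congr 1
      · simp [mul_assoc]
      · simp [mul_assoc]) z

lemma cj_cl {N : Subgroup K} {t : K} (ht : ∀ g ∈ N, t * g * t⁻¹ ∈ N) {x : E} (hx : x ∈ cl ρ N) : cj (ρ t) x ∈ cl ρ N := by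
  have hne : ((ρ t : Eˣ) : E) * (((ρ t)⁻¹ : Eˣ) : E) = 1 := by rw [← Units.val_mul, mul_inv_cancel, Units.val_one]
  have hne' : (((ρ t)⁻¹ : Eˣ) : E) * ((ρ t : Eˣ) : E) = 1 := by rw [← Units.val_mul, inv_mul_cancel, Units.val_one]
  refine Subfield.closure_induction (p := fun x _ => cj (ρ t) x ∈ cl ρ N) ?_ ?_ ?_ ?_ ?_ ?_ hx
  · rintro _ ⟨g, hg, rfl⟩
    refine Subfield.subset_closure ⟨t * g * t⁻¹, ht g hg, ?_⟩
    show ((ρ (t * g * t⁻¹) : Eˣ) : E) = _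
    rw [cj_apply, map_mul, map_mul, map_inv, Units.val_mul, Units.val_mul, mul_assoc]
  · rw [cj_apply, one_mul, hne]; exact one_mem _
  · intro x y _ _ hx hy
    rw [map_add]; exact add_mem hx hy
  · intro x _ hx
    rw [map_neg]; exact neg_mem hx
  · intro x _ hx
    have h1 : cj (ρ t) x⁻¹ = (cj (ρ t) x)⁻¹ := by
      rw [cj_apply, cj_apply, mul_inv_rev, mul_inv_rev]
      have h2 : (((ρ t)⁻¹ : Eˣ) : E)⁻¹ = ((ρ t : Eˣ) : E) := by rw [Units.val_inv_eq_inv_val, inv_inv]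
      rw [h2, mul_assoc, Units.val_inv_eq_inv_val]
    rw [h1]; exact inv_mem hx
  · intro x y _ _ hx hy
    have h1 : cj (ρ t) (x * y) = cj (ρ t) x * cj (ρ t) y := by
      simp only [cj_apply]
      rw [mul_assoc, mul_assoc, mul_assoc, ← mul_assoc (((ρ t)⁻¹ : Eˣ) : E), hne', one_mul]
    rw [h1]; exact mul_mem hx hy

lemma Ch.Lx {α : Type} {N : Subgroup K} {s : E} (hs : s ∈ cl ρ N) {z : Tc K E α} (hz : z ∈ Ch K α (cl ρ N : Set E) (cl ρ N)) :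
    Tor.Lx α s z ∈ Ch K α (cl ρ N : Set E) (cl ρ N) := by
  refine Ch.map _ _ (fun p x hx y hy => ?_) hz
  rw [Lx_tmul]
  exact Ch.mk _ ((cl ρ N).mul_mem hs hx) hy

lemma Ch.Rx {α : Type} {N : Subgroup K} {s : E} (hs : s ∈ cl ρ N) {z : Tc K E α} (hz : z ∈ Ch K α (cl ρ N : Set E) (cl ρ N)) :
    Tor.Rx α s z ∈ Ch K α (cl ρ N : Set E) (cl ρ N) := by
  refine Ch.map _ _ (fun p x hx y hy => ?_) hz
  rw [Rx_tmul]
  exact Ch.mk _ hx ((cl ρ N).mul_mem hy hs)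

lemma Ch.Ux {α : Type} {N : Subgroup K} {t : K} (ht : ∀ g ∈ N, t * g * t⁻¹ ∈ N) {z : Tc K E α}
    (hz : z ∈ Ch K α (cl ρ N : Set E) (cl ρ N)) : Tor.Ux ρ α t z ∈ Ch K α (cl ρ N : Set E) (cl ρ N) := by
  refine Ch.map _ _ (fun p x hx y hy => ?_) hz
  rw [Ux_tmul]
  exact Ch.mk _ (cj_cl ρ ht hx) (cj_cl ρ ht hy)

lemma Bv.Lx {N : Subgroup K} {q : ℕ} {s : E} (hs : s ∈ cl ρ N) {z : Tc K E (R.ι q)} (hz : z ∈ Bv ρ R N q) :
    Tor.Lx (R.ι q) s z ∈ Bv ρ R N q := by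
  refine Bv.stable ρ R _ (Tor.Lx (R.ι (q + 1)) s) (fun z => Lx_d (R.d q) s z) (fun p x hx y hy => ?_) (fun z hz => ?_) hz
  · rw [Lx_tmul]
    exact Ch.mk _ ((cl ρ N).mul_mem hs hx) hy
  · refine Iv.map ρ _ _ (fun g hg x hx => ?_) hz
    rw [Lx_sg]
    exact Iv.mk ρ hg (Ch.Lx ρ hs hx)

lemma Bv.Rx {N : Subgroup K} {q : ℕ} {s : E} (hs : s ∈ cl ρ N) {z : Tc K E (R.ι q)} (hz : z ∈ Bv ρ R N q) :
    Tor.Rx (R.ι q) s z ∈ Bv ρ R N q := by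
  refine Bv.stable ρ R _ (Tor.Rx (R.ι (q + 1)) s) (fun z => Rx_d (R.d q) s z) (fun p x hx y hy => ?_) (fun z hz => ?_) hz
  · rw [Rx_tmul]
    exact Ch.mk _ hx ((cl ρ N).mul_mem hy hs)
  · refine Iv.map ρ _ _ (fun g hg x hx => ?_) hz
    rw [Rx_sg]
    exact Iv.mk ρ hg (Ch.Rx ρ hs hx)

lemma Bv.Ux {N : Subgroup K} {q : ℕ} {t : K} (ht : ∀ g ∈ N, t * g * t⁻¹ ∈ N) {z : Tc K E (R.ι q)} (hz : z ∈ Bv ρ R N q) :
    Tor.Ux ρ (R.ι q) t z ∈ Bv ρ R N q := by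
  refine Bv.stable ρ R _ (Tor.Ux ρ (R.ι (q + 1)) t) (fun z => Ux_d ρ (R.d q) t z) (fun p x hx y hy => ?_) (fun z hz => ?_) hz
  · rw [Ux_tmul]
    exact Ch.mk _ (cj_cl ρ ht hx) (cj_cl ρ ht hy)
  · refine Iv.map ρ _ _ (fun g hg x hx => ?_) hz
    rw [Ux_sg]
    exact Iv.mk ρ (ht g hg) (Ch.Ux ρ ht hx)

end base

end SQ.T3.Tor
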