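import Pool.Agent.SQ.T3.TorA

/-!
# SQ, third stage: one step of the induction
-/

set_option autoImplicit false
set_option linter.unusedSectionVars false

open scoped TensorProduct

namespace SQ.T3.Tor

open Singer SQ.Acr

section theta
variable {K : Type} [Group K] {E : Type} [DivisionRing E] [Algebra (ZMod 2) E] (ρ : K →* Eˣ)
  {F L : Subfield E} (t : K) (st : Step F L (ρ t))

lemma cj_cj (u v : Eˣ) (x : E) : cj u (cj v x) = cj (u * v) x := by
  simp only [cj_apply, mul_inv_rev, Units.val_mul, mul_assoc]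

lemma cj_rho (s g : K) : cj (ρ s) ((ρ g : Eˣ) : E) = ((ρ (s * g * s⁻¹) : Eˣ) : E) := by
  rw [cj_apply, map_mul, map_mul, map_inv, Units.val_mul, Units.val_mul, mul_assoc]

lemma cj_one (x : E) : cj (1 : Eˣ) x = x := by
  rw [cj_apply, inv_one, Units.val_one, one_mul, mul_one]

lemma cj_mul (u : Eˣ) (x y : E) : cj u (x * y) = cj u x * cj u y := by
  have h : ((u⁻¹ : Eˣ) : E) * (u : E) = 1 := by rw [← Units.val_mul, inv_mul_cancel, Units.val_one]
  simp only [cj_apply, mul_assoc]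
  rw [← mul_assoc ((u⁻¹ : Eˣ) : E) (u : E), h, one_mul]

/-- one term of the expansion of a tensor -/
noncomputable def ct (w u : ℤ) (x y : E) : E ⊗[ZMod 2] E := st.κ x u ⊗ₜ[ZMod 2] (cj (ρ (t ^ u)) (st.κ y (w - u)))

lemma ct_fin (w : ℤ) (x y : E) : (Function.support fun u => ct ρ t st w u x y).Finite := by
  obtain ⟨m, hm⟩ := st.bdd x
  obtain ⟨n, hn⟩ := st.bdd y
  refine (Set.finite_Icc m (w - n)).subset fun u hu => ?_
  by_contra h
  rw [Set.mem_Icc, not_and_or, not_le, not_le] at h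
  apply hu
  show ct ρ t st w u x y = 0
  rcases h with h | h
  · rw [ct, hm u h, TensorProduct.zero_tmul]
  · rw [ct, hn (w - u) (by omega), map_zero, TensorProduct.tmul_zero]

/-- the expansion of a tensor -/
noncomputable def cf (w : ℤ) (x y : E) : ℤ →₀ E ⊗[ZMod 2] E :=
  Finsupp.ofSupportFinite (fun u => ct ρ t st w u x y) (ct_fin ρ t st w x y)

lemma cf_apply (w : ℤ) (x y : E) (u : ℤ) : cf ρ t st w x y u = ct ρ t st w u x y := rfl

/-- the expansion as a linear map -/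
noncomputable def cw (w : ℤ) : E ⊗[ZMod 2] E →ₗ[ZMod 2] (ℤ →₀ E ⊗[ZMod 2] E) :=
  TensorProduct.lift (LinearMap.mk₂ (ZMod 2) (fun x y => cf ρ t st w x y)
    (fun x x' y => by
      apply Finsupp.ext
      intro u
      rw [Finsupp.add_apply, cf_apply, cf_apply, cf_apply, ct, ct, ct, map_add, Pi.add_apply, TensorProduct.add_tmul])
    (fun c x y => by
      apply Finsupp.ext
      intro u
      rw [Finsupp.smul_apply, cf_apply, cf_apply, ct, ct, ZMod.map_smul, Pi.smul_apply, TensorProduct.smul_tmul'])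
    (fun x y y' => by
      apply Finsupp.ext
      intro u
      rw [Finsupp.add_apply, cf_apply, cf_apply, cf_apply, ct, ct, ct, map_add, Pi.add_apply, map_add,
        TensorProduct.tmul_add])
    (fun c x y => by
      apply Finsupp.ext
      intro u
      rw [Finsupp.smul_apply, cf_apply, cf_apply, ct, ct, ZMod.map_smul, Pi.smul_apply, map_smul,
        TensorProduct.tmul_smul]))

lemma cw_tmul (w : ℤ) (x y : E) : cw ρ t st w (x ⊗ₜ[ZMod 2] y) = cf ρ t st w x y := by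
  rw [cw, TensorProduct.lift.tmul, LinearMap.mk₂_apply]

/-- the map `θ w` -/
noncomputable def th (α : Type) (w : ℤ) : Tc K E α →ₗ[ZMod 2] Tc K E α :=
  TensorProduct.lift (LinearMap.mk₂ (ZMod 2)
    (fun p z => (cw ρ t st w z).sum fun u e => lam α (t ^ u) p ⊗ₜ[ZMod 2] e)
    (fun p p' z => by
      rw [← Finsupp.sum_add]
      refine Finsupp.sum_congr fun u _ => ?_
      rw [map_add, TensorProduct.add_tmul])
    (fun c p z => by
      rw [Finsupp.smul_sum]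
      refine Finsupp.sum_congr fun u _ => ?_
      rw [map_smul, TensorProduct.smul_tmul'])
    (fun p z z' => by
      rw [map_add, Finsupp.sum_add_index']
      · intro u; rw [TensorProduct.tmul_zero]
      · intro u e e'; rw [TensorProduct.tmul_add])
    (fun c p z => by
      rw [map_smul, Finsupp.sum_smul_index' (by intro u; rw [TensorProduct.tmul_zero]), Finsupp.smul_sum]
      refine Finsupp.sum_congr fun u _ => ?_
      rw [TensorProduct.tmul_smul]))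

/-- one term -/
noncomputable def tm {α : Type} (w : ℤ) (p : α → MonoidAlgebra (ZMod 2) K) (x y : E) (u : ℤ) : Tc K E α :=
  lam α (t ^ u) p ⊗ₜ[ZMod 2] ct ρ t st w u x y

lemma tm_fin {α : Type} (w : ℤ) (p : α → MonoidAlgebra (ZMod 2) K) (x y : E) :
    (Function.support (tm ρ t st w p x y)).Finite := by
  refine (ct_fin ρ t st w x y).subset fun u hu h => hu ?_
  have h' : ct ρ t st w u x y = 0 := h
  rw [tm, h', TensorProduct.tmul_zero]

lemma th_tmul {α : Type} (w : ℤ) (p : α → MonoidAlgebra (ZMod 2) K) (x y : E) :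
    th ρ t st α w (p ⊗ₜ[ZMod 2] (x ⊗ₜ[ZMod 2] y)) = ∑ᶠ u, tm ρ t st w p x y u := by
  rw [th, TensorProduct.lift.tmul, LinearMap.mk₂_apply, cw_tmul]
  have h1 : Function.support (tm ρ t st w p x y) ⊆ ((cf ρ t st w x y).support : Set ℤ) := by
    intro u hu
    rw [Finset.mem_coe, Finsupp.mem_support_iff]
    intro h
    apply hu
    rw [tm, ← cf_apply, h, TensorProduct.tmul_zero]
  rw [finsum_eq_sum_of_support_subset _ h1]
  rfl

lemma map_th {α : Type} {X : Type} [AddCommGroup X] [Module (ZMod 2) X] (f : Tc K E α →ₗ[ZMod 2] X) (w : ℤ)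
    (p : α → MonoidAlgebra (ZMod 2) K) (x y : E) :
    f (th ρ t st α w (p ⊗ₜ[ZMod 2] (x ⊗ₜ[ZMod 2] y))) = ∑ᶠ u, f (tm ρ t st w p x y u) := by
  rw [th_tmul]
  exact f.toAddMonoidHom.map_finsum (tm_fin ρ t st w p x y)

lemma sum_shift {X : Type} [AddCommGroup X] (f : ℤ → X) (n : ℤ) : ∑ᶠ u, f (u + n) = ∑ᶠ u, f u :=
  finsum_comp_equiv (Equiv.addRight n) (f := f)

lemma th_d {α β : Type} [Fintype α] (P : Matrix α β (MonoidAlgebra ℤ K)) (w : ℤ) (z : Tc K E α) :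
    (dd P).rTensor (E ⊗[ZMod 2] E) (th ρ t st α w z) = th ρ t st β w ((dd P).rTensor (E ⊗[ZMod 2] E) z) :=
  ext3 ((dd P).rTensor _ ∘ₗ th ρ t st α w) (th ρ t st β w ∘ₗ (dd P).rTensor _) (fun p x y => by
    rw [LinearMap.comp_apply, LinearMap.comp_apply, map_th, LinearMap.rTensor_tmul, th_tmul]
    refine finsum_congr fun u => ?_
    rw [tm, LinearMap.rTensor_tmul, dd_lam]
    rfl) z

variable (htL : ((ρ t : Eˣ) : E) ∈ L) (hFL : F ≤ L)

lemma mul_inv_t (x : E) : x * ((ρ t⁻¹ : Eˣ) : E) * ((ρ t : Eˣ) : E) = x := by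
  rw [mul_assoc, ← Units.val_mul, ← map_mul, inv_mul_cancel, map_one, Units.val_one, mul_one]

include htL in
lemma inv_t_mem : ((ρ t⁻¹ : Eˣ) : E) ∈ L := by
  rw [map_inv, Units.val_inv_eq_inv_val]
  exact inv_mem htL

include htL in
lemma kap_inv {x : E} (hx : x ∈ L) (u : ℤ) : st.κ (x * ((ρ t⁻¹ : Eˣ) : E)) u = st.κ x (u + 1) := by
  have h1 := st.right_t (x * ((ρ t⁻¹ : Eˣ) : E)) (L.mul_mem hx (inv_t_mem ρ t htL)) (u + 1)
  rw [mul_inv_t, add_sub_cancel_right] at h1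
  exact h1.symm

lemma kap_left {x : E} (hx : x ∈ L) (u : ℤ) : st.κ (((ρ t : Eˣ) : E) * x) u = cj (ρ t) (st.κ x (u - 1)) := by
  rw [st.left_t x hx u, cj_apply, mul_assoc]

lemma kap_right {x f : E} (hf : f ∈ F) (hx : x ∈ L) (u : ℤ) :
    st.κ (x * f) u = st.κ x u * cj (ρ (t ^ u)) f := by
  rw [st.right_F f hf x hx u, cj_apply, map_zpow, zpow_neg, mul_assoc ((ρ t ^ u : Eˣ) : E)]

include htL in
/-- **(c1)** -/
lemma th_sg_t {α : Type} (w : ℤ) {z : Tc K E α} (hz : z ∈ Ch K α (L : Set E) L) :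
    th ρ t st α w (sg (ten ρ) α t z) = th ρ t st α w z := by
  refine Ch.eq (th ρ t st α w ∘ₗ sg (ten ρ) α t) (th ρ t st α w) (fun p x hx y hy => ?_) hz
  rw [LinearMap.comp_apply, sg_tmul, th_tmul, th_tmul, ← sum_shift (tm ρ t st w p x y) 1]
  refine finsum_congr fun u => ?_
  rw [tm, tm, ct, ct, kap_inv ρ t st htL hx, kap_left ρ t st hy, cj_cj, ← map_mul, ← zpow_add_one, ← Module.End.mul_apply,
    ← map_mul, ← zpow_add_one, show w - u - 1 = w - (u + 1) by ring]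

include htL in
lemma th_sg_pow {α : Type} (hsg : ∀ (n : ℤ) (z : Tc K E α), z ∈ Ch K α (L : Set E) L → sg (ten ρ) α (t ^ n) z ∈ Ch K α (L : Set E) L)
    (w : ℤ) (n : ℤ) {z : Tc K E α} (hz : z ∈ Ch K α (L : Set E) L) :
    th ρ t st α w (sg (ten ρ) α (t ^ n) z) = th ρ t st α w z := by
  induction n using Int.induction_on with
  | zero => rw [zpow_zero, map_one]; rfl
  | succ n ih =>
    rw [add_comm, zpow_one_add, map_mul, Module.End.mul_apply, th_sg_t ρ t st htL w (hsg n z hz), ih]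
  | pred n ih =>
    have h : sg (ten ρ) α t (sg (ten ρ) α (t ^ (-(n : ℤ) - 1)) z) = sg (ten ρ) α (t ^ (-(n : ℤ))) z := by
      rw [← Module.End.mul_apply, ← map_mul, ← zpow_one_add, show (1 : ℤ) + (-n - 1) = -n by ring]
    rw [← ih, ← h, th_sg_t ρ t st htL w (hsg (-n - 1) z hz)]

include hFL in
lemma th_Lx_F {α : Type} (w : ℤ) {f : E} (hf : f ∈ F) {z : Tc K E α} (hz : z ∈ Ch K α (L : Set E) L) :
    th ρ t st α w (Lx α f z) = Lx α f (th ρ t st α w z) := by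
  refine Ch.eq (th ρ t st α w ∘ₗ Lx α f) (Lx α f ∘ₗ th ρ t st α w) (fun p x hx y hy => ?_) hz
  rw [LinearMap.comp_apply, LinearMap.comp_apply, Lx_tmul, th_tmul, map_th]
  refine finsum_congr fun u => ?_
  rw [tm, tm, ct, ct, Lx_tmul, st.left_F f hf x hx u]

lemma th_Lx_t {α : Type} (w : ℤ) {z : Tc K E α} (hz : z ∈ Ch K α (L : Set E) L) :
    th ρ t st α w (Lx α ((ρ t : Eˣ) : E) z) = Ux ρ α t (th ρ t st α (w - 1) z) := by
  refine Ch.eq (th ρ t st α w ∘ₗ Lx α ((ρ t : Eˣ) : E)) (Ux ρ α t ∘ₗ th ρ t st α (w - 1)) (fun p x hx y hy => ?_) hz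
  rw [LinearMap.comp_apply, LinearMap.comp_apply, Lx_tmul, th_tmul, map_th,
    ← sum_shift (tm ρ t st w p (((ρ t : Eˣ) : E) * x) y) 1]
  refine finsum_congr fun u => ?_
  rw [tm, tm, ct, ct, Ux_tmul, kap_left ρ t st hx, cj_cj, ← map_mul, ← zpow_one_add, ← Module.End.mul_apply, ← map_mul,
    ← zpow_one_add, add_sub_cancel_right, show w - (u + 1) = w - 1 - u by ring, add_comm 1 u]

lemma th_Rx_F {α : Type} (w : ℤ) {f : E} (hf : f ∈ F) {z : Tc K E α} (hz : z ∈ Ch K α (L : Set E) L) :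
    th ρ t st α w (Rx α f z) = Rx α (cj (ρ (t ^ w)) f) (th ρ t st α w z) := by
  refine Ch.eq (th ρ t st α w ∘ₗ Rx α f) (Rx α (cj (ρ (t ^ w)) f) ∘ₗ th ρ t st α w) (fun p x hx y hy => ?_) hz
  rw [LinearMap.comp_apply, LinearMap.comp_apply, Rx_tmul, th_tmul, map_th]
  refine finsum_congr fun u => ?_
  rw [tm, tm, ct, ct, Rx_tmul, kap_right ρ t st hf hy, cj_mul, cj_cj, ← map_mul, ← zpow_add,
    show u + (w - u) = w by ring]

lemma th_Rx_t {α : Type} (w : ℤ) {z : Tc K E α} (hz : z ∈ Ch K α (L : Set E) L) :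
    th ρ t st α w (Rx α ((ρ t : Eˣ) : E) z) = th ρ t st α (w - 1) z := by
  refine Ch.eq (th ρ t st α w ∘ₗ Rx α ((ρ t : Eˣ) : E)) (th ρ t st α (w - 1)) (fun p x hx y hy => ?_) hz
  rw [LinearMap.comp_apply, Rx_tmul, th_tmul, th_tmul]
  refine finsum_congr fun u => ?_
  rw [tm, tm, ct, ct, st.right_t y hy, show w - u - 1 = w - 1 - u by ring]

/-- the value on the monomials -/
lemma th_mon {α : Type} (w : ℤ) (p : α → MonoidAlgebra (ZMod 2) K) {f g : E} (hf : f ∈ F) (hg : g ∈ F) (n m : ℤ) :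
    th ρ t st α w (p ⊗ₜ[ZMod 2] ((f * (((ρ t) ^ n : Eˣ) : E)) ⊗ₜ[ZMod 2] (g * (((ρ t) ^ m : Eˣ) : E)))) =
      if w = n + m then lam α (t ^ n) p ⊗ₜ[ZMod 2] (f ⊗ₜ[ZMod 2] (cj (ρ (t ^ n)) g)) else 0 := by
  rw [th_tmul, finsum_eq_single _ n]
  · rw [tm, ct, st.mon f hf, st.mon g hg, if_pos rfl]
    by_cases h : w = n + m
    · rw [if_pos h, if_pos (by omega)]
    · rw [if_neg h, if_neg (by omega), map_zero, TensorProduct.tmul_zero, TensorProduct.tmul_zero]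
  · intro u hu
    rw [tm, ct, st.mon f hf, if_neg hu, TensorProduct.zero_tmul, TensorProduct.tmul_zero]

end theta

section zstep
variable {K : Type} [Group K] {E : Type} [DivisionRing E] [Algebra (ZMod 2) E] (ρ : K →* Eˣ)
  (N' N : Subgroup K) (t : K) (st : Step (cl ρ N') (cl ρ N) (ρ t)) (hle : N' ≤ N) (ht : t ∈ N)
  (hc : ∀ (u : ℤ), ∀ g ∈ N', t ^ u * g * (t ^ u)⁻¹ ∈ N') (hgen : ∀ g ∈ N, ∃ n : ℤ, g * t ^ (-n) ∈ N')

include hc in
lemma th_mem {α : Type} (w : ℤ) {G A : Set E} (hA : ∀ x ∈ A, ∀ u, st.κ x u ∈ G) {z : Tc K E α}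
    (hz : z ∈ Ch K α A (cl ρ N : Set E)) : th ρ t st α w z ∈ Ch K α G (cl ρ N' : Set E) := by
  refine Ch.map _ _ (fun p x hx y hy => ?_) hz
  rw [th_tmul]
  refine finsum_induction _ (zero_mem _) (fun _ _ => add_mem) fun u => ?_
  exact Ch.mk _ (hA x hx u) (cj_cl ρ (hc u) (st.mem y hy _))

include hc in
lemma th_mem' {α : Type} (w : ℤ) {z : Tc K E α}
    (hz : z ∈ Ch K α (cl ρ N : Set E) (cl ρ N : Set E)) : th ρ t st α w z ∈ Ch K α (cl ρ N' : Set E) (cl ρ N' : Set E) :=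
  th_mem ρ N' N t st hc w (fun x hx u => st.mem x hx u) hz

include hle hc in
lemma th_sg_F {α : Type} (w : ℤ) {δ : K} (hδ : δ ∈ N') {z : Tc K E α} (hz : z ∈ Ch K α (cl ρ N : Set E) (cl ρ N : Set E)) :
    th ρ t st α w (sg (ten ρ) α δ z) - th ρ t st α w z ∈ Iv ρ α N' := by
  refine Ch.map (th ρ t st α w ∘ₗ sg (ten ρ) α δ - th ρ t st α w) _ (fun p x hx y hy => ?_) hz
  rw [LinearMap.sub_apply, LinearMap.comp_apply, sg_tmul, th_tmul, th_tmul,
    ← finsum_sub_distrib (tm_fin ρ t st w _ _ _) (tm_fin ρ t st w _ _ _)]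
  refine finsum_induction _ (zero_mem _) (fun _ _ => add_mem) fun u => ?_
  have h1 : tm ρ t st w (lam α δ p) (x * ((ρ δ⁻¹ : Eˣ) : E)) (((ρ δ : Eˣ) : E) * y) u =
      sg (ten ρ) α (t ^ u * δ * (t ^ u)⁻¹) (tm ρ t st w p x y u) := by
    have hA : lam α (t ^ u) (lam α δ p) = lam α (t ^ u * δ * (t ^ u)⁻¹) (lam α (t ^ u) p) := by
      rw [← Module.End.mul_apply, ← Module.End.mul_apply, ← map_mul, ← map_mul, inv_mul_cancel_right]
    rw [tm, tm, ct, ct, sg_tmul, kap_right ρ t st (mem_cl ρ (N'.inv_mem hδ)) hx,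
      st.left_F _ (mem_cl ρ hδ) y hy, cj_mul, hA, cj_rho, cj_rho]
    simp only [mul_inv_rev, inv_inv, mul_assoc]
  rw [h1]
  exact Iv.mk ρ (hc u δ hδ) (Ch.mk _ (st.mem x hx u) (cj_cl ρ (hc u) (st.mem y hy _)))

include hle ht hc hgen in
lemma th_Iv {α : Type} (w : ℤ) {z : Tc K E α} (hz : z ∈ Iv ρ α N) : th ρ t st α w z ∈ Iv ρ α N' := by
  refine Iv.map ρ _ _ (fun g hg x hx => ?_) hz
  obtain ⟨n, hn⟩ := hgen g hg
  have h1 : sg (ten ρ) α g x = sg (ten ρ) α (g * t ^ (-n)) (sg (ten ρ) α (t ^ n) x) := by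
    rw [← Module.End.mul_apply, ← map_mul, mul_assoc, ← zpow_add, neg_add_cancel, zpow_zero, mul_one]
  have h2 : ∀ (n : ℤ) (z : Tc K E α), z ∈ Ch K α (cl ρ N : Set E) (cl ρ N : Set E) →
      sg (ten ρ) α (t ^ n) z ∈ Ch K α (cl ρ N : Set E) (cl ρ N : Set E) := fun n z hz => Ch.sg ρ (N.zpow_mem ht n) hz
  rw [h1, ← th_sg_pow ρ t st (mem_cl ρ ht) h2 w n hx]
  exact th_sg_F ρ N' N t st hle hc w hn (h2 n x hx)

end zstep

end SQ.T3.Tor
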